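import Pool.Agent.H212.SG.Stm

set_option autoImplicit false

open Complex Set Filter Topology MeasureTheory
open scoped ComplexConjugate

namespace Pool.Agent.H212.SG
open Pool.Agent.H212.SN

theorem AL_bound (q : ℂ) {r R : ℝ} (hr : 0 < r) : ∃ C : ℝ, ∀ z : ℂ, r ≤ z.re → ‖z‖ ≤ R → ‖z ^ q‖ ≤ C := by
  have hK : IsCompact ({z : ℂ | r ≤ z.re} ∩ Metric.closedBall 0 R) :=
    (isCompact_closedBall (0 : ℂ) R).inter_left (isClosed_le continuous_const continuous_re)
  have hc : ContinuousOn (fun z : ℂ => z ^ q) ({z : ℂ | r ≤ z.re} ∩ Metric.closedBall 0 R) := by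
    intro z hz
    refine ContinuousAt.continuousWithinAt ?_
    have h : ContinuousAt (fun z : ℂ => z) z := continuousAt_id
    exact h.cpow continuousAt_const (Or.inl (lt_of_lt_of_le hr hz.1))
  obtain ⟨C, hC⟩ := hK.exists_bound_of_continuousOn hc
  exact ⟨C, fun z h1 h2 => hC z ⟨h1, by simpa using h2⟩⟩

/-- the weight -/
noncomputable def AL_W (α b : ℝ) (u : ℝ) : ℂ :=
  ((1 - u : ℝ) : ℂ) ^ (((1 - α : ℝ) : ℂ) + (b : ℂ) * I) * (u : ℂ) ^ (((α - 1 : ℝ) : ℂ) - (b : ℂ) * I)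

theorem AL_W_meas (α b : ℝ) : Measurable (AL_W α b) := by
  unfold AL_W
  have h1 : Measurable (fun u : ℝ => ((1 - u : ℝ) : ℂ)) := by fun_prop
  have h2 : Measurable (fun u : ℝ => (u : ℂ)) := by fun_prop
  exact (h1.pow_const _).mul (h2.pow_const _)

theorem AL_W_le {α b : ℝ} (h1 : α < 1) {u : ℝ} (hu : 0 < u) (hu1 : u ≤ 1) :
    ‖AL_W α b u‖ ≤ u ^ (α - 1) := by
  unfold AL_W
  rw [norm_mul]
  have e2 : ‖(u : ℂ) ^ (((α - 1 : ℝ) : ℂ) - (b : ℂ) * I)‖ = u ^ (α - 1) := by
    rw [Complex.norm_cpow_eq_rpow_re_of_pos hu]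
    simp
  have e1 : ‖((1 - u : ℝ) : ℂ) ^ (((1 - α : ℝ) : ℂ) + (b : ℂ) * I)‖ ≤ 1 := by
    rcases eq_or_lt_of_le hu1 with h | h
    · rw [h, sub_self, Complex.ofReal_zero, Complex.zero_cpow, norm_zero]
      · exact zero_le_one
      · intro h0
        have := congrArg Complex.re h0
        simp at this
        linarith
    · rw [Complex.norm_cpow_eq_rpow_re_of_pos (by linarith)]
      apply Real.rpow_le_one (by linarith) (by linarith)
      simp
      linarith
  rw [e2]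
  have h3 : 0 ≤ u ^ (α - 1) := Real.rpow_nonneg hu.le _
  nlinarith

theorem t_AL : S_AL := by
  intro α b g r0 L h0 h1 _ _ hg
  obtain ⟨hr0, hr1, hL, hG⟩ := hg
  intro η hη
  obtain ⟨hη1, hη2⟩ := hη
  refine DifferentiableAt.differentiableWithinAt ?_
  obtain ⟨ρ, hρ⟩ : ∃ ρ : ℝ, ρ = min η.re (r0 - ‖η‖) / 4 := ⟨_, rfl⟩
  have hm : 0 < min η.re (r0 - ‖η‖) := lt_min hη1 (by linarith)
  have hρ0 : 0 < ρ := by rw [hρ]; linarith
  have hρ1 : 4 * ρ ≤ η.re := by rw [hρ]; linarith [min_le_left η.re (r0 - ‖η‖)]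
  have hρ2 : 4 * ρ ≤ r0 - ‖η‖ := by rw [hρ]; linarith [min_le_right η.re (r0 - ‖η‖)]
  have hre : ∀ x : ℂ, ‖x - η‖ ≤ 2 * ρ → η.re / 2 ≤ x.re := by
    intro x hx
    have := (abs_re_le_norm (x - η)).trans hx
    rw [sub_re, abs_le] at this
    linarith [this.1]
  have hno : ∀ x : ℂ, ‖x - η‖ ≤ 2 * ρ → ‖x‖ < r0 := by
    intro x hx
    have := norm_add_le η (x - η)
    rw [add_sub_cancel] at this
    linarith
  obtain ⟨C, hC⟩ := AL_bound (-(α : ℂ)) (r := η.re / 2) (R := 1 + r0) (by linarith)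
  have hC0 : 0 ≤ C := by
    refine (norm_nonneg _).trans (hC η ?_ ?_)
    · linarith
    · linarith
  obtain ⟨F, hF⟩ : ∃ F : ℂ → ℝ → ℂ, F = fun x u => AL_W α b u * ((u : ℂ) + x) ^ (-(α : ℂ)) * g (((1 - u : ℝ) : ℂ) / (1 + x)) :=
    ⟨_, rfl⟩
  have hone : ∀ x : ℂ, ‖x‖ < r0 → (1 : ℂ) + x ≠ 0 := by
    intro x hx h
    have h2 : x = -1 := by linear_combination h
    rw [h2, norm_neg, norm_one] at hx
    linarith
  have hFd : ∀ u ∈ Set.Ioc (0 : ℝ) 1, ∀ x : ℂ, ‖x - η‖ ≤ 2 * ρ → DifferentiableAt ℂ (fun y => F y u) x := by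
    intro u hu x hx
    rw [hF]
    have h2 : DifferentiableAt ℂ (fun y : ℂ => ((u : ℂ) + y) ^ (-(α : ℂ))) x := by
      have h3 : DifferentiableAt ℂ (fun y : ℂ => (u : ℂ) + y) x := by fun_prop
      refine h3.cpow_const (Or.inl ?_)
      have := hre x hx
      simp only [add_re, ofReal_re]
      linarith [hu.1]
    have h4 : DifferentiableAt ℂ (fun y : ℂ => g (((1 - u : ℝ) : ℂ) / (1 + y))) x := by
      have h5 := ((hG (1 - u) (by linarith [hu.2]) (by linarith [hu.1])).2 x (hno x hx)).1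
      have h6 : DifferentiableAt ℂ (fun y : ℂ => ((1 - u : ℝ) : ℂ) / (1 + y)) x := by
        refine DifferentiableAt.div (differentiableAt_const _) (by fun_prop) (hone x (hno x hx))
      exact h5.comp x h6
    exact ((h2.const_mul _).mul h4)
  have hFb : ∀ u ∈ Set.Ioc (0 : ℝ) 1, ∀ x : ℂ, ‖x - η‖ ≤ 2 * ρ → ‖F x u‖ ≤ u ^ (α - 1) * (C * L) := by
    intro u hu x hx
    rw [hF]
    simp only
    rw [norm_mul, norm_mul, mul_assoc]
    have a1 := AL_W_le (b := b) h1 hu.1 hu.2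
    have a2 : ‖((u : ℂ) + x) ^ (-(α : ℂ))‖ ≤ C := by
      apply hC
      · have := hre x hx
        simp only [add_re, ofReal_re]
        linarith [hu.1]
      · have e2 : ‖(u : ℂ)‖ ≤ 1 := by
          rw [Complex.norm_real, Real.norm_eq_abs, abs_le]
          constructor <;> linarith [hu.1, hu.2]
        exact (norm_add_le _ _).trans (add_le_add e2 (hno x hx).le)
    have a3 := ((hG (1 - u) (by linarith [hu.2]) (by linarith [hu.1])).2 x (hno x hx)).2.1
    have a4 : 0 ≤ u ^ (α - 1) := Real.rpow_nonneg hu.1.le _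
    exact mul_le_mul a1 (mul_le_mul a2 a3 (norm_nonneg _) hC0) (by positivity) a4
  have hFm : ∀ x : ℂ, ‖x - η‖ ≤ 2 * ρ → AEStronglyMeasurable (F x) (volume.restrict (Set.uIoc (0 : ℝ) 1)) := by
    intro x hx
    rw [Set.uIoc_of_le zero_le_one, hF]
    have b1 : AEStronglyMeasurable (fun u : ℝ => AL_W α b u * ((u : ℂ) + x) ^ (-(α : ℂ))) (volume.restrict (Set.Ioc (0 : ℝ) 1)) := by
      have b2 : Measurable (fun u : ℝ => (u : ℂ) + x) := by fun_prop
      exact ((AL_W_meas α b).mul (b2.pow_const _)).aestronglyMeasurable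
    refine b1.mul ?_
    refine ContinuousOn.aestronglyMeasurable ?_ measurableSet_Ioc
    intro u hu
    have h5 := ((hG (1 - u) (by linarith [hu.2]) (by linarith [hu.1])).2 x (hno x hx)).1.continuousAt
    have h6 : ContinuousAt (fun u : ℝ => ((1 - u : ℝ) : ℂ) / (1 + x)) u := by
      refine ContinuousAt.div_const ?_ _
      fun_prop
    exact (ContinuousAt.comp (f := fun u : ℝ => ((1 - u : ℝ) : ℂ) / (1 + x)) h5 h6).continuousWithinAt
  have hbi : ∀ c : ℝ, IntervalIntegrable (fun u : ℝ => u ^ (α - 1) * c) volume 0 1 := fun c =>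
    (intervalIntegral.intervalIntegrable_rpow' (by linarith)).mul_const c
  have hz : ‖η - η‖ ≤ 2 * ρ := by rw [sub_self, norm_zero]; linarith
  have hder : ∀ u ∈ Set.Ioc (0 : ℝ) 1, ∀ x ∈ Metric.ball η ρ, HasDerivAt (fun y => F y u) (deriv (fun y => F y u) x) x := by
    intro u hu x hx
    rw [Metric.mem_ball, dist_eq_norm] at hx
    exact (hFd u hu x (by linarith)).hasDerivAt
  have hmain := intervalIntegral.hasDerivAt_integral_of_dominated_loc_of_deriv_le (𝕜 := ℂ)
    (μ := volume) (a := 0) (b := 1) (E := ℂ) (F := F)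
    (F' := fun x u => deriv (fun y => F y u) x)
    (x₀ := η) (s := Metric.ball η ρ) (bound := fun u => u ^ (α - 1) * (C * L / ρ))
    (Metric.ball_mem_nhds η hρ0) ?_ ?_ ?_ ?_ ?_ ?_
  · have e1 : La α b g = fun x => ∫ u in (0 : ℝ)..1, F x u := by
      funext x
      unfold La
      rw [hF]
      rfl
    rw [e1]
    exact hmain.2.differentiableAt
  · filter_upwards [Metric.ball_mem_nhds η hρ0] with x hx
    rw [Metric.mem_ball, dist_eq_norm] at hx
    exact hFm x (by linarith)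
  · refine (hbi (C * L)).mono_fun (hFm η hz) ?_
    rw [Set.uIoc_of_le zero_le_one]
    refine (ae_restrict_iff' measurableSet_Ioc).2 (Eventually.of_forall fun u hu => ?_)
    refine (hFb u hu η hz).trans (le_abs_self _)
  · refine aestronglyMeasurable_of_tendsto_ae atTop
      (f := fun (n : ℕ) (u : ℝ) => ((ρ / (n + 1 : ℝ) : ℝ) : ℂ)⁻¹ • (F (η + ((ρ / (n + 1 : ℝ) : ℝ) : ℂ)) u - F η u)) ?_ ?_
    · intro n
      have q1 : ‖(η + ((ρ / (n + 1 : ℝ) : ℝ) : ℂ)) - η‖ ≤ 2 * ρ := by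
        rw [add_sub_cancel_left, Complex.norm_real, Real.norm_of_nonneg (by positivity)]
        have : ρ / (n + 1 : ℝ) ≤ ρ := div_le_self hρ0.le (by linarith [(Nat.cast_nonneg n : (0 : ℝ) ≤ n)])
        linarith
      have q2 := (hFm _ q1).sub (hFm η hz)
      exact q2.const_smul (((ρ / (n + 1 : ℝ) : ℝ) : ℂ)⁻¹)
    · rw [Set.uIoc_of_le zero_le_one]
      refine (ae_restrict_iff' measurableSet_Ioc).2 (Eventually.of_forall fun u hu => ?_)
      have c1 := (hFd u hu η hz).hasDerivAt.tendsto_slope_zero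
      refine c1.comp ?_
      refine tendsto_nhdsWithin_iff.2 ⟨?_, Eventually.of_forall fun n => ?_⟩
      · have c2 : Tendsto (fun n : ℕ => ρ / ((n : ℝ) + 1)) atTop (𝓝 0) := by
          have c3 := (tendsto_one_div_add_atTop_nhds_zero_nat (𝕜 := ℝ)).const_mul ρ
          rw [mul_zero] at c3
          refine c3.congr fun n => ?_
          ring
        have c4 := (Complex.continuous_ofReal.tendsto (0 : ℝ)).comp c2
        rw [Complex.ofReal_zero] at c4
        exact c4
      · show ((ρ / (n + 1 : ℝ) : ℝ) : ℂ) ≠ 0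
        rw [Ne, Complex.ofReal_eq_zero]
        positivity
  · refine Eventually.of_forall fun u hu x hx => ?_
    rw [Set.uIoc_of_le zero_le_one] at hu
    rw [Metric.mem_ball, dist_eq_norm] at hx
    have d1 : ∀ y : ℂ, ‖y - x‖ ≤ ρ → ‖y - η‖ ≤ 2 * ρ := by
      intro y hy
      have := norm_add_le (y - x) (x - η)
      rw [sub_add_sub_cancel] at this
      linarith
    have d2 : DiffContOnCl ℂ (fun y => F y u) (Metric.ball x ρ) := by
      refine DifferentiableOn.diffContOnCl fun y hy => ?_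
      rw [closure_ball x hρ0.ne', Metric.mem_closedBall, dist_eq_norm] at hy
      exact (hFd u hu y (d1 y hy)).differentiableWithinAt
    have d3 := Complex.norm_deriv_le_of_forall_mem_sphere_norm_le hρ0 d2 (C := u ^ (α - 1) * (C * L)) (fun y hy => by
      rw [mem_sphere_iff_norm] at hy
      exact hFb u hu y (d1 y hy.le))
    refine d3.trans (le_of_eq ?_)
    ring
  · exact hbi _
  · refine Eventually.of_forall fun u hu x hx => ?_
    rw [Set.uIoc_of_le zero_le_one] at hu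
    exact hder u hu x hx

end Pool.Agent.H212.SG
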