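import Pool.Agent.H212.SN.Stm

/-!
# MP_e32d41_an (project SG, helper212): star-like functions with finitely many atoms (radial slit maps)

THEOREM. `F(z) = z ∏_j (1-x_j z)^{-α_j}`, `|x_j| = 1` distinct, `α_j > 0`, `∑ α_j = 2`. If some `α_{j0} < 1` then there are `f ∈ S`, `0 < |z| < 1` with
`(F * f)(z) = 0`. (So among these, property (N) holds only for `z/(1-xz)^2` and `z/((1-xz)(1-yz))`.)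

Idea: `f = fb α b x` (`α = α_{j0}`, `x = x_{j0}`), `z = 1/(1+η)`:
`(F*f)(z) = ca z^{1-α} Λ_b(η)`, `Λ_b(η) = ∫_0^1 (1-u)^{1-α+ib} u^{α-1-ib} (u+η)^{-α} g((1-u)/(1+η)) du`, `g(w) = ∏_{j≠j0}(1 - x_j conj x w)^{-α_j}`.
`Λ_b(tξ) = g(1)(-1/(ib) + t^{-ib}(1/(ib)+N(b,ξ))) + M(b) + o(1)`, `N(0,ξ) = N(0,1) - log ξ`, and `|Im (M(0)/g(1))| < π/2`.
-/

open Complex Set Filter Topology MeasureTheory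
open scoped ComplexConjugate

namespace Pool.Agent.H212.SG
open Pool.Agent.H212.SN

/-- The radial slit maps. -/
noncomputable def Fg (n : ℕ) (α : Fin n → ℝ) (x : Fin n → ℂ) (z : ℂ) : ℂ := z * ∏ j, (1 - x j * z) ^ (-(α j : ℂ))

/-- Partial products. -/
noncomputable def gp (n : ℕ) (A : Finset (Fin n)) (a : Fin n → ℝ) (y : Fin n → ℂ) (w : ℂ) : ℂ := ∏ j ∈ A, (1 - y j * w) ^ (-(a j : ℂ))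

/-- Regularity of `g` near the segment `[0,1]`. -/
def Good (g : ℂ → ℂ) (r0 L : ℝ) : Prop :=
  0 < r0 ∧ r0 ≤ 1 / 2 ∧ 0 < L ∧ ∀ s : ℝ, 0 ≤ s → s ≤ 1 → ‖g s - g 1‖ ≤ L * (1 - s) ∧
    ∀ η : ℂ, ‖η‖ < r0 → DifferentiableAt ℂ g (s / (1 + η)) ∧ ‖g (s / (1 + η))‖ ≤ L ∧ ‖g (s / (1 + η)) - g s‖ ≤ L * ‖η‖

noncomputable def Mh (α b : ℝ) (g : ℂ → ℂ) : ℂ :=
  ∫ u in (0 : ℝ)..1, (u : ℂ) ^ (-1 - (b : ℂ) * I) * (((1 - u : ℝ) : ℂ) ^ (((1 - α : ℝ) : ℂ) + (b : ℂ) * I) * g ((1 - u : ℝ) : ℂ) - g 1)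

noncomputable def Nh (α b : ℝ) (ξ : ℂ) : ℂ :=
  (∫ v in (0 : ℝ)..1, (v : ℂ) ^ (((α - 1 : ℝ) : ℂ) - (b : ℂ) * I) * ((v : ℂ) + ξ) ^ (-(α : ℂ))) +
    ∫ v in Set.Ioi (1 : ℝ), ((v : ℂ) ^ (((α - 1 : ℝ) : ℂ) - (b : ℂ) * I) * ((v : ℂ) + ξ) ^ (-(α : ℂ)) - (v : ℂ) ^ (-1 - (b : ℂ) * I))

noncomputable def La (α b : ℝ) (g : ℂ → ℂ) (η : ℂ) : ℂ :=
  ∫ u in (0 : ℝ)..1, ((1 - u : ℝ) : ℂ) ^ (((1 - α : ℝ) : ℂ) + (b : ℂ) * I) * (u : ℂ) ^ (((α - 1 : ℝ) : ℂ) - (b : ℂ) * I) *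
    ((u : ℂ) + η) ^ (-(α : ℂ)) * g (((1 - u : ℝ) : ℂ) / (1 + η))

/-- K2: `|1+z| ≥ 1`; mean value on `[0,z]` (derivative `-α (1+z)^{-α-1}`, norm `≤ 1`). -/
def S_K2 : Prop :=
  ∀ (α : ℝ) (z : ℂ), 0 < α → α < 1 → 0 ≤ z.re → ‖(1 + z) ^ (-(α : ℂ))‖ ≤ 1 ∧ ‖(1 + z) ^ (-(α : ℂ)) - 1‖ ≤ ‖z‖

/-- LTA2. Difference `= ∫ u^{α-1-ib}(u+η)^{-α} (1-u)^{1-α+ib} [g((1-u)/(1+η)) - g(1-u)] du + ∫ u^{α-1-ib} [(u+η)^{-α} - u^{-α}] h(u) du`, `η = tξ`,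
`h(u) = (1-u)^{1-α+ib} g(1-u) - g(1)`, `|h(u)| ≤ C u` (Lipschitz for `u ≤ 1/2`, bounded for `u > 1/2`). First `≤ ∫ u^{α-1} (tκ)^{-α} L·2t du = (2L/α) κ^{-α} t^{1-α}`
(`|u+η| ≥ Re η ≥ tκ`); second `≤ C ∫_0^1 min(2, 2t/u) du → 0` (`S_K2`: `(u+η)^{-α} - u^{-α} = u^{-α}((1+η/u)^{-α} - 1)`). -/
def S_LTA2 : Prop :=
  ∀ (α b : ℝ) (g : ℂ → ℂ) (r0 L κ : ℝ), 0 < α → α < 1 → 0 < b → b ≤ 1 → Good g r0 L → 0 < κ → ∀ ε : ℝ, 0 < ε → ∃ t0 : ℝ, 0 < t0 ∧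
    ∀ t : ℝ, 0 < t → t < t0 → ∀ ξ : ℂ, ‖ξ‖ ≤ 2 → κ ≤ ξ.re →
    ‖La α b g ((t : ℂ) * ξ) - g 1 * (∫ u in (0 : ℝ)..1, (u : ℂ) ^ (((α - 1 : ℝ) : ℂ) - (b : ℂ) * I) * ((u : ℂ) + (t : ℂ) * ξ) ^ (-(α : ℂ))) - Mh α b g‖ ≤ ε

/-- LTB2. Substitute `u = tv`: `t^{-ib} ∫_0^{1/t} v^{α-1-ib}(v+ξ)^{-α} dv`, `∫_0^{1/t} = ∫_0^1 + ∫_1^{1/t}(.. - v^{-1-ib}) + (1-t^{ib})/(ib)`, the tail
`∫_{1/t}^∞` of the difference is `≤ ∫ v^{-1} |ξ|/v ≤ 2t` (`S_K2`). -/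
def S_LTB2 : Prop :=
  ∀ (α b t : ℝ) (ξ : ℂ), 0 < α → α < 1 → 0 < b → b ≤ 1 → 0 < t → t < 1 → ‖ξ‖ ≤ 2 → 0 < ξ.re →
    ‖(∫ u in (0 : ℝ)..1, (u : ℂ) ^ (((α - 1 : ℝ) : ℂ) - (b : ℂ) * I) * ((u : ℂ) + (t : ℂ) * ξ) ^ (-(α : ℂ))) -
      (-1 / ((b : ℂ) * I) + (t : ℂ) ^ (-((b : ℂ) * I)) * (1 / ((b : ℂ) * I) + Nh α b ξ))‖ ≤ 2 * t

/-- BM2: `|u^{-ib} - 1| ≤ b |log u|`, `|(1-u)^{ib} - 1| ≤ b |log(1-u)|`, `|h_0(u)| ≤ C u`, `|log(1-u)|(1-u)^{1-α}/u` and `|log u|` integrable. -/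
def S_BM2 : Prop :=
  ∀ (α : ℝ) (g : ℂ → ℂ) (r0 L : ℝ), 0 < α → α < 1 → Good g r0 L → ∃ C : ℝ, 0 < C ∧ ∀ b : ℝ, 0 < b → b ≤ 1 → ‖Mh α b g - Mh α 0 g‖ ≤ C * b

/-- BN2: on `(0,1)` `|v^{-ib}-1| v^{α-1} κ^{-α}`; on `(1,∞)` `|v^{-ib}-1| v^{-1} |(1+ξ/v)^{-α} - 1| ≤ b log v · 2 v^{-2}`. -/
def S_BN2 : Prop :=
  ∀ (α κ : ℝ), 0 < α → α < 1 → 0 < κ → ∃ C : ℝ, 0 < C ∧ ∀ b : ℝ, 0 < b → b ≤ 1 → ∀ ξ : ℂ, ‖ξ‖ ≤ 2 → κ ≤ ξ.re → ‖Nh α b ξ - Nh α 0 ξ‖ ≤ C * b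

/-- NI: derivative in `ξ` is `-α ∫_0^∞ v^{α-1}(v+ξ)^{-α-1} dv = -1/ξ` (antiderivative `(v/(v+ξ))^α/ξ`), the right half plane is convex. Real at `ξ = 1`. -/
def S_NI : Prop :=
  ∀ α : ℝ, 0 < α → α < 1 → (Nh α 0 1).im = 0 ∧ ∀ ξ : ℂ, 0 < ξ.re → Nh α 0 ξ = Nh α 0 1 - Complex.log ξ

/-- AL: differentiate under the integral sign. -/
def S_AL : Prop :=
  ∀ (α b : ℝ) (g : ℂ → ℂ) (r0 L : ℝ), 0 < α → α < 1 → 0 < b → b ≤ 1 → Good g r0 L → DifferentiableOn ℂ (La α b g) {η : ℂ | 0 < η.re ∧ ‖η‖ < r0}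

/-- CORE2. `r = M(0)/g(1)`, `ξ0 = exp(i Im r)`, `Re ξ0 > 0`; `ρ > 0` small: `closedBall ξ0 ρ ⊆ {κ ≤ Re ξ, |ξ| ≤ 2}`, and
`log ξ ≠ i Im r` on it except at `ξ0` (injectivity: `exp`), `δ = min_{|ξ-ξ0|=ρ} |log ξ - i Im r| > 0`. `θ = Re N(0,1) + Re r`,
`G_b(ξ) = N(b,ξ) - (e^{ibθ}(1-ibM(b)/g(1)) - 1)/(ib) → N(0,1) - log ξ - θ + r = i Im r - log ξ` uniformly (`S_BM2`, `S_BN2`, `S_NI`). Fix `b` with difference `< δ/8`.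
`t = exp(θ - 2πk/b)`: `t^{-ib} = e^{-ibθ}`, `-1/(ib) + M(b)/g(1) + t^{-ib}(1/(ib)+N(b,ξ)) = e^{-ibθ}G_b(ξ)`, so by `S_LTA2`, `S_LTB2`
`|La(tξ)/g(1) - e^{-ibθ}G_b(ξ)| < δ/8` for `k` large: on the circle `|La(tξ)| ≥ |g 1| 3δ/4`, at `ξ0` `≤ |g 1| δ/4`. `S_MM` for `ξ ↦ La(tξ)` (`S_AL`). -/
def S_CORE2 : Prop :=
  ∀ (α : ℝ) (g : ℂ → ℂ) (r0 L : ℝ), 0 < α → α < 1 → Good g r0 L → g 1 ≠ 0 → |(Mh α 0 g / g 1).im| < Real.pi / 2 → ∀ ε : ℝ, 0 < ε →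
    ∃ (b : ℝ) (η : ℂ), 0 < b ∧ b < ε ∧ b ≤ 1 ∧ 0 < η.re ∧ ‖η‖ < ε ∧ La α b g η = 0

/-- GOOD: each factor `(1 - y w)^{-a}`, `|y| = 1`, `y ≠ 1`, is holomorphic and Lipschitz near the segment `[0,1]` (the real part of `1 - y s` is positive for `s ∈ [0,1]`,
compactness), finite product of bounded Lipschitz functions. `|s/(1+η) - s| ≤ 2|η|`. -/
def S_GOOD : Prop :=
  ∀ (n : ℕ) (A : Finset (Fin n)) (a : Fin n → ℝ) (y : Fin n → ℂ), (∀ j ∈ A, 0 < a j) → (∀ j ∈ A, ‖y j‖ = 1) → (∀ j ∈ A, y j ≠ 1) →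
    gp n A a y 1 ≠ 0 ∧ ∃ r0 L : ℝ, Good (gp n A a y) r0 L

/-- LAP: one factor: `(1+τe)^{-a} = (1/Γ(a)) ∫_0^∞ g^{a-1} e^{-g(1+τe)} dg` (`Complex.integral_cpow_mul_exp_neg_mul_Ioi`): `P` = image of the Gamma law under `g ↦ g e`.
Products: convolution (image of the product measure under addition); induction on the nonempty finset. `K` = max of `2|Im e_j|`. -/
def S_LAP : Prop :=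
  ∀ (n : ℕ) (A : Finset (Fin n)) (a : Fin n → ℝ) (e : Fin n → ℂ), A.Nonempty → (∀ j ∈ A, 0 < a j) → (∀ j ∈ A, (e j).re = 1 / 2) →
    ∃ (P : Measure ℂ) (K : ℝ), IsProbabilityMeasure P ∧ 0 < K ∧ (∀ᵐ Z ∂P, 0 < Z.re ∧ |Z.im| ≤ K * Z.re) ∧
      ∀ τ : ℝ, 0 ≤ τ → ∏ j ∈ A, (1 + (τ : ℂ) * e j) ^ (-(a j : ℂ)) = ∫ Z, Complex.exp (-(τ : ℂ) * Z) ∂P

/-- IMP: Fubini: `Im e^{-τZ} = -e^{-τ Re Z} sin(τ Im Z)`, `∫_0^∞ e^{-τX}|sin(τY)|/τ dτ ≤ K` for `|Y| ≤ K X`, and `∫_0^∞ e^{-τX} sin(τY)/τ dτ = arctan(Y/X)`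
(differentiate in `Y`). -/
def S_IMP : Prop :=
  ∀ (P : Measure ℂ) (K : ℝ), IsProbabilityMeasure P → 0 < K → (∀ᵐ Z ∂P, 0 < Z.re ∧ |Z.im| ≤ K * Z.re) →
    |∫ τ in Set.Ioi (0 : ℝ), (∫ Z, Complex.exp (-(τ : ℂ) * Z) ∂P).im / τ| ≤ Real.arctan K

/-- IMR: `e_j = 1/(1-y_j)`, `Re e_j = 1/2`. `1 - y_j(1-u) = (1-y_j)((1-u)+u e_j)`, so `g(1-u)/g(1) = ∏((1-u)+u e_j)^{-a_j}` (both factors have positive real part and so has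
the product). `Im (M(0)/g 1) = ∫_0^1 (1-u)^{1-α} Im(g(1-u)/g(1)) du/u`; `u = τ/(1+τ)`: `= ∫_0^∞ Im ∏(1+τe_j)^{-a_j} dτ/τ` (`∑ a_j = 2-α`). Then `S_LAP`, `S_IMP`. -/
def S_IMR : Prop :=
  ∀ (n : ℕ) (A : Finset (Fin n)) (a : Fin n → ℝ) (y : Fin n → ℂ) (α : ℝ), 0 < α → α < 1 → A.Nonempty → (∀ j ∈ A, 0 < a j) → (∀ j ∈ A, ‖y j‖ = 1) →
    (∀ j ∈ A, y j ≠ 1) → ∑ j ∈ A, a j = 2 - α → |(Mh α 0 (gp n A a y) / gp n A a y 1).im| < Real.pi / 2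

/-- HAD2: `f = fb α b x`, `f'(ζ) = (1-conj x ζ)^{-a}`, `a = 2-α+ib` (`S_UNIV`), so `cf f (n+1) = (a)_n conj x^n/(n+1)!`, and
`(a)_n/(2)_n = (1/B(a,2-a)) ∫_0^1 v^{a+n-1}(1-v)^{1-a} dv` (`Complex.betaIntegral`, Gamma). `ca = 1/B(a,2-a)`. Sum and integral interchange for `|z| < 1`. -/
def S_HAD2 : Prop :=
  ∀ (α b : ℝ) (x : ℂ), 0 < α → α < 1 → 0 < b → b ^ 2 ≤ 1 - α ^ 2 → ‖x‖ = 1 → ∃ ca : ℂ, ca ≠ 0 ∧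
    ∀ H : ℂ → ℂ, DifferentiableOn ℂ H (Metric.ball 0 1) → ∀ z : ℂ, ‖z‖ < 1 →
      Summable (fun n => cf (fun w => w * H w) n * cf (fb α b x) n * z ^ n) ∧
      had (fun w => w * H w) (fb α b x) z = ca * z * ∫ v in (0 : ℝ)..1, (v : ℂ) ^ (((1 - α : ℝ) : ℂ) + (b : ℂ) * I) *
        ((1 - v : ℝ) : ℂ) ^ (((α - 1 : ℝ) : ℂ) - (b : ℂ) * I) * H ((v : ℂ) * (conj x * z))

/-- FIN2. `α = α_{j0}`, `x = x_{j0}`, `A = univ.erase j0` (nonempty since `α_{j0} < 1 < 2 = ∑`), `y_j = x_j conj x`, `g = gp n A α y`; `S_GOOD`, `S_IMR`, `S_CORE2` give `b` small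
(`b² ≤ 1-α²`) and `η`; `z = 1/(1+η)`, `|z| < 1`, `z ≠ 0`. In `S_HAD2` with `H(w) = ∏ (1-x_j w)^{-α_j}`, substitute `v = 1-u`: `H(v conj x z) = (1-vz)^{-α} g(vz)`,
`1 - vz = z((1-v)+η)`, `(z(u+η))^{-α} = z^{-α}(u+η)^{-α}` (both factors have positive real part), `vz = (1-u)/(1+η)`: the integral is `z^{-α} La α b g η = 0`. -/
def S_FIN2 : Prop :=
  ∀ (n : ℕ) (α : Fin n → ℝ) (x : Fin n → ℂ) (j0 : Fin n), (∀ j, 0 < α j) → ∑ j, α j = 2 → (∀ j, ‖x j‖ = 1) → Function.Injective x → α j0 < 1 →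
    ∃ f : ℂ → ℂ, ClassS f ∧ ∃ z : ℂ, z ≠ 0 ∧ ‖z‖ < 1 ∧ Summable (fun n' => cf (Fg n α x) n' * cf f n' * z ^ n') ∧ had (Fg n α x) f z = 0

/-- STAR2: star-likeness: `z F'/F = 1 + ∑ α_j x_j z/(1-x_j z)`, real part `> 1 - (1/2)∑ α_j = 0`. -/
def S_STAR2 : Prop :=
  ∀ (n : ℕ) (α : Fin n → ℝ) (x : Fin n → ℂ), (∀ j, 0 < α j) → ∑ j, α j = 2 → (∀ j, ‖x j‖ = 1) →
    DifferentiableOn ℂ (Fg n α x) (Metric.ball 0 1) ∧ Fg n α x 0 = 0 ∧ deriv (Fg n α x) 0 = 1 ∧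
    ∀ z : ℂ, z ≠ 0 → ‖z‖ < 1 → Fg n α x z ≠ 0 ∧ 0 < (z * deriv (Fg n α x) z / Fg n α x z).re

end Pool.Agent.H212.SG
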