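import Mathlib
import Pool.Agent.H212.SG.Stm

/-! Project SG, part BM2 (helper376). -/

set_option autoImplicit false

open Complex Set Filter Topology MeasureTheory
open scoped ComplexConjugate

namespace Pool.Agent.H212.SG
open Pool.Agent.H212.SN

theorem BM2_norm (b : ℝ) {u : ℝ} (hu0 : 0 < u) : ‖(u : ℂ) ^ (-1 - (b : ℂ) * I)‖ = u⁻¹ := by
  rw [Complex.norm_cpow_eq_rpow_re_of_pos hu0]
  have h : (-1 - (b : ℂ) * I).re = -1 := by simp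
  rw [h, Real.rpow_neg_one]

theorem BM2_diff (b : ℝ) {u : ℝ} (hb : 0 < b) (hu0 : 0 < u) :
    ‖(u : ℂ) ^ (-1 - (b : ℂ) * I) - (u : ℂ) ^ (-1 - ((0 : ℝ) : ℂ) * I)‖ ≤ u⁻¹ * (b * |Real.log u|) := by
  have hne : (u : ℂ) ≠ 0 := by exact_mod_cast hu0.ne'
  have e1 : (u : ℂ) ^ (-1 - (b : ℂ) * I) =
      (u : ℂ) ^ (-1 - ((0 : ℝ) : ℂ) * I) * Complex.exp (I * ((-(b * Real.log u) : ℝ) : ℂ)) := by
    have e2 : (-1 - (b : ℂ) * I) = (-1 - ((0 : ℝ) : ℂ) * I) + -((b : ℂ) * I) := by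
      push_cast
      ring
    rw [e2, Complex.cpow_add _ _ hne]
    congr 1
    rw [Complex.cpow_def_of_ne_zero hne, ← Complex.ofReal_log hu0.le]
    congr 1
    push_cast
    ring
  have e3 : (u : ℂ) ^ (-1 - (b : ℂ) * I) - (u : ℂ) ^ (-1 - ((0 : ℝ) : ℂ) * I) =
      (u : ℂ) ^ (-1 - ((0 : ℝ) : ℂ) * I) *
        (Complex.exp (I * ((-(b * Real.log u) : ℝ) : ℂ)) - 1) := by
    rw [e1]
    ring
  rw [e3, norm_mul, BM2_norm 0 hu0]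
  refine mul_le_mul_of_nonneg_left ?_ (inv_nonneg.2 hu0.le)
  refine Real.norm_exp_I_mul_ofReal_sub_one_le.trans ?_
  rw [Real.norm_eq_abs, abs_neg, abs_mul, abs_of_pos hb]

theorem BM2_norm2 (c b : ℝ) {u : ℝ} (hu0 : 0 < u) : ‖(u : ℂ) ^ ((c : ℂ) + (b : ℂ) * I)‖ = u ^ c := by
  rw [Complex.norm_cpow_eq_rpow_re_of_pos hu0]
  have h : ((c : ℂ) + (b : ℂ) * I).re = c := by simp
  rw [h]

theorem BM2_diff2 (c b : ℝ) {u : ℝ} (hb : 0 < b) (hu0 : 0 < u) :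
    ‖(u : ℂ) ^ ((c : ℂ) + (b : ℂ) * I) - (u : ℂ) ^ ((c : ℂ) + ((0 : ℝ) : ℂ) * I)‖ ≤
      u ^ c * (b * |Real.log u|) := by
  have hne : (u : ℂ) ≠ 0 := by exact_mod_cast hu0.ne'
  have e1 : (u : ℂ) ^ ((c : ℂ) + (b : ℂ) * I) =
      (u : ℂ) ^ ((c : ℂ) + ((0 : ℝ) : ℂ) * I) * Complex.exp (I * (((b * Real.log u) : ℝ) : ℂ)) := by
    have e2 : ((c : ℂ) + (b : ℂ) * I) = ((c : ℂ) + ((0 : ℝ) : ℂ) * I) + ((b : ℂ) * I) := by
      push_cast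
      ring
    rw [e2, Complex.cpow_add _ _ hne]
    congr 1
    rw [Complex.cpow_def_of_ne_zero hne, ← Complex.ofReal_log hu0.le]
    congr 1
    push_cast
    ring
  have e3 : (u : ℂ) ^ ((c : ℂ) + (b : ℂ) * I) - (u : ℂ) ^ ((c : ℂ) + ((0 : ℝ) : ℂ) * I) =
      (u : ℂ) ^ ((c : ℂ) + ((0 : ℝ) : ℂ) * I) *
        (Complex.exp (I * (((b * Real.log u) : ℝ) : ℂ)) - 1) := by
    rw [e1]
    ring
  rw [e3, norm_mul, BM2_norm2 c 0 hu0]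
  refine mul_le_mul_of_nonneg_left ?_ (Real.rpow_nonneg hu0.le _)
  refine Real.norm_exp_I_mul_ofReal_sub_one_le.trans ?_
  rw [Real.norm_eq_abs, abs_mul, abs_of_pos hb]

theorem BM2_int1 {α : ℝ} (h1 : α < 1) :
    IntegrableOn (fun u : ℝ => (1 - u) ^ (-α)) (Ioo 0 1) := by
  rw [← intervalIntegrable_iff_integrableOn_Ioo_of_le zero_le_one]
  have h := (intervalIntegral.intervalIntegrable_rpow' (a := 1) (b := 0) (r := -α)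
    (by linarith)).comp_sub_left 1
  simpa using h

theorem BM2_int2 : IntegrableOn (fun u : ℝ => 2 * |Real.log u|) (Ioo 0 1) := by
  rw [← intervalIntegrable_iff_integrableOn_Ioo_of_le zero_le_one]
  exact (intervalIntegral.intervalIntegrable_log' (a := 0) (b := 1)).abs.const_mul 2

theorem BM2_good {g : ℂ → ℂ} {r0 L : ℝ} (hg : Good g r0 L) {s : ℝ} (h0 : 0 ≤ s) (h1 : s ≤ 1) :
    ‖g (s : ℂ)‖ ≤ L ∧ ContinuousAt g (s : ℂ) ∧ ‖g (s : ℂ) - g 1‖ ≤ L * (1 - s) := by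
  obtain ⟨hr, -, hL, h⟩ := hg
  obtain ⟨k1, k2⟩ := h s h0 h1
  obtain ⟨k3, k4, -⟩ := k2 0 (by simpa using hr)
  rw [add_zero, div_one] at k3 k4
  exact ⟨k4, k3.continuousAt, k1⟩

/-- pointwise bounds -/
theorem BM2_log {u : ℝ} (hu0 : 0 < u) (hu1 : u < 1) : |Real.log (1 - u)| ≤ u * (1 - u)⁻¹ := by
  have hv : 0 < 1 - u := by linarith
  rw [abs_of_nonpos (Real.log_nonpos hv.le (by linarith))]
  have h := Real.one_sub_inv_le_log_of_pos hv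
  have e : u * (1 - u)⁻¹ = (1 - u)⁻¹ - 1 := by
    field_simp
    ring
  rw [e]
  linarith

theorem BM2_w {α u : ℝ} (hu0 : 0 < u) (hu1 : u < 1) :
    u⁻¹ * ((1 - u) ^ (1 - α) * |Real.log (1 - u)|) ≤ (1 - u) ^ (-α) := by
  have hv : 0 < 1 - u := by linarith
  have h1 := BM2_log hu0 hu1
  have e : (1 - u) ^ (-α) = u⁻¹ * ((1 - u) ^ (1 - α) * (u * (1 - u)⁻¹)) := by
    have e1 : (1 - u) ^ (1 - α) = (1 - u) * (1 - u) ^ (-α) := by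
      rw [show 1 - α = 1 + -α by ring, Real.rpow_add hv, Real.rpow_one]
    rw [e1]
    field_simp
  rw [e]
  refine mul_le_mul_of_nonneg_left (mul_le_mul_of_nonneg_left h1 (Real.rpow_nonneg hv.le _))
    (inv_nonneg.2 hu0.le)

theorem BM2_h0 {α u : ℝ} {g : ℂ → ℂ} {r0 L : ℝ} (h0 : 0 < α) (h1 : α < 1) (hg : Good g r0 L)
    (hu0 : 0 < u) (hu1 : u < 1) :
    ‖((1 - u : ℝ) : ℂ) ^ (((1 - α : ℝ) : ℂ) + ((0 : ℝ) : ℂ) * I) * g ((1 - u : ℝ) : ℂ) - g 1‖ ≤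
      2 * L * u := by
  have hv : 0 < 1 - u := by linarith
  obtain ⟨k1, -, k3⟩ := BM2_good hg hv.le (by linarith : 1 - u ≤ 1)
  have hL : 0 < L := hg.2.2.1
  have e1 : ((1 - u : ℝ) : ℂ) ^ (((1 - α : ℝ) : ℂ) + ((0 : ℝ) : ℂ) * I) =
      (((1 - u) ^ (1 - α) : ℝ) : ℂ) := by
    rw [Complex.ofReal_cpow hv.le]
    congr 1
    push_cast
    ring
  have e2 : ((1 - u : ℝ) : ℂ) ^ (((1 - α : ℝ) : ℂ) + ((0 : ℝ) : ℂ) * I) * g ((1 - u : ℝ) : ℂ) - g 1 =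
      ((((1 - u) ^ (1 - α) - 1 : ℝ)) : ℂ) * g ((1 - u : ℝ) : ℂ) + (g ((1 - u : ℝ) : ℂ) - g 1) := by
    rw [e1]
    push_cast
    ring
  rw [e2]
  refine (norm_add_le _ _).trans ?_
  rw [norm_mul, Complex.norm_real, Real.norm_eq_abs]
  have e3 : (1 - u) ^ (1 - α) ≤ 1 := Real.rpow_le_one hv.le (by linarith) (by linarith)
  have e4 : 1 - u ≤ (1 - u) ^ (1 - α) := by
    have := Real.rpow_le_rpow_of_exponent_ge hv (by linarith : 1 - u ≤ 1) (by linarith : 1 - α ≤ 1)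
    rwa [Real.rpow_one] at this
  have e5 : |(1 - u) ^ (1 - α) - 1| ≤ u := by
    rw [abs_le]
    constructor <;> linarith
  have e6 : |(1 - u) ^ (1 - α) - 1| * ‖g ((1 - u : ℝ) : ℂ)‖ ≤ u * L :=
    mul_le_mul e5 k1 (norm_nonneg _) hu0.le
  have e7 : L * (1 - (1 - u)) = L * u := by ring
  rw [e7] at k3
  linarith

theorem BM2_hd {α b u : ℝ} {g : ℂ → ℂ} {r0 L : ℝ} (hg : Good g r0 L) (hb : 0 < b)
    (hu0 : 0 < u) (hu1 : u < 1) :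
    ‖(((1 - u : ℝ) : ℂ) ^ (((1 - α : ℝ) : ℂ) + (b : ℂ) * I) * g ((1 - u : ℝ) : ℂ) - g 1) -
      (((1 - u : ℝ) : ℂ) ^ (((1 - α : ℝ) : ℂ) + ((0 : ℝ) : ℂ) * I) * g ((1 - u : ℝ) : ℂ) - g 1)‖ ≤
      L * b * ((1 - u) ^ (1 - α) * |Real.log (1 - u)|) := by
  have hv : 0 < 1 - u := by linarith
  obtain ⟨k1, -, -⟩ := BM2_good hg hv.le (by linarith : 1 - u ≤ 1)
  have e : (((1 - u : ℝ) : ℂ) ^ (((1 - α : ℝ) : ℂ) + (b : ℂ) * I) * g ((1 - u : ℝ) : ℂ) - g 1) -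
      (((1 - u : ℝ) : ℂ) ^ (((1 - α : ℝ) : ℂ) + ((0 : ℝ) : ℂ) * I) * g ((1 - u : ℝ) : ℂ) - g 1) =
      (((1 - u : ℝ) : ℂ) ^ (((1 - α : ℝ) : ℂ) + (b : ℂ) * I) -
        ((1 - u : ℝ) : ℂ) ^ (((1 - α : ℝ) : ℂ) + ((0 : ℝ) : ℂ) * I)) * g ((1 - u : ℝ) : ℂ) := by
    ring
  rw [e, norm_mul]
  have h := BM2_diff2 (1 - α) b hb hv
  have hn : 0 ≤ (1 - u) ^ (1 - α) * (b * |Real.log (1 - u)|) :=
    mul_nonneg (Real.rpow_nonneg hv.le _) (mul_nonneg hb.le (abs_nonneg _))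
  refine (mul_le_mul h k1 (norm_nonneg _) hn).trans (le_of_eq ?_)
  ring

theorem BM2_meas {α b : ℝ} {g : ℂ → ℂ} {r0 L : ℝ} (hg : Good g r0 L) :
    AEStronglyMeasurable (fun u : ℝ => (u : ℂ) ^ (-1 - (b : ℂ) * I) *
      (((1 - u : ℝ) : ℂ) ^ (((1 - α : ℝ) : ℂ) + (b : ℂ) * I) * g ((1 - u : ℝ) : ℂ) - g 1))
      (volume.restrict (Ioo (0 : ℝ) 1)) := by
  have hgm : AEStronglyMeasurable (fun u : ℝ => g ((1 - u : ℝ) : ℂ))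
      (volume.restrict (Ioo (0 : ℝ) 1)) := by
    refine ContinuousOn.aestronglyMeasurable (fun u hu => ?_) measurableSet_Ioo
    obtain ⟨-, k2, -⟩ := BM2_good hg (by linarith [hu.2] : 0 ≤ 1 - u) (by linarith [hu.1] : 1 - u ≤ 1)
    have hc : ContinuousAt (fun u : ℝ => ((1 - u : ℝ) : ℂ)) u := by
      fun_prop
    exact (ContinuousAt.comp (f := fun u : ℝ => ((1 - u : ℝ) : ℂ)) k2 hc).continuousWithinAt
  have h1 : AEStronglyMeasurable (fun u : ℝ => (u : ℂ) ^ (-1 - (b : ℂ) * I))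
      (volume.restrict (Ioo (0 : ℝ) 1)) := by
    refine Measurable.aestronglyMeasurable ?_
    fun_prop
  have h2 : AEStronglyMeasurable (fun u : ℝ => ((1 - u : ℝ) : ℂ) ^ (((1 - α : ℝ) : ℂ) + (b : ℂ) * I))
      (volume.restrict (Ioo (0 : ℝ) 1)) := by
    refine Measurable.aestronglyMeasurable ?_
    fun_prop
  exact h1.mul ((h2.mul hgm).sub aestronglyMeasurable_const)

theorem BM2_bound {α b u : ℝ} {g : ℂ → ℂ} {r0 L : ℝ} (h0 : 0 < α) (h1 : α < 1) (hg : Good g r0 L)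
    (hb : 0 < b) (hu0 : 0 < u) (hu1 : u < 1) :
    ‖(u : ℂ) ^ (-1 - (b : ℂ) * I) *
      (((1 - u : ℝ) : ℂ) ^ (((1 - α : ℝ) : ℂ) + (b : ℂ) * I) * g ((1 - u : ℝ) : ℂ) - g 1)‖ ≤
      L * b * (1 - u) ^ (-α) + 2 * L := by
  have hL : 0 < L := hg.2.2.1
  have a1 := BM2_h0 h0 h1 hg hu0 hu1
  have a2 := BM2_hd (α := α) hg hb hu0 hu1
  have a3 : ‖((1 - u : ℝ) : ℂ) ^ (((1 - α : ℝ) : ℂ) + (b : ℂ) * I) * g ((1 - u : ℝ) : ℂ) - g 1‖ ≤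
      L * b * ((1 - u) ^ (1 - α) * |Real.log (1 - u)|) + 2 * L * u := by
    have := norm_add_le ((((1 - u : ℝ) : ℂ) ^ (((1 - α : ℝ) : ℂ) + (b : ℂ) * I) * g ((1 - u : ℝ) : ℂ) - g 1) -
      (((1 - u : ℝ) : ℂ) ^ (((1 - α : ℝ) : ℂ) + ((0 : ℝ) : ℂ) * I) * g ((1 - u : ℝ) : ℂ) - g 1))
      (((1 - u : ℝ) : ℂ) ^ (((1 - α : ℝ) : ℂ) + ((0 : ℝ) : ℂ) * I) * g ((1 - u : ℝ) : ℂ) - g 1)
    rw [sub_add_cancel] at this
    linarith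
  rw [norm_mul, BM2_norm b hu0]
  have a4 := mul_le_mul_of_nonneg_left a3 (inv_nonneg.2 hu0.le)
  refine a4.trans ?_
  have a5 := mul_le_mul_of_nonneg_left (BM2_w (α := α) hu0 hu1) (mul_nonneg hL.le hb.le)
  have a6 : u⁻¹ * (L * b * ((1 - u) ^ (1 - α) * |Real.log (1 - u)|) + 2 * L * u) =
      L * b * (u⁻¹ * ((1 - u) ^ (1 - α) * |Real.log (1 - u)|)) + 2 * L := by
    field_simp
  rw [a6]
  linarith

theorem BM2_bound0 {α u : ℝ} {g : ℂ → ℂ} {r0 L : ℝ} (h0 : 0 < α) (h1 : α < 1) (hg : Good g r0 L)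
    (hu0 : 0 < u) (hu1 : u < 1) :
    ‖(u : ℂ) ^ (-1 - ((0 : ℝ) : ℂ) * I) *
      (((1 - u : ℝ) : ℂ) ^ (((1 - α : ℝ) : ℂ) + ((0 : ℝ) : ℂ) * I) * g ((1 - u : ℝ) : ℂ) - g 1)‖ ≤
      2 * L := by
  have a1 := BM2_h0 h0 h1 hg hu0 hu1
  rw [norm_mul, BM2_norm 0 hu0]
  have a4 := mul_le_mul_of_nonneg_left a1 (inv_nonneg.2 hu0.le)
  refine a4.trans (le_of_eq ?_)
  field_simp

theorem BM2_intb {α b : ℝ} {g : ℂ → ℂ} {r0 L : ℝ} (h0 : 0 < α) (h1 : α < 1) (hg : Good g r0 L)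
    (hb : 0 < b) : IntegrableOn (fun u : ℝ => (u : ℂ) ^ (-1 - (b : ℂ) * I) *
      (((1 - u : ℝ) : ℂ) ^ (((1 - α : ℝ) : ℂ) + (b : ℂ) * I) * g ((1 - u : ℝ) : ℂ) - g 1))
      (Ioo (0 : ℝ) 1) := by
  have hG : IntegrableOn (fun u : ℝ => L * b * (1 - u) ^ (-α) + 2 * L) (Ioo 0 1) := by
    refine ((BM2_int1 h1).const_mul (L * b)).add ?_
    refine integrableOn_const (by simp)
  refine Integrable.mono' hG (BM2_meas hg) ?_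
  exact (ae_restrict_iff' measurableSet_Ioo).2 (ae_of_all _ fun u hu => BM2_bound h0 h1 hg hb hu.1 hu.2)

theorem BM2_int0 {α : ℝ} {g : ℂ → ℂ} {r0 L : ℝ} (h0 : 0 < α) (h1 : α < 1) (hg : Good g r0 L) :
    IntegrableOn (fun u : ℝ => (u : ℂ) ^ (-1 - ((0 : ℝ) : ℂ) * I) *
      (((1 - u : ℝ) : ℂ) ^ (((1 - α : ℝ) : ℂ) + ((0 : ℝ) : ℂ) * I) * g ((1 - u : ℝ) : ℂ) - g 1))
      (Ioo (0 : ℝ) 1) := by
  have hG : IntegrableOn (fun _ : ℝ => 2 * L) (Ioo (0 : ℝ) 1) := integrableOn_const (by simp)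
  refine Integrable.mono' hG (BM2_meas hg) ?_
  exact (ae_restrict_iff' measurableSet_Ioo).2 (ae_of_all _ fun u hu => BM2_bound0 h0 h1 hg hu.1 hu.2)

theorem t_BM2 : S_BM2 := by
  intro α g r0 L h0 h1 hg
  have hL : 0 < L := hg.2.2.1
  have hG := ((BM2_int1 h1).add BM2_int2).const_mul L
  have hIpos : 0 ≤ ∫ u in Ioo (0 : ℝ) 1, L * ((1 - u) ^ (-α) + 2 * |Real.log u|) := by
    refine setIntegral_nonneg measurableSet_Ioo fun u hu => ?_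
    have := Real.rpow_nonneg (by linarith [hu.2] : (0 : ℝ) ≤ 1 - u) (-α)
    have := abs_nonneg (Real.log u)
    positivity
  refine ⟨(∫ u in Ioo (0 : ℝ) 1, L * ((1 - u) ^ (-α) + 2 * |Real.log u|)) + 1, by linarith, ?_⟩
  intro b hb0 hb1
  unfold Mh
  rw [intervalIntegral.integral_of_le zero_le_one, intervalIntegral.integral_of_le zero_le_one,
    integral_Ioc_eq_integral_Ioo, integral_Ioc_eq_integral_Ioo,
    ← integral_sub (BM2_intb h0 h1 hg hb0) (BM2_int0 h0 h1 hg)]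
  have hbd : ‖∫ u in Ioo (0 : ℝ) 1, ((u : ℂ) ^ (-1 - (b : ℂ) * I) *
      (((1 - u : ℝ) : ℂ) ^ (((1 - α : ℝ) : ℂ) + (b : ℂ) * I) * g ((1 - u : ℝ) : ℂ) - g 1) -
      (u : ℂ) ^ (-1 - ((0 : ℝ) : ℂ) * I) *
      (((1 - u : ℝ) : ℂ) ^ (((1 - α : ℝ) : ℂ) + ((0 : ℝ) : ℂ) * I) * g ((1 - u : ℝ) : ℂ) - g 1))‖ ≤
      ∫ u in Ioo (0 : ℝ) 1, b * (L * ((1 - u) ^ (-α) + 2 * |Real.log u|)) := by
    refine norm_integral_le_of_norm_le (hG.const_mul b) ?_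
    refine (ae_restrict_iff' measurableSet_Ioo).2 (ae_of_all _ fun u hu => ?_)
    obtain ⟨hu0, hu1⟩ := hu
    set hb' := ((1 - u : ℝ) : ℂ) ^ (((1 - α : ℝ) : ℂ) + (b : ℂ) * I) * g ((1 - u : ℝ) : ℂ) - g 1 with hhb
    set h0' := ((1 - u : ℝ) : ℂ) ^ (((1 - α : ℝ) : ℂ) + ((0 : ℝ) : ℂ) * I) * g ((1 - u : ℝ) : ℂ) - g 1 with hh0
    have a1 : ‖h0'‖ ≤ 2 * L * u := BM2_h0 h0 h1 hg hu0 hu1
    have a2 : ‖hb' - h0'‖ ≤ L * b * ((1 - u) ^ (1 - α) * |Real.log (1 - u)|) :=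
      BM2_hd (α := α) hg hb0 hu0 hu1
    have e : (u : ℂ) ^ (-1 - (b : ℂ) * I) * hb' - (u : ℂ) ^ (-1 - ((0 : ℝ) : ℂ) * I) * h0' =
        (u : ℂ) ^ (-1 - (b : ℂ) * I) * (hb' - h0') +
          ((u : ℂ) ^ (-1 - (b : ℂ) * I) - (u : ℂ) ^ (-1 - ((0 : ℝ) : ℂ) * I)) * h0' := by
      ring
    rw [e]
    refine (norm_add_le _ _).trans ?_
    rw [norm_mul, norm_mul, BM2_norm b hu0]
    have a3 : u⁻¹ * ‖hb' - h0'‖ ≤ L * b * (1 - u) ^ (-α) := by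
      have a4 := mul_le_mul_of_nonneg_left a2 (inv_nonneg.2 hu0.le)
      have a5 := mul_le_mul_of_nonneg_left (BM2_w (α := α) hu0 hu1) (mul_nonneg hL.le hb0.le)
      refine a4.trans (le_trans (le_of_eq ?_) a5)
      ring
    have a6 : ‖(u : ℂ) ^ (-1 - (b : ℂ) * I) - (u : ℂ) ^ (-1 - ((0 : ℝ) : ℂ) * I)‖ * ‖h0'‖ ≤
        (u⁻¹ * (b * |Real.log u|)) * (2 * L * u) := by
      refine mul_le_mul (BM2_diff b hb0 hu0) a1 (norm_nonneg _) ?_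
      exact mul_nonneg (inv_nonneg.2 hu0.le) (mul_nonneg hb0.le (abs_nonneg _))
    have a7 : (u⁻¹ * (b * |Real.log u|)) * (2 * L * u) = 2 * L * b * |Real.log u| := by
      field_simp
    rw [a7] at a6
    have a8 : b * (L * ((1 - u) ^ (-α) + 2 * |Real.log u|)) =
        L * b * (1 - u) ^ (-α) + 2 * L * b * |Real.log u| := by ring
    rw [a8]
    linarith
  rw [integral_const_mul] at hbd
  refine hbd.trans ?_
  nlinarith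

end Pool.Agent.H212.SG
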