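import Pool.Agent.H212.SG.Stm

set_option autoImplicit false

open Complex Set Filter Topology MeasureTheory
open scoped ComplexConjugate

namespace Pool.Agent.H212.SG

open Pool.Agent.H212.SN

lemma BN2_split (b v : ℝ) (hv : 0 < v) (c : ℂ) :
    (v : ℂ) ^ (c - (b : ℂ) * I) = (v : ℂ) ^ c * Complex.exp (I * ((-(b * Real.log v) : ℝ) : ℂ)) := by
  have hvc : (v : ℂ) ≠ 0 := by exact_mod_cast hv.ne'
  rw [Complex.cpow_def_of_ne_zero hvc, Complex.cpow_def_of_ne_zero hvc, ← Complex.exp_add,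
    ← Complex.ofReal_log hv.le]
  congr 1
  push_cast
  ring

lemma BN2_e (b v : ℝ) (hb : 0 ≤ b) :
    ‖Complex.exp (I * ((-(b * Real.log v) : ℝ) : ℂ)) - 1‖ ≤ b * |Real.log v| := by
  refine (Real.norm_exp_I_mul_ofReal_sub_one_le).trans ?_
  rw [norm_neg, Real.norm_eq_abs, abs_mul, abs_of_nonneg hb]

lemma BN2_e1 (b v : ℝ) : ‖Complex.exp (I * ((-(b * Real.log v) : ℝ) : ℂ))‖ = 1 := by
  rw [mul_comm]
  exact Complex.norm_exp_ofReal_mul_I _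

lemma BN2_zero (c : ℂ) : c - ((0 : ℝ) : ℂ) * I = c := by
  rw [Complex.ofReal_zero, zero_mul, sub_zero]

lemma BN2_dif (b v : ℝ) (hb : 0 ≤ b) (hv : 0 < v) (c A : ℂ) :
    ‖(v : ℂ) ^ (c - (b : ℂ) * I) * A - (v : ℂ) ^ (c - ((0 : ℝ) : ℂ) * I) * A‖ ≤
      b * |Real.log v| * ‖(v : ℂ) ^ c * A‖ := by
  rw [BN2_zero, BN2_split b v hv c]
  have e : (v : ℂ) ^ c * Complex.exp (I * ((-(b * Real.log v) : ℝ) : ℂ)) * A - (v : ℂ) ^ c * A =
      (Complex.exp (I * ((-(b * Real.log v) : ℝ) : ℂ)) - 1) * ((v : ℂ) ^ c * A) := by ring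
  rw [e, norm_mul]
  exact mul_le_mul_of_nonneg_right (BN2_e b v hb) (norm_nonneg _)

lemma BN2_nrm (b v : ℝ) (hv : 0 < v) (c A : ℂ) :
    ‖(v : ℂ) ^ (c - (b : ℂ) * I) * A‖ = ‖(v : ℂ) ^ c * A‖ := by
  rw [BN2_split b v hv c, norm_mul, norm_mul, BN2_e1, mul_one, norm_mul]

lemma BN2_A {α κ v : ℝ} (hα : 0 < α) (hκ : 0 < κ) (hv : 0 ≤ v) {ξ : ℂ} (hξ : κ ≤ ξ.re) :
    ‖((v : ℂ) + ξ) ^ (-(α : ℂ))‖ ≤ κ ^ (-α) := by
  have h1 : κ ≤ ‖(v : ℂ) + ξ‖ := by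
    have := Complex.re_le_norm ((v : ℂ) + ξ)
    simp only [Complex.add_re, Complex.ofReal_re] at this
    linarith
  have h0 : (v : ℂ) + ξ ≠ 0 := norm_pos_iff.1 (by linarith)
  rw [Complex.norm_cpow_of_ne_zero h0]
  have hre : (-(α : ℂ)).re = -α := by simp
  have him : (-(α : ℂ)).im = 0 := by simp
  rw [hre, him, mul_zero, Real.exp_zero, div_one]
  exact Real.rpow_le_rpow_of_nonpos hκ h1 (by linarith)

lemma BN2_vn (α v : ℝ) (hv : 0 < v) : ‖(v : ℂ) ^ ((α - 1 : ℝ) : ℂ)‖ = v ^ (α - 1) := by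
  rw [Complex.norm_cpow_eq_rpow_re_of_pos hv, Complex.ofReal_re]

lemma BN2_cont (α b : ℝ) (ξ : ℂ) (hξ : 0 < ξ.re) :
    ContinuousOn (fun v : ℝ => (v : ℂ) ^ (((α - 1 : ℝ) : ℂ) - (b : ℂ) * I) *
      ((v : ℂ) + ξ) ^ (-(α : ℂ))) (Ioi 0) := by
  apply ContinuousOn.mul
  · apply ContinuousOn.cpow_const
    · exact Complex.continuous_ofReal.continuousOn
    · intro v hv
      left
      exact hv
  · apply ContinuousOn.cpow_const
    · exact (Complex.continuous_ofReal.add continuous_const).continuousOn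
    · intro v hv
      left
      have : (0 : ℝ) < v := hv
      simp only [Complex.add_re, Complex.ofReal_re]
      linarith

lemma BN2_i1 {α κ : ℝ} (hα : 0 < α) (hκ : 0 < κ) (b : ℝ) {ξ : ℂ} (hξ : κ ≤ ξ.re) :
    IntervalIntegrable (fun v : ℝ => (v : ℂ) ^ (((α - 1 : ℝ) : ℂ) - (b : ℂ) * I) *
      ((v : ℂ) + ξ) ^ (-(α : ℂ))) volume 0 1 := by
  have hg : IntervalIntegrable (fun v : ℝ => κ ^ (-α) * v ^ (α - 1)) volume 0 1 :=
    (intervalIntegral.intervalIntegrable_rpow' (by linarith)).const_mul _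
  rw [intervalIntegrable_iff_integrableOn_Ioc_of_le zero_le_one] at hg ⊢
  refine hg.mono' (((BN2_cont α b ξ (by linarith)).mono fun v hv => hv.1).aestronglyMeasurable
    measurableSet_Ioc) ?_
  refine (ae_restrict_iff' measurableSet_Ioc).2 (Eventually.of_forall fun v hv => ?_)
  rw [BN2_nrm b v hv.1, norm_mul, BN2_vn α v hv.1, mul_comm]
  exact mul_le_mul_of_nonneg_right (BN2_A hα hκ hv.1.le hξ) (Real.rpow_nonneg hv.1.le _)

/-- the factorisation of the second integrand -/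
lemma BN2_fac (α b v : ℝ) (ξ : ℂ) (hv : 0 < v) (hξ : 0 ≤ ξ.re) :
    (v : ℂ) ^ (((α - 1 : ℝ) : ℂ) - (b : ℂ) * I) * ((v : ℂ) + ξ) ^ (-(α : ℂ)) -
      (v : ℂ) ^ (-1 - (b : ℂ) * I)
      = (v : ℂ) ^ (-1 - (b : ℂ) * I) * ((1 + ξ / v) ^ (-(α : ℂ)) - 1) := by
  have hvc : (v : ℂ) ≠ 0 := by exact_mod_cast hv.ne'
  have h1 : (v : ℂ) + ξ = (v : ℂ) * (1 + ξ / v) := by field_simp
  have hre : 0 < (1 + ξ / (v : ℂ)).re := by
    have : (ξ / (v : ℂ)).re = ξ.re / v := by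
      rw [Complex.div_ofReal_re]
    rw [Complex.add_re, Complex.one_re, this]
    have := div_nonneg hξ hv.le
    linarith
  have hne : (1 + ξ / (v : ℂ)) ≠ 0 := by
    intro h
    rw [h] at hre
    simp at hre
  have h2 : ((v : ℂ) * (1 + ξ / v)) ^ (-(α : ℂ)) = (v : ℂ) ^ (-(α : ℂ)) * (1 + ξ / v) ^ (-(α : ℂ)) := by
    rw [Complex.cpow_def_of_ne_zero (mul_ne_zero hvc hne), Complex.cpow_def_of_ne_zero hvc,
      Complex.cpow_def_of_ne_zero hne, Complex.log_ofReal_mul hv hne, Complex.ofReal_log hv.le,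
      add_mul, Complex.exp_add]
  have h4 : (v : ℂ) ^ (((α - 1 : ℝ) : ℂ) - (b : ℂ) * I) * (v : ℂ) ^ (-(α : ℂ)) =
      (v : ℂ) ^ (-1 - (b : ℂ) * I) := by
    rw [← Complex.cpow_add _ _ hvc]
    congr 1
    push_cast
    ring
  rw [h1, h2, ← mul_assoc, h4]
  ring

lemma BN2_vnorm (v : ℝ) (hv : 0 < v) : ‖(v : ℂ) ^ (-1 : ℂ)‖ = v⁻¹ := by
  rw [Complex.norm_cpow_eq_rpow_re_of_pos hv]
  have : (-1 : ℂ).re = -1 := by simp
  rw [this, Real.rpow_neg_one]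

lemma BN2_h (hK2 : S_K2) {α : ℝ} (hα0 : 0 < α) (hα : α < 1) {ξ : ℂ} (hξ : 0 ≤ ξ.re)
    (hξ2 : ‖ξ‖ ≤ 2) {v : ℝ} (hv : 1 < v) :
    ‖(v : ℂ) ^ (-1 : ℂ) * ((1 + ξ / v) ^ (-(α : ℂ)) - 1)‖ ≤ 2 * v ^ (-2 : ℝ) := by
  have hv0 : 0 < v := by linarith
  have h4 : 0 < v⁻¹ := inv_pos.2 hv0
  have h2 : ‖ξ / (v : ℂ)‖ = ‖ξ‖ * v⁻¹ := by
    rw [norm_div, Complex.norm_real, Real.norm_of_nonneg hv0.le, div_eq_mul_inv]
  have hz : 0 ≤ (ξ / (v : ℂ)).re := by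
    rw [Complex.div_ofReal_re]
    exact div_nonneg hξ hv0.le
  have h3 := (hK2 α (ξ / v) hα0 hα hz).2
  rw [h2] at h3
  rw [norm_mul, BN2_vnorm v hv0]
  have r1 : v ^ (-2 : ℝ) = v⁻¹ * v⁻¹ := by
    rw [Real.rpow_neg hv0.le, Real.rpow_two, sq, mul_inv]
  rw [r1]
  have h5 : ‖ξ‖ * v⁻¹ ≤ 2 * v⁻¹ := mul_le_mul_of_nonneg_right hξ2 h4.le
  calc v⁻¹ * ‖(1 + ξ / (v : ℂ)) ^ (-(α : ℂ)) - 1‖ ≤ v⁻¹ * (2 * v⁻¹) :=
        mul_le_mul_of_nonneg_left (h3.trans h5) h4.le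
    _ = _ := by ring

lemma BN2_i2 (hK2 : S_K2) {α : ℝ} (hα0 : 0 < α) (hα : α < 1) (b : ℝ) {ξ : ℂ} (hξ : 0 < ξ.re)
    (hξ2 : ‖ξ‖ ≤ 2) :
    Integrable (fun v : ℝ => (v : ℂ) ^ (((α - 1 : ℝ) : ℂ) - (b : ℂ) * I) * ((v : ℂ) + ξ) ^ (-(α : ℂ))
      - (v : ℂ) ^ (-1 - (b : ℂ) * I)) (volume.restrict (Ioi 1)) := by
  have hg : Integrable (fun v : ℝ => 2 * v ^ (-2 : ℝ)) (volume.restrict (Ioi 1)) :=
    (integrableOn_Ioi_rpow_of_lt (by norm_num) one_pos).const_mul 2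
  have hc : ContinuousOn (fun v : ℝ => (v : ℂ) ^ (((α - 1 : ℝ) : ℂ) - (b : ℂ) * I) *
      ((v : ℂ) + ξ) ^ (-(α : ℂ)) - (v : ℂ) ^ (-1 - (b : ℂ) * I)) (Ioi 1) := by
    apply ContinuousOn.sub
    · exact (BN2_cont α b ξ hξ).mono fun v hv => (show (0 : ℝ) < v from by
        have : (1 : ℝ) < v := hv
        linarith)
    · apply ContinuousOn.cpow_const
      · exact Complex.continuous_ofReal.continuousOn
      · intro v hv
        left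
        have : (1 : ℝ) < v := hv
        simp only [Complex.ofReal_re]
        linarith
  refine hg.mono' (hc.aestronglyMeasurable measurableSet_Ioi) ?_
  refine (ae_restrict_iff' measurableSet_Ioi).2 (Eventually.of_forall fun v hv => ?_)
  have hv1 : (1 : ℝ) < v := hv
  have hv0 : 0 < v := by linarith
  rw [BN2_fac α b v ξ hv0 hξ.le, BN2_nrm b v hv0]
  exact BN2_h hK2 hα0 hα hξ.le hξ2 hv1

theorem t_BN2 (hK2 : S_K2) : S_BN2 := by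
  intro α κ hα0 hα hκ
  set K1 : ℝ := ∫ v in (0 : ℝ)..1, κ ^ (-α) * (2 / α) * v ^ (α / 2 - 1) with hK1d
  set K2 : ℝ := ∫ v in Ioi (1 : ℝ), 4 * v ^ (-(3 / 2) : ℝ) with hK2d
  have hκα : 0 < κ ^ (-α) := Real.rpow_pos_of_pos hκ _
  have hK10 : 0 ≤ K1 := by
    apply intervalIntegral.integral_nonneg zero_le_one
    intro v hv
    have := Real.rpow_nonneg hv.1 (α / 2 - 1)
    positivity
  have hK20 : 0 ≤ K2 := by
    apply setIntegral_nonneg measurableSet_Ioi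
    intro v hv
    have := Real.rpow_nonneg (show (0 : ℝ) ≤ v by have : (1:ℝ) < v := hv; linarith) (-(3 / 2) : ℝ)
    positivity
  refine ⟨K1 + K2 + 1, by positivity, ?_⟩
  intro b hb hb1 ξ hξ2 hξ
  have hξ0 : 0 < ξ.re := by linarith
  have A : ‖(∫ v in (0 : ℝ)..1, (v : ℂ) ^ (((α - 1 : ℝ) : ℂ) - (b : ℂ) * I) * ((v : ℂ) + ξ) ^ (-(α : ℂ)))
      - ∫ v in (0 : ℝ)..1, (v : ℂ) ^ (((α - 1 : ℝ) : ℂ) - ((0 : ℝ) : ℂ) * I) * ((v : ℂ) + ξ) ^ (-(α : ℂ))‖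
      ≤ b * K1 := by
    rw [← intervalIntegral.integral_sub (BN2_i1 hα0 hκ b hξ) (BN2_i1 hα0 hκ 0 hξ), hK1d,
      ← intervalIntegral.integral_const_mul]
    refine intervalIntegral.norm_integral_le_of_norm_le zero_le_one ?_ ?_
    · refine Eventually.of_forall fun v hv => ?_
      have hv0 : 0 < v := hv.1
      refine (BN2_dif b v hb.le hv0 _ _).trans ?_
      rw [norm_mul, BN2_vn α v hv0, mul_assoc]
      refine mul_le_mul_of_nonneg_left ?_ hb.le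
      have h1 := BN2_A hα0 hκ hv0.le hξ
      have h2 := (Real.abs_log_mul_self_rpow_lt v (α / 2) hv0 hv.2 (by linarith)).le
      rw [abs_mul, abs_of_nonneg (Real.rpow_nonneg hv0.le (α / 2))] at h2
      have h3 : v ^ (α - 1) = v ^ (α / 2) * v ^ (α / 2 - 1) := by
        rw [← Real.rpow_add hv0]
        congr 1
        ring
      have h4 : 0 ≤ v ^ (α / 2 - 1) := Real.rpow_nonneg hv0.le _
      have h5 : (1 : ℝ) / (α / 2) = 2 / α := by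
        field_simp
      rw [h5] at h2
      calc |Real.log v| * (v ^ (α - 1) * ‖((v : ℂ) + ξ) ^ (-(α : ℂ))‖)
          ≤ |Real.log v| * (v ^ (α - 1) * κ ^ (-α)) := by
            refine mul_le_mul_of_nonneg_left ?_ (abs_nonneg _)
            exact mul_le_mul_of_nonneg_left h1 (Real.rpow_nonneg hv0.le _)
        _ = (|Real.log v| * v ^ (α / 2)) * (κ ^ (-α) * v ^ (α / 2 - 1)) := by
            rw [h3]
            ring
        _ ≤ (2 / α) * (κ ^ (-α) * v ^ (α / 2 - 1)) :=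
            mul_le_mul_of_nonneg_right h2 (mul_nonneg hκα.le h4)
        _ = κ ^ (-α) * (2 / α) * v ^ (α / 2 - 1) := by ring
    · exact ((intervalIntegral.intervalIntegrable_rpow' (by linarith)).const_mul _).const_mul _
  have B : ‖(∫ v in Set.Ioi (1 : ℝ), ((v : ℂ) ^ (((α - 1 : ℝ) : ℂ) - (b : ℂ) * I) * ((v : ℂ) + ξ) ^ (-(α : ℂ)) - (v : ℂ) ^ (-1 - (b : ℂ) * I)))
      - ∫ v in Set.Ioi (1 : ℝ), ((v : ℂ) ^ (((α - 1 : ℝ) : ℂ) - ((0 : ℝ) : ℂ) * I) * ((v : ℂ) + ξ) ^ (-(α : ℂ)) - (v : ℂ) ^ (-1 - ((0 : ℝ) : ℂ) * I))‖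
      ≤ b * K2 := by
    rw [← integral_sub (BN2_i2 hK2 hα0 hα b hξ0 hξ2) (BN2_i2 hK2 hα0 hα 0 hξ0 hξ2), hK2d,
      ← integral_const_mul]
    apply norm_integral_le_of_norm_le
    · exact ((integrableOn_Ioi_rpow_of_lt (by norm_num) one_pos).const_mul _).const_mul _
    · refine (ae_restrict_iff' measurableSet_Ioi).2 (Eventually.of_forall fun v hv => ?_)
      have hv1 : (1 : ℝ) < v := hv
      have hv0 : 0 < v := by linarith
      rw [BN2_fac α b v ξ hv0 hξ0.le, BN2_fac α 0 v ξ hv0 hξ0.le]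
      refine (BN2_dif b v hb.le hv0 _ _).trans ?_
      rw [mul_assoc]
      refine mul_le_mul_of_nonneg_left ?_ hb.le
      have h1 := BN2_h hK2 hα0 hα hξ0.le hξ2 hv1
      have hlog : 0 ≤ Real.log v := Real.log_nonneg hv1.le
      have hvl : Real.log v ≤ 2 * v ^ (1 / 2 : ℝ) := by
        have := Real.log_le_rpow_div hv0.le (show (0:ℝ) < 1 / 2 by norm_num)
        linarith
      have r2 : v ^ (1 / 2 : ℝ) * v ^ (-2 : ℝ) = v ^ (-(3 / 2) : ℝ) := by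
        rw [← Real.rpow_add hv0]
        norm_num
      have r4 : 0 < v ^ (-2 : ℝ) := Real.rpow_pos_of_pos hv0 _
      rw [abs_of_nonneg hlog]
      calc Real.log v * ‖(v : ℂ) ^ (-1 : ℂ) * ((1 + ξ / v) ^ (-(α : ℂ)) - 1)‖
          ≤ (2 * v ^ (1 / 2 : ℝ)) * (2 * v ^ (-2 : ℝ)) :=
            mul_le_mul hvl h1 (norm_nonneg _) (by positivity)
        _ = 4 * (v ^ (1 / 2 : ℝ) * v ^ (-2 : ℝ)) := by ring
        _ = 4 * v ^ (-(3 / 2) : ℝ) := by rw [r2]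
  have e : Nh α b ξ - Nh α 0 ξ
      = ((∫ v in (0 : ℝ)..1, (v : ℂ) ^ (((α - 1 : ℝ) : ℂ) - (b : ℂ) * I) * ((v : ℂ) + ξ) ^ (-(α : ℂ)))
      - ∫ v in (0 : ℝ)..1, (v : ℂ) ^ (((α - 1 : ℝ) : ℂ) - ((0 : ℝ) : ℂ) * I) * ((v : ℂ) + ξ) ^ (-(α : ℂ)))
      + ((∫ v in Set.Ioi (1 : ℝ), ((v : ℂ) ^ (((α - 1 : ℝ) : ℂ) - (b : ℂ) * I) * ((v : ℂ) + ξ) ^ (-(α : ℂ)) - (v : ℂ) ^ (-1 - (b : ℂ) * I)))
      - ∫ v in Set.Ioi (1 : ℝ), ((v : ℂ) ^ (((α - 1 : ℝ) : ℂ) - ((0 : ℝ) : ℂ) * I) * ((v : ℂ) + ξ) ^ (-(α : ℂ)) - (v : ℂ) ^ (-1 - ((0 : ℝ) : ℂ) * I))) := by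
    unfold Nh
    ring
  rw [e]
  refine (norm_add_le _ _).trans ?_
  nlinarith

end Pool.Agent.H212.SG
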