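import Pool.Agent.H212.SG.Stm

set_option autoImplicit false

open Complex Set Filter Topology MeasureTheory
open scoped ComplexConjugate

namespace Pool.Agent.H212.SG
open Pool.Agent.H212.SN

theorem CORE2_re {ξ0 ξ : ℂ} {ρ : ℝ} (h : ‖ξ - ξ0‖ ≤ ρ) : ξ0.re - ρ ≤ ξ.re := by
  have h1 := (Complex.abs_re_le_norm (ξ - ξ0)).trans h
  rw [Complex.sub_re, abs_le] at h1
  linarith [h1.1]

theorem CORE2_circle (ξ0 : ℂ) (ρ : ℝ) (hρ : 0 < ρ) (h : ρ < ξ0.re) :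
    ∃ δ : ℝ, 0 < δ ∧ ∀ ξ : ℂ, ‖ξ - ξ0‖ = ρ → δ ≤ ‖Complex.log ξ - Complex.log ξ0‖ := by
  have hsub : ∀ ξ ∈ Metric.sphere ξ0 ρ, 0 < ξ.re := by
    intro ξ hξ
    rw [mem_sphere_iff_norm] at hξ
    have := CORE2_re hξ.le
    linarith
  have hcont : ContinuousOn (fun ξ => ‖Complex.log ξ - Complex.log ξ0‖) (Metric.sphere ξ0 ρ) := by
    intro ξ hξ
    have h1 : ξ ∈ Complex.slitPlane := Or.inl (hsub ξ hξ)
    exact ((continuousAt_clog h1).sub continuousAt_const).norm.continuousWithinAt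
  have hnonempty : (Metric.sphere ξ0 ρ).Nonempty := by
    refine ⟨ξ0 + (ρ : ℂ), ?_⟩
    rw [mem_sphere_iff_norm, add_sub_cancel_left, Complex.norm_real, Real.norm_eq_abs,
      abs_of_pos hρ]
  obtain ⟨ξ₁, hξ₁, hmin⟩ := (isCompact_sphere ξ0 ρ).exists_isMinOn hnonempty hcont
  refine ⟨‖Complex.log ξ₁ - Complex.log ξ0‖, ?_, ?_⟩
  · rw [norm_pos_iff, sub_ne_zero]
    intro heq
    have h1 : ξ₁ ≠ 0 := by
      intro h0
      have := hsub ξ₁ hξ₁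
      rw [h0, Complex.zero_re] at this
      exact lt_irrefl _ this
    have h2 : ξ0 ≠ 0 := by
      intro h0
      rw [h0, Complex.zero_re] at h
      linarith
    have h3 : ξ₁ = ξ0 := by
      rw [← Complex.exp_log h1, ← Complex.exp_log h2, heq]
    rw [mem_sphere_iff_norm, h3, sub_self, norm_zero] at hξ₁
    linarith
  · intro ξ hξ
    exact hmin (mem_sphere_iff_norm.2 hξ)

theorem CORE2_phi (b θ : ℝ) (hb : 0 < b) (hbθ : b * |θ| ≤ 1) (M M0 n : ℂ) (C : ℝ)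
    (hM : ‖M - M0‖ ≤ C * b) (hn : (θ : ℂ) = n + M0) :
    ‖(exp ((b * θ : ℝ) * I) * (1 - (b : ℂ) * I * M) - 1) / ((b : ℂ) * I) - n‖ ≤
      (θ ^ 2 + C + 2 * |θ| * ‖M0‖) * b := by
  have hbI : (b : ℂ) * I ≠ 0 := mul_ne_zero (Complex.ofReal_ne_zero.2 hb.ne') I_ne_zero
  have hx : ‖((b * θ : ℝ) : ℂ) * I‖ = b * |θ| := by
    rw [norm_mul, Complex.norm_I, mul_one, Complex.norm_real, Real.norm_eq_abs, abs_mul,
      abs_of_pos hb]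
  have e1 : ‖exp (((b * θ : ℝ) : ℂ) * I) - 1 - ((b * θ : ℝ) : ℂ) * I‖ ≤ (b * |θ|) ^ 2 := by
    have h := Complex.norm_exp_sub_one_sub_id_le (x := ((b * θ : ℝ) : ℂ) * I) (by rw [hx]; exact hbθ)
    rw [hx] at h
    exact h
  have e2 : ‖exp (((b * θ : ℝ) : ℂ) * I) - 1‖ ≤ 2 * (b * |θ|) := by
    have h := Complex.norm_exp_sub_one_le (x := ((b * θ : ℝ) : ℂ) * I) (by rw [hx]; exact hbθ)
    rw [hx] at h
    exact h
  have hE : ‖exp (((b * θ : ℝ) : ℂ) * I)‖ = 1 := Complex.norm_exp_ofReal_mul_I _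
  have e3 : (exp (((b * θ : ℝ) : ℂ) * I) * (1 - (b : ℂ) * I * M) - 1) / ((b : ℂ) * I) - n =
      (exp (((b * θ : ℝ) : ℂ) * I) - 1 - ((b * θ : ℝ) : ℂ) * I) / ((b : ℂ) * I) -
        exp (((b * θ : ℝ) : ℂ) * I) * (M - M0) - (exp (((b * θ : ℝ) : ℂ) * I) - 1) * M0 := by
    have hn' : n = (θ : ℂ) - M0 := by rw [hn]; ring
    rw [hn']
    have hb' : (b : ℂ) ≠ 0 := Complex.ofReal_ne_zero.2 hb.ne'
    have hI : I ≠ 0 := I_ne_zero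
    push_cast
    field_simp
    ring
  rw [e3]
  have n1 : ‖(exp (((b * θ : ℝ) : ℂ) * I) - 1 - ((b * θ : ℝ) : ℂ) * I) / ((b : ℂ) * I)‖ ≤
      θ ^ 2 * b := by
    rw [norm_div, norm_mul, Complex.norm_I, mul_one, Complex.norm_real, Real.norm_eq_abs,
      abs_of_pos hb, div_le_iff₀ hb]
    refine e1.trans (le_of_eq ?_)
    rw [mul_pow, sq_abs]
    ring
  have n2 : ‖exp (((b * θ : ℝ) : ℂ) * I) * (M - M0)‖ ≤ C * b := by
    rw [norm_mul, hE, one_mul]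
    exact hM
  have n3 : ‖(exp (((b * θ : ℝ) : ℂ) * I) - 1) * M0‖ ≤ 2 * |θ| * ‖M0‖ * b := by
    rw [norm_mul]
    calc ‖exp (((b * θ : ℝ) : ℂ) * I) - 1‖ * ‖M0‖ ≤ 2 * (b * |θ|) * ‖M0‖ :=
        mul_le_mul_of_nonneg_right e2 (norm_nonneg _)
      _ = 2 * |θ| * ‖M0‖ * b := by ring
  calc _ ≤ ‖(exp (((b * θ : ℝ) : ℂ) * I) - 1 - ((b * θ : ℝ) : ℂ) * I) / ((b : ℂ) * I) -
        exp (((b * θ : ℝ) : ℂ) * I) * (M - M0)‖ + ‖(exp (((b * θ : ℝ) : ℂ) * I) - 1) * M0‖ :=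
        norm_sub_le _ _
    _ ≤ (‖(exp (((b * θ : ℝ) : ℂ) * I) - 1 - ((b * θ : ℝ) : ℂ) * I) / ((b : ℂ) * I)‖ +
        ‖exp (((b * θ : ℝ) : ℂ) * I) * (M - M0)‖) + ‖(exp (((b * θ : ℝ) : ℂ) * I) - 1) * M0‖ :=
        add_le_add (norm_sub_le _ _) le_rfl
    _ ≤ (θ ^ 2 * b + C * b) + 2 * |θ| * ‖M0‖ * b := add_le_add (add_le_add n1 n2) n3
    _ = _ := by ring

/-- the times -/
theorem CORE2_time (b θ t1 : ℝ) (hb : 0 < b) (ht1 : 0 < t1) : ∃ t : ℝ, 0 < t ∧ t < t1 ∧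
    (t : ℂ) ^ (-((b : ℂ) * I)) = exp (-(((b * θ : ℝ) : ℂ) * I)) := by
  obtain ⟨k, hk⟩ := exists_nat_gt ((θ - Real.log t1) * b / (2 * Real.pi))
  have hπ : 0 < 2 * Real.pi := by positivity
  refine ⟨Real.exp (θ - 2 * Real.pi * k / b), Real.exp_pos _, ?_, ?_⟩
  · rw [← Real.lt_log_iff_exp_lt ht1]
    rw [div_lt_iff₀ hπ] at hk
    have h2 : θ - Real.log t1 < 2 * Real.pi * k / b := by
      rw [lt_div_iff₀ hb]
      linarith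
    linarith
  · have hne : ((Real.exp (θ - 2 * Real.pi * k / b) : ℝ) : ℂ) ≠ 0 :=
      Complex.ofReal_ne_zero.2 (Real.exp_pos _).ne'
    rw [Complex.cpow_def_of_ne_zero hne, ← Complex.ofReal_log (Real.exp_pos _).le, Real.log_exp]
    have hb' : (b : ℂ) ≠ 0 := Complex.ofReal_ne_zero.2 hb.ne'
    have e : ((θ - 2 * Real.pi * k / b : ℝ) : ℂ) * -((b : ℂ) * I) =
        -(((b * θ : ℝ) : ℂ) * I) + (k : ℤ) * (2 * Real.pi * I) := by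
      push_cast
      field_simp
      ring
    rw [e]
    exact (Complex.exp_periodic.int_mul (k : ℤ)) _

theorem CORE2_alg (E M c : ℂ) (hc : c ≠ 0) :
    (E * (1 - c * M) - 1) / c = E * (1 / c - M) - 1 / c := by
  field_simp

theorem t_CORE2 (hLTA2 : S_LTA2) (hLTB2 : S_LTB2) (hBM2 : S_BM2) (hBN2 : S_BN2) (hNI : S_NI)
    (hAL : S_AL) (hMM : S_MM) : S_CORE2 := by
  intro α g r0 L h0 h1 hgood hg1 him ε hε
  obtain ⟨hr0, hr0', hL, -⟩ := id hgood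
  obtain ⟨M0, hM0⟩ : ∃ M0 : ℂ, M0 = Mh α 0 g / g 1 := ⟨_, rfl⟩
  rw [← hM0] at him
  obtain ⟨y, hy⟩ : ∃ y : ℝ, y = M0.im := ⟨_, rfl⟩
  rw [← hy, abs_lt] at him
  obtain ⟨ξ0, hξ0⟩ : ∃ ξ0 : ℂ, ξ0 = exp ((y : ℂ) * I) := ⟨_, rfl⟩
  have hre : ξ0.re = Real.cos y := by
    rw [hξ0, Complex.exp_ofReal_mul_I_re]
  have hno : ‖ξ0‖ = 1 := by
    rw [hξ0, Complex.norm_exp_ofReal_mul_I]
  have hcos : 0 < Real.cos y := Real.cos_pos_of_mem_Ioo ⟨him.1, him.2⟩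
  have hcos1 : Real.cos y ≤ 1 := Real.cos_le_one y
  have hlog : Complex.log ξ0 = (y : ℂ) * I := by
    rw [hξ0, Complex.log_exp]
    · rw [Complex.im_ofReal_mul, Complex.I_im, mul_one]
      linarith [him.1, Real.pi_pos]
    · rw [Complex.im_ofReal_mul, Complex.I_im, mul_one]
      linarith [him.2, Real.pi_pos]
  obtain ⟨ρ, hρe⟩ : ∃ ρ : ℝ, ρ = Real.cos y / 2 := ⟨_, rfl⟩
  have hρ : 0 < ρ := by rw [hρe]; positivity
  have hρ2 : ρ ≤ 1 / 2 := by rw [hρe]; linarith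
  obtain ⟨δ, hδ, hcirc⟩ := CORE2_circle ξ0 ρ hρ (by rw [hre, hρe]; linarith)
  have hball : ∀ ξ : ℂ, ‖ξ - ξ0‖ ≤ ρ → ‖ξ‖ ≤ 2 ∧ ρ ≤ ξ.re := by
    intro ξ hξ
    constructor
    · have e : ξ = (ξ - ξ0) + ξ0 := by ring
      calc ‖ξ‖ = ‖(ξ - ξ0) + ξ0‖ := by rw [← e]
        _ ≤ ‖ξ - ξ0‖ + ‖ξ0‖ := norm_add_le _ _
        _ ≤ 2 := by
          rw [hno]
          linarith
    · have := CORE2_re hξ
      rw [hre] at this
      rw [hρe] at this ⊢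
      linarith
  obtain ⟨C₁, hC₁, hBM'⟩ := hBM2 α g r0 L h0 h1 hgood
  obtain ⟨C₂, hC₂, hBN'⟩ := hBN2 α ρ h0 h1 hρ
  obtain ⟨hN1, hNI'⟩ := hNI α h0 h1
  have hgn : 0 < ‖g 1‖ := norm_pos_iff.2 hg1
  obtain ⟨n1, hn1⟩ : ∃ n1 : ℂ, n1 = Nh α 0 1 - (y : ℂ) * I := ⟨_, rfl⟩
  have hNξ : ∀ ξ : ℂ, ‖ξ - ξ0‖ ≤ ρ → Nh α 0 ξ - n1 = -(Complex.log ξ - Complex.log ξ0) := by
    intro ξ hξ
    rw [hNI' ξ (lt_of_lt_of_le hρ (hball ξ hξ).2), hn1, hlog]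
    ring
  obtain ⟨θ, hθ⟩ : ∃ θ : ℝ, (θ : ℂ) = n1 + M0 := by
    refine ⟨(n1 + M0).re, ?_⟩
    apply Complex.ext
    · rw [Complex.ofReal_re]
    · rw [Complex.ofReal_im, Complex.add_im, hn1, Complex.sub_im, hN1, Complex.im_ofReal_mul,
        Complex.I_im, mul_one, ← hy]
      ring
  obtain ⟨C₃, hC₃⟩ : ∃ C₃ : ℝ, C₃ = C₁ / ‖g 1‖ := ⟨_, rfl⟩
  have hC₃0 : 0 < C₃ := by rw [hC₃]; positivity
  have hBM3 : ∀ b : ℝ, 0 < b → b ≤ 1 → ‖Mh α b g / g 1 - M0‖ ≤ C₃ * b := by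
    intro b hb hb1
    rw [hM0, ← sub_div, norm_div, hC₃, div_le_iff₀ hgn]
    refine (hBM' b hb hb1).trans (le_of_eq ?_)
    field_simp
  obtain ⟨K, hK⟩ : ∃ K : ℝ, K = C₂ + (θ ^ 2 + C₃ + 2 * |θ| * ‖M0‖) := ⟨_, rfl⟩
  have hKpos : 0 < K := by
    rw [hK]
    positivity
  obtain ⟨b, hb0, hbε, hb1, hbθ, hbK⟩ : ∃ b : ℝ, 0 < b ∧ b < ε ∧ b ≤ 1 ∧ b * |θ| ≤ 1 ∧
      K * b ≤ δ / 8 := by
    refine ⟨min (min (ε / 2) 1) (min (1 / (|θ| + 1)) (δ / (8 * K))), ?_, ?_, ?_, ?_, ?_⟩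
    · exact lt_min (lt_min (by linarith) one_pos) (lt_min (by positivity) (by positivity))
    · exact lt_of_le_of_lt ((min_le_left _ _).trans (min_le_left _ _)) (by linarith)
    · exact (min_le_left _ _).trans (min_le_right _ _)
    · have h : min (min (ε / 2) 1) (min (1 / (|θ| + 1)) (δ / (8 * K))) ≤ 1 / (|θ| + 1) :=
        (min_le_right _ _).trans (min_le_left _ _)
      calc _ ≤ 1 / (|θ| + 1) * |θ| := mul_le_mul_of_nonneg_right h (abs_nonneg _)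
        _ ≤ 1 := by
          rw [one_div, inv_mul_le_iff₀ (by positivity)]
          linarith
    · have h : min (min (ε / 2) 1) (min (1 / (|θ| + 1)) (δ / (8 * K))) ≤ δ / (8 * K) :=
        (min_le_right _ _).trans (min_le_right _ _)
      calc _ ≤ K * (δ / (8 * K)) := mul_le_mul_of_nonneg_left h hKpos.le
        _ = δ / 8 := by field_simp
  obtain ⟨M, hMd⟩ : ∃ M : ℂ, M = Mh α b g / g 1 := ⟨_, rfl⟩
  obtain ⟨φ, hφ⟩ : ∃ φ : ℂ, φ = (exp ((b * θ : ℝ) * I) * (1 - (b : ℂ) * I * M) - 1) /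
      ((b : ℂ) * I) := ⟨_, rfl⟩
  have hφ1 : ‖φ - n1‖ ≤ (θ ^ 2 + C₃ + 2 * |θ| * ‖M0‖) * b := by
    rw [hφ]
    exact CORE2_phi b θ hb0 hbθ M M0 n1 C₃ (by rw [hMd]; exact hBM3 b hb0 hb1) hθ
  have hG : ∀ ξ : ℂ, ‖ξ - ξ0‖ ≤ ρ → ‖(Nh α b ξ - φ) - (Nh α 0 ξ - n1)‖ ≤ δ / 8 := by
    intro ξ hξ
    have e : (Nh α b ξ - φ) - (Nh α 0 ξ - n1) = (Nh α b ξ - Nh α 0 ξ) - (φ - n1) := by ring
    rw [e]
    refine (norm_sub_le _ _).trans (le_trans (add_le_add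
      (hBN' b hb0 hb1 ξ (hball ξ hξ).1 (hball ξ hξ).2) hφ1) ?_)
    refine le_trans (le_of_eq ?_) hbK
    rw [hK]
    ring
  obtain ⟨t0, ht0, hLT'⟩ := hLTA2 α b g r0 L ρ h0 h1 hb0 hb1 hgood hρ (‖g 1‖ * (δ / 16))
    (by positivity)
  obtain ⟨t, ht, htt, htc⟩ := CORE2_time b θ (min (min t0 (ε / 4)) (min (min (δ / 32) (r0 / 4)) 1))
    hb0 (lt_min (lt_min ht0 (by linarith)) (lt_min (lt_min (by linarith) (by linarith)) one_pos))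
  have htt0 : t < t0 := lt_of_lt_of_le htt ((min_le_left _ _).trans (min_le_left _ _))
  have htε : t < ε / 4 := lt_of_lt_of_le htt ((min_le_left _ _).trans (min_le_right _ _))
  have htδ : t < δ / 32 := lt_of_lt_of_le htt
    ((min_le_right _ _).trans ((min_le_left _ _).trans (min_le_left _ _)))
  have htr : t < r0 / 4 := lt_of_lt_of_le htt
    ((min_le_right _ _).trans ((min_le_left _ _).trans (min_le_right _ _)))
  have ht1 : t < 1 := lt_of_lt_of_le htt ((min_le_right _ _).trans (min_le_right _ _))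
  have hbI : (b : ℂ) * I ≠ 0 := mul_ne_zero (Complex.ofReal_ne_zero.2 hb0.ne') I_ne_zero
  have hid : ∀ ξ : ℂ, -1 / ((b : ℂ) * I) + M +
      (t : ℂ) ^ (-((b : ℂ) * I)) * (1 / ((b : ℂ) * I) + Nh α b ξ) =
      exp (-(((b * θ : ℝ) : ℂ) * I)) * (Nh α b ξ - φ) := by
    intro ξ
    have hee : exp (-(((b * θ : ℝ) : ℂ) * I)) * exp (((b * θ : ℝ) : ℂ) * I) = 1 := by
      rw [← Complex.exp_add, neg_add_cancel, Complex.exp_zero]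
    rw [htc, hφ]
    rw [CORE2_alg _ _ _ hbI]
    have hd2 : -1 / ((b : ℂ) * I) = -(1 / ((b : ℂ) * I)) := by
      rw [neg_div]
    rw [hd2]
    linear_combination (1 / ((b : ℂ) * I) - M) * hee
  have hnE : ∀ w : ℂ, ‖exp (-(((b * θ : ℝ) : ℂ) * I)) * w‖ = ‖w‖ := by
    intro w
    have e : -(((b * θ : ℝ) : ℂ) * I) = ((-(b * θ) : ℝ) : ℂ) * I := by
      push_cast
      ring
    rw [norm_mul, e, Complex.norm_exp_ofReal_mul_I, one_mul]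
  obtain ⟨P, hPd⟩ : ∃ P : ℂ → ℂ, P = fun ξ => La α b g ((t : ℂ) * ξ) / g 1 := ⟨_, rfl⟩
  have hP : ∀ ξ : ℂ, ‖ξ - ξ0‖ ≤ ρ →
      ‖P ξ - exp (-(((b * θ : ℝ) : ℂ) * I)) * (Nh α b ξ - φ)‖ ≤ δ / 8 := by
    intro ξ hξ
    obtain ⟨hb2, hbr⟩ := hball ξ hξ
    have q1 := hLT' t ht htt0 ξ hb2 hbr
    have q2 := hLTB2 α b t ξ h0 h1 hb0 hb1 ht ht1 hb2 (lt_of_lt_of_le hρ hbr)
    rw [← hid ξ]
    have hPξ : P ξ = La α b g ((t : ℂ) * ξ) / g 1 := by rw [hPd]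
    rw [hPξ]
    generalize (∫ u in (0 : ℝ)..1, (u : ℂ) ^ (((α - 1 : ℝ) : ℂ) - (b : ℂ) * I) *
      ((u : ℂ) + (t : ℂ) * ξ) ^ (-(α : ℂ))) = J at q1 q2
    generalize La α b g ((t : ℂ) * ξ) = Z at q1 ⊢
    generalize (t : ℂ) ^ (-((b : ℂ) * I)) * (1 / ((b : ℂ) * I) + Nh α b ξ) = W at q2 ⊢
    have e : Z / g 1 - (-1 / ((b : ℂ) * I) + M + W) =
        (Z - g 1 * J - Mh α b g) / g 1 + (J - (-1 / ((b : ℂ) * I) + W)) := by
      rw [hMd]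
      field_simp
      ring
    rw [e]
    have q3 : ‖(Z - g 1 * J - Mh α b g) / g 1‖ ≤ δ / 16 := by
      rw [norm_div, div_le_iff₀ hgn]
      linarith
    calc _ ≤ ‖(Z - g 1 * J - Mh α b g) / g 1‖ + ‖J - (-1 / ((b : ℂ) * I) + W)‖ :=
          norm_add_le _ _
      _ ≤ δ / 16 + 2 * t := add_le_add q3 q2
      _ ≤ δ / 8 := by linarith
  have hdiff : DifferentiableOn ℂ P (Metric.closedBall ξ0 ρ) := by
    rw [hPd]
    refine DifferentiableOn.div_const ?_ _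
    refine (hAL α b g r0 L h0 h1 hb0 hb1 hgood).comp
      ((differentiable_id.const_mul (t : ℂ)).differentiableOn) ?_
    intro ξ hξ
    rw [mem_closedBall_iff_norm] at hξ
    obtain ⟨hb2, hbr⟩ := hball ξ hξ
    refine ⟨?_, ?_⟩
    · show 0 < ((t : ℂ) * ξ).re
      rw [Complex.re_ofReal_mul]
      exact mul_pos ht (by linarith)
    · show ‖(t : ℂ) * ξ‖ < r0
      rw [norm_mul, Complex.norm_real, Real.norm_eq_abs, abs_of_pos ht]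
      nlinarith
  have hself : ‖ξ0 - ξ0‖ ≤ ρ := by
    rw [sub_self, norm_zero]
    exact hρ.le
  obtain ⟨ξ, hξ, hz⟩ := hMM P ξ0 ρ (3 * δ / 4) hρ hdiff (by
    intro ξ hξ
    have q1 := hP ξ hξ.le
    have q2 := hG ξ hξ.le
    have q3 := hcirc ξ hξ
    have q3' : δ ≤ ‖Nh α 0 ξ - n1‖ := by
      rw [hNξ ξ hξ.le, norm_neg]
      exact q3
    have q4 : ‖Nh α 0 ξ - n1‖ ≤ ‖Nh α b ξ - φ‖ + ‖(Nh α b ξ - φ) - (Nh α 0 ξ - n1)‖ := by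
      have e : Nh α 0 ξ - n1 = (Nh α b ξ - φ) - ((Nh α b ξ - φ) - (Nh α 0 ξ - n1)) := by ring
      calc ‖Nh α 0 ξ - n1‖ = ‖(Nh α b ξ - φ) - ((Nh α b ξ - φ) - (Nh α 0 ξ - n1))‖ := by
            rw [← e]
        _ ≤ _ := norm_sub_le _ _
    have q5 : ‖exp (-(((b * θ : ℝ) : ℂ) * I)) * (Nh α b ξ - φ)‖ ≤ ‖P ξ‖ +
        ‖P ξ - exp (-(((b * θ : ℝ) : ℂ) * I)) * (Nh α b ξ - φ)‖ := by
      have e : exp (-(((b * θ : ℝ) : ℂ) * I)) * (Nh α b ξ - φ) = P ξ -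
          (P ξ - exp (-(((b * θ : ℝ) : ℂ) * I)) * (Nh α b ξ - φ)) := by ring
      calc ‖exp (-(((b * θ : ℝ) : ℂ) * I)) * (Nh α b ξ - φ)‖ = ‖P ξ -
          (P ξ - exp (-(((b * θ : ℝ) : ℂ) * I)) * (Nh α b ξ - φ))‖ := by
            rw [← e]
        _ ≤ _ := norm_sub_le _ _
    rw [hnE] at q5
    linarith) (by
    have q1 := hP ξ0 hself
    have q2 := hG ξ0 hself
    rw [hNξ ξ0 hself, sub_self, neg_zero, sub_zero] at q2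
    have q5 : ‖P ξ0‖ ≤
        ‖P ξ0 - exp (-(((b * θ : ℝ) : ℂ) * I)) * (Nh α b ξ0 - φ)‖ +
        ‖exp (-(((b * θ : ℝ) : ℂ) * I)) * (Nh α b ξ0 - φ)‖ := by
      have e : P ξ0 = (P ξ0 -
          exp (-(((b * θ : ℝ) : ℂ) * I)) * (Nh α b ξ0 - φ)) +
          exp (-(((b * θ : ℝ) : ℂ) * I)) * (Nh α b ξ0 - φ) := by ring
      calc ‖P ξ0‖ = ‖(P ξ0 -
          exp (-(((b * θ : ℝ) : ℂ) * I)) * (Nh α b ξ0 - φ)) +
          exp (-(((b * θ : ℝ) : ℂ) * I)) * (Nh α b ξ0 - φ)‖ := by rw [← e]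
        _ ≤ _ := norm_add_le _ _
    rw [hnE] at q5
    linarith)
  rw [mem_ball_iff_norm] at hξ
  obtain ⟨hb2, hbr⟩ := hball ξ hξ.le
  have hz' : La α b g ((t : ℂ) * ξ) = 0 := by
    have h2 : La α b g ((t : ℂ) * ξ) / g 1 = 0 := by
      rw [hPd] at hz
      exact hz
    exact (div_eq_zero_iff.1 h2).resolve_right hg1
  refine ⟨b, (t : ℂ) * ξ, hb0, hbε, hb1, ?_, ?_, hz'⟩
  · rw [Complex.re_ofReal_mul]
    exact mul_pos ht (by linarith)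
  · rw [norm_mul, Complex.norm_real, Real.norm_eq_abs, abs_of_pos ht]
    nlinarith

end Pool.Agent.H212.SG
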