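import Mathlib
import Pool.Agent.H212.SG.Stm

/-! Final assembly (SG, FIN2). -/

set_option autoImplicit false

open Complex Set Filter Topology MeasureTheory
open scoped ComplexConjugate

namespace Pool.Agent.H212.SG
open Pool.Agent.H212.SN

theorem FIN2_mul_cpow {a b p : ℂ} (ha : 0 < a.re) (hb : 0 < b.re) :
    (a * b) ^ p = a ^ p * b ^ p := by
  have ha0 : a ≠ 0 := by
    rintro rfl
    simp at ha
  have hb0 : b ≠ 0 := by
    rintro rfl
    simp at hb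
  have h1 := Complex.abs_arg_lt_pi_div_two_iff.2 (Or.inl ha : 0 < a.re ∨ a = 0)
  have h2 := Complex.abs_arg_lt_pi_div_two_iff.2 (Or.inl hb : 0 < b.re ∨ b = 0)
  rw [abs_lt] at h1 h2
  have h3 : Complex.log (a * b) = Complex.log a + Complex.log b := by
    apply Complex.log_mul ha0 hb0
    constructor
    · linarith [h1.1, h2.1]
    · linarith [h1.2, h2.2]
  rw [Complex.cpow_def_of_ne_zero (mul_ne_zero ha0 hb0), Complex.cpow_def_of_ne_zero ha0,
    Complex.cpow_def_of_ne_zero hb0, h3, add_mul, Complex.exp_add]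

theorem FIN2_conj {x : ℂ} (hx : ‖x‖ = 1) : x * conj x = 1 := by
  rw [Complex.mul_conj, Complex.normSq_eq_norm_sq, hx]
  simp

theorem FIN2_diff (n : ℕ) (α : Fin n → ℝ) (x : Fin n → ℂ) (hx : ∀ j, ‖x j‖ = 1) :
    DifferentiableOn ℂ (fun w : ℂ => ∏ j, (1 - x j * w) ^ (-(α j : ℂ))) (Metric.ball 0 1) := by
  intro w hw
  apply DifferentiableAt.differentiableWithinAt
  refine DifferentiableAt.fun_finsetProd fun j _ => ?_
  refine DifferentiableAt.cpow (by fun_prop) (by fun_prop) ?_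
  rw [Complex.mem_slitPlane_iff]
  left
  have h1 : ‖x j * w‖ < 1 := by
    rw [norm_mul, hx, one_mul]
    exact mem_ball_zero_iff.1 hw
  have h2 := Complex.re_le_norm (x j * w)
  rw [Complex.sub_re, Complex.one_re]
  linarith

theorem t_FIN2 (hGOOD : S_GOOD) (hIMR : S_IMR) (hCORE2 : S_CORE2) (hHAD2 : S_HAD2)
    (hUNIV : S_UNIV) : S_FIN2 := by
  intro n α x j0 hα hsum hx hinj hj0
  classical
  obtain ⟨A, hA⟩ : ∃ A : Finset (Fin n), A = Finset.univ.erase j0 := ⟨_, rfl⟩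
  obtain ⟨y, hy⟩ : ∃ y : Fin n → ℂ, y = fun j => x j * conj (x j0) := ⟨_, rfl⟩
  have hAs : ∑ j ∈ A, α j = 2 - α j0 := by
    have h := Finset.add_sum_erase Finset.univ α (Finset.mem_univ j0)
    rw [hA]
    linarith
  have hAne : A.Nonempty := by
    rw [Finset.nonempty_iff_ne_empty]
    intro h
    rw [h, Finset.sum_empty] at hAs
    linarith
  have hyn : ∀ j ∈ A, ‖y j‖ = 1 := fun j _ => by
    rw [hy]
    show ‖x j * conj (x j0)‖ = 1
    rw [norm_mul, hx, RCLike.norm_conj, hx, one_mul]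
  have hy1 : ∀ j ∈ A, y j ≠ 1 := fun j hj h => by
    rw [hy] at h
    have h1 : x j * conj (x j0) = 1 := h
    have h2 : x j = x j0 := by
      calc x j = x j * (x j0 * conj (x j0)) := by rw [FIN2_conj (hx j0), mul_one]
        _ = (x j * conj (x j0)) * x j0 := by ring
        _ = x j0 := by rw [h1, one_mul]
    rw [hA] at hj
    exact Finset.ne_of_mem_erase hj (hinj h2)
  have hpos : 0 < α j0 := hα j0
  obtain ⟨hg1, r0, L, hG⟩ := hGOOD n A α y (fun j _ => hα j) hyn hy1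
  have him := hIMR n A α y (α j0) hpos hj0 hAne (fun j _ => hα j) hyn hy1 hAs
  have h2 : 0 < 1 - α j0 ^ 2 := by nlinarith
  have hsq : 0 < Real.sqrt (1 - α j0 ^ 2) := Real.sqrt_pos.2 h2
  obtain ⟨b, η, hb0, hb1, hb2, hη0, hη2, hLa⟩ :=
    hCORE2 (α j0) (gp n A α y) r0 L hpos hj0 hG hg1 him (Real.sqrt (1 - α j0 ^ 2)) hsq
  have hbb : b ^ 2 ≤ 1 - α j0 ^ 2 := by
    calc b ^ 2 ≤ Real.sqrt (1 - α j0 ^ 2) ^ 2 := pow_le_pow_left₀ hb0.le hb1.le 2
      _ = 1 - α j0 ^ 2 := Real.sq_sqrt h2.le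
  obtain ⟨hS, -⟩ := hUNIV (α j0) b (x j0) hpos hj0 hb0 hbb (hx j0)
  obtain ⟨ca, -, hH⟩ := hHAD2 (α j0) b (x j0) hpos hj0 hb0 hbb (hx j0)
  have hre : 1 < (1 + η).re := by
    rw [Complex.add_re, Complex.one_re]
    linarith
  have hne : (1 + η) ≠ 0 := by
    intro h
    rw [h] at hre
    simp at hre
    linarith
  have hn1 : 1 < ‖1 + η‖ := lt_of_lt_of_le hre (Complex.re_le_norm _)
  obtain ⟨z, hz⟩ : ∃ z : ℂ, z = (1 + η)⁻¹ := ⟨_, rfl⟩
  have hz0 : z ≠ 0 := by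
    rw [hz]
    exact inv_ne_zero hne
  have hz1 : ‖z‖ < 1 := by
    rw [hz, norm_inv]
    exact inv_lt_one_of_one_lt₀ hn1
  have hzre : 0 < z.re := by
    rw [hz, Complex.inv_re]
    exact div_pos (by linarith) (Complex.normSq_pos.2 hne)
  obtain ⟨hs, hhad⟩ := hH (fun w : ℂ => ∏ j, (1 - x j * w) ^ (-(α j : ℂ)))
    (FIN2_diff n α x hx) z hz1
  refine ⟨fb (α j0) b (x j0), hS, z, hz0, hz1, hs, ?_⟩
  refine Eq.trans hhad ?_
  have e1 : (∫ v in (0 : ℝ)..1, (v : ℂ) ^ (((1 - α j0 : ℝ) : ℂ) + (b : ℂ) * I) *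
        ((1 - v : ℝ) : ℂ) ^ (((α j0 - 1 : ℝ) : ℂ) - (b : ℂ) * I) *
        (fun w : ℂ => ∏ j, (1 - x j * w) ^ (-(α j : ℂ))) ((v : ℂ) * (conj (x j0) * z))) =
      ∫ v in (0 : ℝ)..1, z ^ (-(α j0 : ℂ)) *
        ((((1 - (1 - v) : ℝ) : ℂ) ^ (((1 - α j0 : ℝ) : ℂ) + (b : ℂ) * I) *
          ((1 - v : ℝ) : ℂ) ^ (((α j0 - 1 : ℝ) : ℂ) - (b : ℂ) * I) *
          (((1 - v : ℝ) : ℂ) + η) ^ (-(α j0 : ℂ)) *
          gp n A α y (((1 - (1 - v) : ℝ) : ℂ) / (1 + η)))) := by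
    apply intervalIntegral.integral_congr
    intro v hv
    rw [Set.uIcc_of_le zero_le_one] at hv
    have h3 : 0 < ((((1 - v : ℝ) : ℂ) + η)).re := by
      rw [Complex.add_re, Complex.ofReal_re]
      linarith [hv.2]
    have h4 : (∏ j, (1 - x j * ((v : ℂ) * (conj (x j0) * z))) ^ (-(α j : ℂ))) =
        z ^ (-(α j0 : ℂ)) * (((1 - v : ℝ) : ℂ) + η) ^ (-(α j0 : ℂ)) *
          gp n A α y ((v : ℂ) / (1 + η)) := by
      have h5 := Finset.mul_prod_erase Finset.univ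
        (fun j => (1 - x j * ((v : ℂ) * (conj (x j0) * z))) ^ (-(α j : ℂ))) (Finset.mem_univ j0)
      rw [← h5, ← hA, ← FIN2_mul_cpow hzre h3]
      have h6 : 1 - x j0 * ((v : ℂ) * (conj (x j0) * z)) = z * (((1 - v : ℝ) : ℂ) + η) := by
        have h7 : x j0 * ((v : ℂ) * (conj (x j0) * z)) = (x j0 * conj (x j0)) * ((v : ℂ) * z) := by
          ring
        rw [h7, FIN2_conj (hx j0), one_mul, hz]
        push_cast
        field_simp
        ring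
      refine congrArg₂ (· * ·) ?_ ?_
      · show (1 - x j0 * ((v : ℂ) * (conj (x j0) * z))) ^ (-(α j0 : ℂ)) = _
        rw [h6]
      · unfold gp
        refine Finset.prod_congr rfl fun j _ => ?_
        have h8 : x j * ((v : ℂ) * (conj (x j0) * z)) = y j * ((v : ℂ) / (1 + η)) := by
          rw [hy, hz, div_eq_mul_inv]
          ring
        rw [h8]
    have h9 : (1 - (1 - v) : ℝ) = v := by ring
    show (v : ℂ) ^ (((1 - α j0 : ℝ) : ℂ) + (b : ℂ) * I) *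
        ((1 - v : ℝ) : ℂ) ^ (((α j0 - 1 : ℝ) : ℂ) - (b : ℂ) * I) *
        (∏ j, (1 - x j * ((v : ℂ) * (conj (x j0) * z))) ^ (-(α j : ℂ))) = _
    rw [h4]
    beta_reduce
    rw [h9]
    ring
  have e2 : (∫ v in (0 : ℝ)..1, ((((1 - (1 - v) : ℝ) : ℂ) ^ (((1 - α j0 : ℝ) : ℂ) + (b : ℂ) * I) *
          ((1 - v : ℝ) : ℂ) ^ (((α j0 - 1 : ℝ) : ℂ) - (b : ℂ) * I) *
          (((1 - v : ℝ) : ℂ) + η) ^ (-(α j0 : ℂ)) *
          gp n A α y (((1 - (1 - v) : ℝ) : ℂ) / (1 + η))))) = La (α j0) b (gp n A α y) η := by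
    have h4 := intervalIntegral.integral_comp_sub_left (a := 0) (b := 1)
      (fun u : ℝ => ((1 - u : ℝ) : ℂ) ^ (((1 - α j0 : ℝ) : ℂ) + (b : ℂ) * I) *
        (u : ℂ) ^ (((α j0 - 1 : ℝ) : ℂ) - (b : ℂ) * I) *
        ((u : ℂ) + η) ^ (-(α j0 : ℂ)) * gp n A α y (((1 - u : ℝ) : ℂ) / (1 + η))) 1
    rw [sub_self, sub_zero] at h4
    exact h4
  rw [e1, intervalIntegral.integral_const_mul, e2, hLa, mul_zero, mul_zero]

end Pool.Agent.H212.SG
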