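import Pool.Agent.H212.SG.Stm

open Complex Set Filter Topology MeasureTheory
open scoped ComplexConjugate

namespace Pool.Agent.H212.SG
open Pool.Agent.H212.SN

theorem GOOD_seg {s : ℝ} (h0 : 0 ≤ s) (h1 : s ≤ 1) : (s : ℂ) ∈ segment ℝ (0 : ℂ) 1 := by
  refine ⟨1 - s, s, by linarith, h0, by ring, ?_⟩
  simp

theorem GOOD_abs (g : ℂ → ℂ) (U : Set ℂ) (hU : IsOpen U) (hS : segment ℝ (0 : ℂ) 1 ⊆ U)
    (hd : DifferentiableOn ℂ g U) : ∃ r0 L : ℝ, Good g r0 L := by
  have hSc : IsCompact (segment ℝ (0 : ℂ) 1) := by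
    rw [segment_eq_image]
    apply isCompact_Icc.image
    fun_prop
  obtain ⟨δ, hδ, hδU⟩ := hSc.exists_cthickening_subset_open hU hS
  obtain ⟨K, hK⟩ : ∃ K : Set ℂ, K = Metric.cthickening δ (segment ℝ (0 : ℂ) 1) := ⟨_, rfl⟩
  rw [← hK] at hδU
  have hKc : IsCompact K := by
    rw [hK]
    exact hSc.cthickening
  have hKconv : Convex ℝ K := by
    rw [hK]
    exact (convex_segment _ _).cthickening δ
  have hdd : DifferentiableOn ℂ (deriv g) U := hd.deriv hU
  obtain ⟨B, hB⟩ := hKc.exists_bound_of_continuousOn (hd.continuousOn.mono hδU)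
  obtain ⟨B', hB'⟩ := hKc.exists_bound_of_continuousOn (hdd.continuousOn.mono hδU)
  have hlip : ∀ z ∈ K, ∀ w ∈ K, ‖g w - g z‖ ≤ B' * ‖w - z‖ := by
    intro z hz w hw
    exact hKconv.norm_image_sub_le_of_norm_deriv_le
      (fun x hx => hd.differentiableAt (hU.mem_nhds (hδU hx))) (fun x hx => hB' x hx) hz hw
  have hSK : ∀ s : ℝ, 0 ≤ s → s ≤ 1 → ∀ w : ℂ, ‖w - s‖ ≤ δ → w ∈ K := by
    intro s h0 h1 w hw
    rw [hK]
    exact Metric.mem_cthickening_of_dist_le w s δ _ (GOOD_seg h0 h1) (by rw [dist_eq_norm]; exact hw)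
  have h1K : (1 : ℂ) ∈ K := by
    have := hSK 1 (by norm_num) le_rfl 1 (by simp [hδ.le])
    exact this
  have hB'0 : 0 ≤ B' := (norm_nonneg _).trans (hB' 1 h1K)
  have hB0 : 0 ≤ B := (norm_nonneg _).trans (hB 1 h1K)
  refine ⟨min (1 / 2) (δ / 2), B + 2 * B' + 1, by positivity, min_le_left _ _, by positivity, ?_⟩
  intro s h0 h1
  have hsK : (s : ℂ) ∈ K := hSK s h0 h1 s (by simp [hδ.le])
  constructor
  · have h2 := hlip 1 h1K s hsK
    have h3 : ‖(s : ℂ) - 1‖ = 1 - s := by
      rw [show (s : ℂ) - 1 = ((s - 1 : ℝ) : ℂ) by push_cast; ring, Complex.norm_real,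
        Real.norm_eq_abs, abs_of_nonpos (by linarith)]
      ring
    rw [h3] at h2
    have h4 : 0 ≤ 1 - s := by linarith
    nlinarith
  · intro η hη
    have hη1 : ‖η‖ < 1 / 2 := lt_of_lt_of_le hη (min_le_left _ _)
    have hη2 : ‖η‖ < δ / 2 := lt_of_lt_of_le hη (min_le_right _ _)
    have hnn := norm_nonneg η
    have h2 : 1 / 2 ≤ ‖1 + η‖ := by
      have h3 : ‖(1 : ℂ)‖ ≤ ‖1 + η‖ + ‖η‖ := by
        calc ‖(1 : ℂ)‖ = ‖(1 + η) - η‖ := by congr 1; ring
          _ ≤ ‖1 + η‖ + ‖η‖ := norm_sub_le _ _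
      rw [norm_one] at h3
      linarith
    have hne : (1 + η) ≠ 0 := by
      intro h
      rw [h, norm_zero] at h2
      norm_num at h2
    have h4 : ‖(s : ℂ) / (1 + η) - s‖ ≤ 2 * ‖η‖ := by
      have h5 : (s : ℂ) / (1 + η) - s = -(s * η) / (1 + η) := by
        field_simp
        ring
      rw [h5, norm_div, norm_neg, norm_mul, Complex.norm_real, Real.norm_eq_abs, abs_of_nonneg h0,
        div_le_iff₀ (by linarith)]
      nlinarith [mul_nonneg h0 hnn, mul_le_mul_of_nonneg_right h1 hnn,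
        mul_le_mul_of_nonneg_left h2 hnn]
    have hwK : (s : ℂ) / (1 + η) ∈ K := hSK s h0 h1 _ (by linarith)
    refine ⟨hd.differentiableAt (hU.mem_nhds (hδU hwK)), ?_, ?_⟩
    · have := hB _ hwK
      linarith
    · have h6 := hlip s hsK _ hwK
      calc _ ≤ B' * ‖(s : ℂ) / (1 + η) - s‖ := h6
        _ ≤ B' * (2 * ‖η‖) := mul_le_mul_of_nonneg_left h4 hB'0
        _ ≤ (B + 2 * B' + 1) * ‖η‖ := by nlinarith [mul_nonneg hB0 hnn]

theorem GOOD_re {y : ℂ} (hy : ‖y‖ = 1) (hy1 : y ≠ 1) : y.re < 1 := by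
  have h1 : y.re ≤ 1 := by
    rw [← hy]
    exact Complex.re_le_norm y
  rcases lt_or_eq_of_le h1 with h | h
  · exact h
  · exfalso
    apply hy1
    have h2 : y.re * y.re + y.im * y.im = 1 := by
      have h3 : Complex.normSq y = 1 := by
        rw [Complex.normSq_eq_norm_sq, hy, one_pow]
      rw [← h3, Complex.normSq_apply]
    rw [h] at h2
    have h4 : y.im = 0 := by nlinarith
    apply Complex.ext
    · rw [h, Complex.one_re]
    · rw [h4, Complex.one_im]

theorem t_GOOD : S_GOOD := by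
  intro n A a y ha hy hy1
  have hre : ∀ j ∈ A, ∀ s : ℝ, 0 ≤ s → s ≤ 1 → 0 < (1 - y j * (s : ℂ)).re := by
    intro j hj s h0 h1
    have h2 := GOOD_re (hy j hj) (hy1 j hj)
    have h3 : (1 - y j * (s : ℂ)).re = 1 - (y j).re * s := by simp
    rw [h3]
    rcases le_or_gt (y j).re 0 with h4 | h4
    · have := mul_nonneg (neg_nonneg.2 h4) h0
      linarith
    · have := mul_le_mul_of_nonneg_left h1 h4.le
      linarith
  constructor
  · unfold gp
    rw [Finset.prod_ne_zero_iff]
    intro j hj h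
    rw [Complex.cpow_eq_zero_iff] at h
    have h2 := hre j hj 1 (by norm_num) le_rfl
    rw [Complex.ofReal_one, h.1, Complex.zero_re] at h2
    exact lt_irrefl _ h2
  · obtain ⟨U, hUd⟩ : ∃ U : Set ℂ, U = {w | ∀ j ∈ A, 0 < (1 - y j * w).re} := ⟨_, rfl⟩
    have hU : IsOpen U := by
      have h1 : U = ⋂ j ∈ A, {w | 0 < (1 - y j * w).re} := by
        rw [hUd]
        ext w
        simp
      rw [h1]
      refine isOpen_biInter_finset fun j _ => ?_
      exact isOpen_lt continuous_const (by fun_prop)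
    have hdiff : ∀ B : Finset (Fin n), ∀ w : ℂ, (∀ j ∈ B, 0 < (1 - y j * w).re) →
        DifferentiableAt ℂ (fun w => ∏ j ∈ B, (1 - y j * w) ^ (-(a j : ℂ))) w := by
      intro B
      classical
      induction B using Finset.induction_on with
      | empty =>
        intro w _
        simp
      | insert j B hj ih =>
        intro w hw
        have h1 : (fun w => ∏ i ∈ insert j B, (1 - y i * w) ^ (-(a i : ℂ))) =
            fun w => (1 - y j * w) ^ (-(a j : ℂ)) * ∏ i ∈ B, (1 - y i * w) ^ (-(a i : ℂ)) := by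
          funext w
          rw [Finset.prod_insert hj]
        rw [h1]
        refine DifferentiableAt.mul ?_ (ih w fun i hi => hw i (Finset.mem_insert_of_mem hi))
        refine DifferentiableAt.cpow (by fun_prop) (by fun_prop) ?_
        exact Or.inl (hw j (Finset.mem_insert_self _ _))
    refine GOOD_abs (gp n A a y) U hU ?_ ?_
    · intro z hz
      rw [segment_eq_image] at hz
      obtain ⟨s, hs, rfl⟩ := hz
      rw [hUd]
      intro j hj
      have h2 := hre j hj s hs.1 hs.2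
      simpa using h2
    · intro w hw
      rw [hUd] at hw
      exact (hdiff A w hw).differentiableWithinAt

end Pool.Agent.H212.SG
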