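import Pool.Agent.H212.SG.Stm

set_option autoImplicit false

open MeasureTheory Set Filter Topology

namespace Pool.Agent.H212.SG

open Pool.Agent.H212.SN

theorem IMP_bd (x τ : ℝ) (hτ : 0 < τ) : |Real.sin (τ * x) / τ| ≤ |x| := by
  rw [abs_div, abs_of_pos hτ, div_le_iff₀ hτ]
  refine (Real.abs_sin_le_abs (x := τ * x)).trans ?_
  rw [abs_mul, abs_of_pos hτ, mul_comm]

theorem IMP_exp {X : ℝ} (hX : 0 < X) :
    Integrable (fun τ : ℝ => Real.exp (-X * τ)) (volume.restrict (Ioi (0 : ℝ))) :=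
  exp_neg_integrableOn_Ioi 0 hX

theorem IMP_int {X : ℝ} (hX : 0 < X) (y : ℝ) :
    Integrable (fun τ : ℝ => Real.exp (-X * τ) * (Real.sin (τ * y) / τ))
      (volume.restrict (Ioi (0 : ℝ))) := by
  refine Integrable.mono' ((IMP_exp hX).mul_const |y|) ?_ ?_
  · exact Measurable.aestronglyMeasurable (by fun_prop)
  · refine (ae_restrict_iff' measurableSet_Ioi).2 (Eventually.of_forall fun τ hτ => ?_)
    rw [norm_mul, Real.norm_eq_abs, Real.norm_eq_abs, abs_of_pos (Real.exp_pos _)]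
    exact mul_le_mul_of_nonneg_left (IMP_bd y τ hτ) (Real.exp_pos _).le

theorem IMP_cos {X : ℝ} (hX : 0 < X) (y : ℝ) :
    ∫ τ in Ioi (0 : ℝ), Real.exp (-X * τ) * Real.cos (τ * y) = X / (X ^ 2 + y ^ 2) := by
  obtain ⟨a, ha⟩ : ∃ a : ℂ, a = -((X : ℂ) + y * Complex.I) := ⟨_, rfl⟩
  have hre : a.re = -X := by rw [ha]; simp
  have hare : a.re < 0 := by rw [hre]; linarith
  have h1 := integral_exp_mul_complex_Ioi hare 0
  have hi : Integrable (fun τ : ℝ => Complex.exp (a * τ)) (volume.restrict (Ioi (0 : ℝ))) :=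
    integrableOn_exp_mul_complex_Ioi hare 0
  have h2 := Complex.reCLM.integral_comp_comm hi
  have h3 : ∀ τ : ℝ, Complex.reCLM (Complex.exp (a * τ)) =
      Real.exp (-X * τ) * Real.cos (τ * y) := by
    intro τ
    rw [Complex.reCLM_apply, Complex.exp_re]
    have e1 : (a * (τ : ℂ)).re = -X * τ := by rw [ha]; simp
    have e2 : (a * (τ : ℂ)).im = -(τ * y) := by rw [ha]; simp; ring
    rw [e1, e2, Real.cos_neg]
  simp only [h3] at h2
  rw [h2, h1, Complex.reCLM_apply, ha]
  have hne : X ^ 2 + y ^ 2 ≠ 0 := by positivity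
  simp only [Complex.ofReal_zero, mul_zero, Complex.exp_zero]
  rw [neg_div_neg_eq, Complex.div_re]
  simp only [Complex.one_re, Complex.one_im, Complex.normSq_apply, Complex.add_re, Complex.add_im,
    Complex.ofReal_re, Complex.ofReal_im, Complex.mul_re, Complex.mul_im, Complex.I_re,
    Complex.I_im]
  ring_nf

theorem IMP_der {X : ℝ} (hX : 0 < X) (y : ℝ) :
    HasDerivAt (fun y : ℝ => ∫ τ in Ioi (0 : ℝ), Real.exp (-X * τ) * (Real.sin (τ * y) / τ))
      (X / (X ^ 2 + y ^ 2)) y := by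
  rw [← IMP_cos hX y]
  refine (hasDerivAt_integral_of_dominated_loc_of_deriv_le (s := univ)
    (F := fun (y : ℝ) (τ : ℝ) => Real.exp (-X * τ) * (Real.sin (τ * y) / τ))
    (F' := fun (y : ℝ) (τ : ℝ) => Real.exp (-X * τ) * Real.cos (τ * y))
    (bound := fun τ => Real.exp (-X * τ)) univ_mem
    (Eventually.of_forall fun y => (IMP_int hX y).1) (IMP_int hX y) ?_ ?_ (IMP_exp hX) ?_).2
  · exact (by fun_prop : Continuous (fun τ : ℝ => Real.exp (-X * τ) *
      Real.cos (τ * y))).aestronglyMeasurable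
  · refine Eventually.of_forall fun τ z _ => ?_
    rw [norm_mul, Real.norm_eq_abs, Real.norm_eq_abs, abs_of_pos (Real.exp_pos _)]
    exact mul_le_of_le_one_right (Real.exp_pos _).le (Real.abs_cos_le_one _)
  · refine (ae_restrict_iff' measurableSet_Ioi).2 (Eventually.of_forall fun τ hτ z _ => ?_)
    have hτ' : τ ≠ 0 := (show (0 : ℝ) < τ from hτ).ne'
    have h1 : HasDerivAt (fun z : ℝ => τ * z) τ z := by
      simpa using (hasDerivAt_id z).const_mul τ
    have h2 := ((h1.sin).div_const τ).const_mul (Real.exp (-X * τ))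
    have h3 : Real.exp (-X * τ) * (Real.cos (τ * z) * τ / τ) =
        Real.exp (-X * τ) * Real.cos (τ * z) := by
      rw [mul_div_assoc, div_self hτ', mul_one]
    rw [h3] at h2
    exact h2

theorem IMP_arc {X : ℝ} (hX : 0 < X) (y : ℝ) :
    ∫ τ in Ioi (0 : ℝ), Real.exp (-X * τ) * (Real.sin (τ * y) / τ) = Real.arctan (y / X) := by
  have hd : ∀ z : ℝ, HasDerivAt (fun z : ℝ =>
      (∫ τ in Ioi (0 : ℝ), Real.exp (-X * τ) * (Real.sin (τ * z) / τ)) - Real.arctan (z / X))
      0 z := by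
    intro z
    have h1 := IMP_der hX z
    have h2 : HasDerivAt (fun z : ℝ => z / X) (1 / X) z := (hasDerivAt_id z).div_const X
    have h3 := h2.arctan
    have h4 := h1.sub h3
    have h5 : X / (X ^ 2 + z ^ 2) - 1 / (1 + (z / X) ^ 2) * (1 / X) = 0 := by
      have : X ^ 2 + z ^ 2 ≠ 0 := by positivity
      field_simp
      ring
    rw [h5] at h4
    exact h4
  have hc := is_const_of_deriv_eq_zero (fun z => (hd z).differentiableAt) (fun z => (hd z).deriv) y 0
  simp only [mul_zero, Real.sin_zero, zero_div, integral_zero, Real.arctan_zero, sub_zero] at hc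
  linarith

theorem t_IMP : S_IMP := by
  intro P K hP hK hZ
  have him : ∀ (τ : ℝ) (Z : ℂ), (Complex.exp (-(τ : ℂ) * Z)).im =
      -(Real.exp (-Z.re * τ) * Real.sin (τ * Z.im)) := by
    intro τ Z
    rw [Complex.exp_im]
    have e1 : (-(τ : ℂ) * Z).re = -Z.re * τ := by simp; ring
    have e2 : (-(τ : ℂ) * Z).im = -(τ * Z.im) := by simp
    rw [e1, e2, Real.sin_neg]
    ring
  -- the inner integral
  have hinner : ∀ τ ∈ Ioi (0 : ℝ), (∫ Z, Complex.exp (-(τ : ℂ) * Z) ∂P).im / τ =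
      -∫ Z, Real.exp (-Z.re * τ) * (Real.sin (τ * Z.im) / τ) ∂P := by
    intro τ hτ
    have hτ' : (0 : ℝ) < τ := hτ
    have hi : Integrable (fun Z : ℂ => Complex.exp (-(τ : ℂ) * Z)) P := by
      refine Integrable.of_bound (by fun_prop : Continuous
        (fun Z : ℂ => Complex.exp (-(τ : ℂ) * Z))).aestronglyMeasurable 1 ?_
      filter_upwards [hZ] with Z hZ
      rw [Complex.norm_exp]
      have e1 : (-(τ : ℂ) * Z).re = -(τ * Z.re) := by simp
      rw [e1]
      apply Real.exp_le_one_iff.2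
      have := mul_pos hτ' hZ.1
      linarith
    have h1 := Complex.imCLM.integral_comp_comm hi
    have h2 : (∫ Z, Complex.exp (-(τ : ℂ) * Z) ∂P).im =
        ∫ Z, (Complex.exp (-(τ : ℂ) * Z)).im ∂P := h1.symm
    rw [h2, ← integral_neg, ← integral_div]
    congr 1
    funext Z
    rw [him]
    ring
  rw [setIntegral_congr_fun measurableSet_Ioi hinner, integral_neg, abs_neg]
  -- integrability on the product
  obtain ⟨f, hf⟩ : ∃ f : ℝ × ℂ → ℝ, f = fun q => Real.exp (-q.2.re * q.1) *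
    (Real.sin (q.1 * q.2.im) / q.1) := ⟨_, rfl⟩
  have hfm : Measurable f := by
    rw [hf]
    fun_prop
  have hprod : Integrable f ((volume.restrict (Ioi (0 : ℝ))).prod P) := by
    rw [integrable_prod_iff' hfm.aestronglyMeasurable]
    have hb : ∀ Z : ℂ, 0 < Z.re → |Z.im| ≤ K * Z.re →
        ∫ τ in Ioi (0 : ℝ), ‖f (τ, Z)‖ ≤ K := by
      intro Z h1 h2
      have h3 : ∫ τ in Ioi (0 : ℝ), ‖f (τ, Z)‖ ≤
          ∫ τ in Ioi (0 : ℝ), Real.exp (-Z.re * τ) * (K * Z.re) := by
        refine setIntegral_mono_on ?_ ?_ measurableSet_Ioi ?_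
        · rw [hf]
          exact (IMP_int h1 Z.im).norm
        · exact (IMP_exp h1).mul_const _
        · intro τ hτ
          rw [hf]
          show ‖Real.exp (-Z.re * τ) * (Real.sin (τ * Z.im) / τ)‖ ≤ _
          rw [norm_mul, Real.norm_eq_abs, Real.norm_eq_abs, abs_of_pos (Real.exp_pos _)]
          exact mul_le_mul_of_nonneg_left ((IMP_bd _ τ hτ).trans h2) (Real.exp_pos _).le
      refine h3.trans (le_of_eq ?_)
      rw [integral_mul_const, integral_exp_mul_Ioi (by linarith) 0]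
      rw [mul_zero, Real.exp_zero]
      field_simp
    refine ⟨?_, ?_⟩
    · filter_upwards [hZ] with Z hZ
      rw [hf]
      exact IMP_int hZ.1 Z.im
    · refine Integrable.of_bound ?_ K ?_
      · exact (hfm.norm.stronglyMeasurable.integral_prod_left').aestronglyMeasurable
      · filter_upwards [hZ] with Z hZ
        rw [Real.norm_of_nonneg (integral_nonneg fun _ => norm_nonneg _)]
        exact hb Z hZ.1 hZ.2
  have hswap := integral_integral_swap (f := fun (τ : ℝ) (Z : ℂ) => f (τ, Z)) hprod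
  have h1 : ∫ τ in Ioi (0 : ℝ), ∫ Z, Real.exp (-Z.re * τ) * (Real.sin (τ * Z.im) / τ) ∂P =
      ∫ Z, (∫ τ in Ioi (0 : ℝ), f (τ, Z)) ∂P := by
    rw [← hswap, hf]
  rw [h1]
  have h2 : ∀ᵐ Z ∂P, ‖∫ τ in Ioi (0 : ℝ), f (τ, Z)‖ ≤ Real.arctan K := by
    filter_upwards [hZ] with Z hZ
    have e : ∫ τ in Ioi (0 : ℝ), f (τ, Z) = Real.arctan (Z.im / Z.re) := by
      rw [hf]
      exact IMP_arc hZ.1 Z.im
    rw [e, Real.norm_eq_abs, abs_le]
    have h3 := abs_le.1 hZ.2
    constructor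
    · rw [← Real.arctan_neg]
      apply Real.arctan_mono
      rw [le_div_iff₀ hZ.1]
      linarith [h3.1]
    · apply Real.arctan_mono
      rw [div_le_iff₀ hZ.1]
      exact h3.2
  have h3 := norm_integral_le_of_norm_le_const h2
  rw [Real.norm_eq_abs] at h3
  simpa using h3

end Pool.Agent.H212.SG
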