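import Pool.Agent.H212.SG.Stm

open Complex Set Filter Topology MeasureTheory
open scoped ComplexConjugate

namespace Pool.Agent.H212.SG
open Pool.Agent.H212.SN

lemma IMR_mul (a b c : ℂ) (ha : 0 < a.re) (hb : 0 < b.re) : (a * b) ^ c = a ^ c * b ^ c := by
  have ha0 : a ≠ 0 := by intro h; rw [h] at ha; simp at ha
  have hb0 : b ≠ 0 := by intro h; rw [h] at hb; simp at hb
  have h1 := abs_lt.mp (Complex.abs_arg_lt_pi_div_two_iff.mpr (Or.inl ha))
  have h2 := abs_lt.mp (Complex.abs_arg_lt_pi_div_two_iff.mpr (Or.inl hb))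
  rw [Complex.cpow_def_of_ne_zero (mul_ne_zero ha0 hb0), Complex.cpow_def_of_ne_zero ha0,
    Complex.cpow_def_of_ne_zero hb0, (Complex.log_mul_eq_add_log_iff ha0 hb0).mpr
      ⟨by linarith [h1.1, h2.1], by linarith [h1.2, h2.2]⟩, ← Complex.exp_add]
  congr 1; ring

lemma IMR_re (y : ℂ) (hy : ‖y‖ = 1) (hy1 : y ≠ 1) : y.re < 1 ∧ ((1 - y)⁻¹).re = 1 / 2 := by
  have h0 : y.re ^ 2 + y.im ^ 2 = 1 := by
    have := Complex.sq_norm y
    rw [hy, Complex.normSq_apply] at this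
    nlinarith
  have h1 : y.re < 1 := by
    rcases lt_or_ge y.re 1 with h | h
    · exact h
    · exfalso
      have h2 : y.im = 0 := by
        have : y.im ^ 2 ≤ 0 := by nlinarith
        nlinarith [sq_nonneg y.im, pow_eq_zero_iff (n := 2) (M₀ := ℝ) two_ne_zero |>.mp (le_antisymm this (sq_nonneg _))]
      have h3 : y.re = 1 := by
        rw [h2] at h0
        nlinarith
      exact hy1 (Complex.ext h3 h2)
  refine ⟨h1, ?_⟩
  rw [Complex.inv_re, Complex.normSq_apply]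
  simp only [Complex.sub_re, Complex.one_re, Complex.sub_im, Complex.one_im, zero_sub]
  have h4 : (1 - y.re) * (1 - y.re) + -y.im * -y.im = 2 * (1 - y.re) := by nlinarith
  rw [h4]
  have : 1 - y.re ≠ 0 := by linarith
  field_simp

lemma IMR_gp (n : ℕ) (A : Finset (Fin n)) (a : Fin n → ℝ) (y : Fin n → ℂ) (hy : ∀ j ∈ A, ‖y j‖ = 1)
    (hy1 : ∀ j ∈ A, y j ≠ 1) (u : ℝ) (hu : u ∈ Ioo (0 : ℝ) 1) :
    gp n A a y ((1 - u : ℝ) : ℂ) = gp n A a y 1 * (((1 - u) ^ (-∑ j ∈ A, a j) : ℝ) : ℂ) *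
      ∏ j ∈ A, (1 + ((u / (1 - u) : ℝ) : ℂ) * (1 - y j)⁻¹) ^ (-(a j : ℂ)) := by
  have hu1 : 0 < 1 - u := by linarith [hu.2]
  have hu1c : (1 - u : ℂ) ≠ 0 := by
    have : ((1 - u : ℝ) : ℂ) ≠ 0 := by exact_mod_cast hu1.ne'
    simpa using this
  unfold gp
  rw [← Finset.sum_neg_distrib, Real.rpow_sum_of_pos hu1, Complex.ofReal_prod, ← Finset.prod_mul_distrib,
    ← Finset.prod_mul_distrib]
  refine Finset.prod_congr rfl fun j hj => ?_
  obtain ⟨r1, r2⟩ := IMR_re (y j) (hy j hj) (hy1 j hj)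
  have hq : (1 - y j) ≠ 0 := sub_ne_zero.mpr (hy1 j hj).symm
  have p1 : 0 < (1 - y j * 1).re := by simp; linarith
  have hτ : 0 < u / (1 - u) := div_pos hu.1 hu1
  have p3 : 0 < (1 + ((u / (1 - u) : ℝ) : ℂ) * (1 - y j)⁻¹).re := by
    rw [Complex.add_re, Complex.one_re, Complex.re_ofReal_mul, r2]
    positivity
  have p2 : 0 < (((1 - u : ℝ) : ℂ) * (1 + ((u / (1 - u) : ℝ) : ℂ) * (1 - y j)⁻¹)).re := by
    rw [Complex.re_ofReal_mul]
    positivity
  rw [Complex.ofReal_cpow hu1.le, Complex.ofReal_neg, mul_assoc,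
    ← IMR_mul ((1 - u : ℝ) : ℂ) _ _ (by rw [Complex.ofReal_re]; exact hu1) p3,
    ← IMR_mul _ _ _ p1 p2]
  congr 1
  push_cast
  field_simp
  ring

theorem t_IMR (hLAP : S_LAP) (hIMP : S_IMP) (hGOOD : S_GOOD) : S_IMR := by
  intro n A a y α h0 h1 hA ha hy hy1 hsum
  set e : Fin n → ℂ := fun j => (1 - y j)⁻¹ with he
  obtain ⟨P, K, hP, hK, hae, hlap⟩ := hLAP n A a e hA ha (fun j hj => (IMR_re (y j) (hy j hj) (hy1 j hj)).2)
  have himp := hIMP P K hP hK hae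
  have hG1 := (hGOOD n A a y ha hy hy1).1
  set G1 := gp n A a y 1 with hG1d
  have hat := Real.arctan_lt_pi_div_two K
  refine lt_of_le_of_lt ?_ hat
  -- the integrand
  have hkey : ∀ u ∈ Ioo (0 : ℝ) 1, (((u : ℂ) ^ (-1 - ((0 : ℝ) : ℂ) * I) *
      (((1 - u : ℝ) : ℂ) ^ (((1 - α : ℝ) : ℂ) + ((0 : ℝ) : ℂ) * I) * gp n A a y ((1 - u : ℝ) : ℂ) - G1)) / G1).im =
      |1 / (1 - u) ^ 2| • ((∫ Z, Complex.exp (-((u / (1 - u) : ℝ) : ℂ) * Z) ∂P).im / (u / (1 - u))) := by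
    intro u hu
    have hu0 : 0 < u := hu.1
    have hu1 : 0 < 1 - u := by linarith [hu.2]
    rw [IMR_gp n A a y hy hy1 u hu, ← hG1d, hsum]
    have hl := hlap (u / (1 - u)) (by positivity)
    simp only [he] at hl
    rw [hl]
    set Φ := ∫ Z, Complex.exp (-((u / (1 - u) : ℝ) : ℂ) * Z) ∂P
    have e1 : (u : ℂ) ^ (-1 - ((0 : ℝ) : ℂ) * I) = ((u⁻¹ : ℝ) : ℂ) := by
      rw [Complex.ofReal_zero, zero_mul, sub_zero, Complex.cpow_neg_one, Complex.ofReal_inv]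
    have e2 : ((1 - u : ℝ) : ℂ) ^ (((1 - α : ℝ) : ℂ) + ((0 : ℝ) : ℂ) * I) = (((1 - u) ^ (1 - α) : ℝ) : ℂ) := by
      rw [Complex.ofReal_zero, zero_mul, add_zero, Complex.ofReal_cpow hu1.le]
    have e3 : (1 - u) ^ (1 - α) * (1 - u) ^ (-(2 - α)) = (1 - u)⁻¹ := by
      rw [← Real.rpow_add hu1, ← Real.rpow_neg_one]
      congr 1; ring
    rw [e1, e2]
    have e4 : (((u⁻¹ : ℝ) : ℂ) * ((((1 - u) ^ (1 - α) : ℝ) : ℂ) * (G1 * (((1 - u) ^ (-(2 - α)) : ℝ) : ℂ) * Φ) - G1)) / G1 =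
        ((u⁻¹ * (1 - u)⁻¹ : ℝ) : ℂ) * Φ - ((u⁻¹ : ℝ) : ℂ) := by
      rw [← e3]
      rw [div_eq_iff hG1]
      push_cast
      ring
    rw [e4, Complex.sub_im, Complex.im_ofReal_mul, Complex.ofReal_im, sub_zero, abs_of_pos (by positivity), smul_eq_mul]
    field_simp
  have himg : (fun u : ℝ => u / (1 - u)) '' Ioo (0 : ℝ) 1 = Ioi 0 := by
    ext τ
    constructor
    · rintro ⟨u, hu, rfl⟩
      exact div_pos hu.1 (by linarith [hu.2])
    · intro hτ
      have hτ' : 0 < τ := hτ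
      refine ⟨τ / (1 + τ), ⟨by positivity, by rw [div_lt_one (by positivity)]; linarith⟩, ?_⟩
      show τ / (1 + τ) / (1 - τ / (1 + τ)) = τ
      have : 1 + τ ≠ 0 := by positivity
      field_simp
      ring
  have hcv := MeasureTheory.integral_image_eq_integral_abs_deriv_smul (s := Ioo (0 : ℝ) 1)
    (f := fun u : ℝ => u / (1 - u)) (f' := fun u => 1 / (1 - u) ^ 2) measurableSet_Ioo (by
      intro u hu
      have hu1 : (1 - u) ≠ 0 := by linarith [hu.2]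
      have := ((hasDerivAt_id u).div ((hasDerivAt_id u).const_sub 1) hu1)
      refine (this.congr_deriv ?_).hasDerivWithinAt
      simp only [id]
      congr 1
      ring) (by
      intro u hu v hv huv
      have hu1 : (1 - u) ≠ 0 := by linarith [hu.2]
      have hv1 : (1 - v) ≠ 0 := by linarith [hv.2]
      have : u / (1 - u) = v / (1 - v) := huv
      rw [div_eq_div_iff hu1 hv1] at this
      linarith)
    (fun τ => (∫ Z, Complex.exp (-(τ : ℂ) * Z) ∂P).im / τ)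
  rw [himg] at hcv
  rw [hcv] at himp
  by_cases hint : IntegrableOn (fun u : ℝ => ((u : ℂ) ^ (-1 - ((0 : ℝ) : ℂ) * I) *
      (((1 - u : ℝ) : ℂ) ^ (((1 - α : ℝ) : ℂ) + ((0 : ℝ) : ℂ) * I) * gp n A a y ((1 - u : ℝ) : ℂ) - G1)) / G1) (Ioo (0 : ℝ) 1)
  · have e5 : (Mh α 0 (gp n A a y) / G1).im = ∫ u in Ioo (0 : ℝ) 1, |1 / (1 - u) ^ 2| •
        ((∫ Z, Complex.exp (-((u / (1 - u) : ℝ) : ℂ) * Z) ∂P).im / (u / (1 - u))) := by
      rw [← setIntegral_congr_fun measurableSet_Ioo hkey]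
      rw [Mh, intervalIntegral.integral_of_le zero_le_one, integral_Ioc_eq_integral_Ioo, ← integral_div]
      exact (integral_im hint).symm
    rw [e5]
    exact himp
  · have e5 : Mh α 0 (gp n A a y) / G1 = 0 := by
      rw [Mh, intervalIntegral.integral_of_le zero_le_one, integral_Ioc_eq_integral_Ioo, ← integral_div]
      exact integral_undef hint
    rw [e5]
    simp only [Complex.zero_im, abs_zero]
    exact (Real.arctan_pos.mpr hK).le

end Pool.Agent.H212.SG
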