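import Pool.Agent.H212.SG.Stm

open Complex Set Filter Topology MeasureTheory

namespace Pool.Agent.H212.SG
open Pool.Agent.H212.SN

theorem K2_norm (β : ℝ) (z : ℂ) (hβ : 0 ≤ β) (hz : 0 ≤ z.re) :
    ‖(1 + z) ^ (-(β : ℂ))‖ ≤ 1 := by
  have h1 : (1 : ℝ) ≤ ‖1 + z‖ := by
    have h2 := Complex.re_le_norm (1 + z)
    rw [Complex.add_re, Complex.one_re] at h2
    linarith
  have h3 : (-(β : ℂ)) = ((-β : ℝ) : ℂ) := by push_cast; ring
  rw [h3, Complex.norm_cpow_real]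
  exact Real.rpow_le_one_of_one_le_of_nonpos h1 (by linarith)

theorem t_K2 : S_K2 := by
  intro α z h0 h1 hz
  refine ⟨K2_norm α z h0.le hz, ?_⟩
  have hconv : Convex ℝ {w : ℂ | 0 ≤ w.re} := by
    intro x hx y hy a b ha hb _
    simp only [Set.mem_ofPred_eq, Complex.add_re, Complex.real_smul, Complex.mul_re, Complex.ofReal_re,
      Complex.ofReal_im, zero_mul, sub_zero] at hx hy ⊢
    positivity
  have hd : ∀ w ∈ {w : ℂ | 0 ≤ w.re}, HasDerivWithinAt (fun w : ℂ => (1 + w) ^ (-(α : ℂ)))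
      (-(α : ℂ) * (1 + w) ^ (-(α : ℂ) - 1) * 1) {w : ℂ | 0 ≤ w.re} w := by
    intro w hw
    have h2 : HasDerivAt (fun w : ℂ => 1 + w) 1 w := by
      simpa using (hasDerivAt_id w).const_add 1
    refine (h2.cpow_const ?_).hasDerivWithinAt
    left
    have hw' : 0 ≤ w.re := hw
    rw [Complex.add_re, Complex.one_re]
    linarith
  have hb : ∀ w ∈ {w : ℂ | 0 ≤ w.re}, ‖-(α : ℂ) * (1 + w) ^ (-(α : ℂ) - 1) * 1‖ ≤ 1 := by
    intro w hw
    have hw' : 0 ≤ w.re := hw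
    have h4 : (-(α : ℂ) - 1) = -(((α + 1 : ℝ)) : ℂ) := by push_cast; ring
    rw [mul_one, norm_mul, norm_neg, h4, Complex.norm_real, Real.norm_eq_abs, abs_of_pos h0]
    have h5 := K2_norm (α + 1) w (by linarith) hw'
    nlinarith [norm_nonneg ((1 + w) ^ (-(((α + 1 : ℝ)) : ℂ)))]
  have h6 := hconv.norm_image_sub_le_of_norm_hasDerivWithin_le hd hb (x := 0) (y := z)
    (by simp) hz
  simpa using h6

end Pool.Agent.H212.SG
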