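import Pool.Agent.H212.SG.Stm

set_option autoImplicit false

namespace Pool.Agent.H212.SG

open Pool.Agent.H212.SN MeasureTheory ProbabilityTheory Set Filter Topology

theorem LAP_real {a : ℝ} (ha : 0 < a) {t : ℝ} (ht : t < 1) :
    ∫ g, Real.exp (t * g) ∂(gammaMeasure a 1) = (1 - t) ^ (-a) := by
  have hm : Measurable (gammaPDF a 1) := (measurable_gammaPDFReal a 1).ennreal_ofReal
  have hG : 0 < Real.Gamma a := Real.Gamma_pos_of_pos ha
  unfold gammaMeasure
  rw [integral_withDensity_eq_integral_toReal_smul hm (ae_of_all _ fun x => ENNReal.ofReal_lt_top)]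
  have h1 := Real.integral_rpow_mul_exp_neg_mul_Ioi (a := a) (r := 1 - t) ha (by linarith)
  have h2 : ∀ᵐ x ∂(volume : Measure ℝ), (gammaPDF a 1 x).toReal • Real.exp (t * x)
      = (Ioi (0 : ℝ)).indicator (fun x : ℝ => (1 / Real.Gamma a) * (x ^ (a - 1) *
        Real.exp (-((1 - t) * x)))) x := by
    have h0 : ∀ᵐ x ∂(volume : Measure ℝ), x ≠ 0 := by
      simp [ae_iff]
    filter_upwards [h0] with x hx
    rcases lt_or_gt_of_ne hx with h | h
    · rw [gammaPDF_of_neg h, indicator_of_notMem (by simpa using h.le)]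
      simp
    · rw [indicator_of_mem (by simpa using h)]
      unfold gammaPDF
      rw [ENNReal.toReal_ofReal (gammaPDFReal_nonneg ha one_pos x)]
      unfold gammaPDFReal
      rw [if_pos h.le, smul_eq_mul, show -((1 - t) * x) = -(1 * x) + t * x by ring, Real.exp_add,
        Real.one_rpow]
      ring
  rw [integral_congr_ae h2, integral_indicator measurableSet_Ioi, integral_const_mul, h1,
    Real.rpow_neg (by linarith), one_div (1 - t), Real.inv_rpow (by linarith)]
  field_simp

theorem LAP_int {a : ℝ} (ha : 0 < a) {e : ℂ} (he : e.re = 1 / 2) {τ : ℝ} (hτ : 0 ≤ τ) :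
    ∫ g, Complex.exp (-(τ : ℂ) * ((g : ℂ) * e)) ∂(gammaMeasure a 1) = (1 + (τ : ℂ) * e) ^ (-(a : ℂ)) := by
  have hsub : Iio (1 : ℝ) ⊆ integrableExpSet id (gammaMeasure a 1) := by
    intro t ht
    by_contra hcon
    have h1 := LAP_real ha (t := t) ht
    have h2 : ¬ Integrable (fun g : ℝ => Real.exp (t * g)) (gammaMeasure a 1) := hcon
    rw [integral_undef h2] at h1
    have h3 : 0 < (1 - t) ^ (-a) := Real.rpow_pos_of_pos (by simpa using ht) _
    linarith
  have hint : ∀ z : ℂ, z.re < 1 → z.re ∈ interior (integrableExpSet id (gammaMeasure a 1)) := by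
    intro z hz
    exact interior_maximal hsub isOpen_Iio hz
  have hU : IsOpen {z : ℂ | z.re < 1} := isOpen_lt Complex.continuous_re continuous_const
  have hf : AnalyticOnNhd ℂ (complexMGF id (gammaMeasure a 1)) {z : ℂ | z.re < 1} :=
    analyticOnNhd_complexMGF.mono fun z hz => hint z hz
  have hg : AnalyticOnNhd ℂ (fun z : ℂ => (1 - z) ^ (-(a : ℂ))) {z : ℂ | z.re < 1} := by
    apply DifferentiableOn.analyticOnNhd _ hU
    intro z hz
    apply DifferentiableAt.differentiableWithinAt
    apply DifferentiableAt.cpow (by fun_prop) (by fun_prop)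
    left
    simpa using hz
  have hpre : IsPreconnected {z : ℂ | z.re < 1} := (convex_halfSpace_re_lt 1).isPreconnected
  have hfreq : ∃ᶠ z in 𝓝[≠] (0 : ℂ), complexMGF id (gammaMeasure a 1) z = (1 - z) ^ (-(a : ℂ)) := by
    have ht : Tendsto (fun x : ℝ => (x : ℂ)) (𝓝[≠] (0 : ℝ)) (𝓝[≠] (0 : ℂ)) := by
      apply tendsto_nhdsWithin_of_tendsto_nhds_of_eventually_within
      · have : Tendsto (fun x : ℝ => (x : ℂ)) (𝓝 (0 : ℝ)) (𝓝 ((0 : ℝ) : ℂ)) :=
          Complex.continuous_ofReal.tendsto 0
        rw [Complex.ofReal_zero] at this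
        exact this.mono_left nhdsWithin_le_nhds
      · filter_upwards [self_mem_nhdsWithin] with x hx
        simpa using hx
    have hev : ∀ᶠ x : ℝ in 𝓝[≠] (0 : ℝ),
        complexMGF id (gammaMeasure a 1) (x : ℂ) = (1 - (x : ℂ)) ^ (-(a : ℂ)) := by
      have h1 : ∀ᶠ x : ℝ in 𝓝 (0 : ℝ), x < 1 := Iio_mem_nhds one_pos
      filter_upwards [h1.filter_mono nhdsWithin_le_nhds] with x hx
      rw [complexMGF_ofReal]
      unfold mgf
      have h5 := LAP_real ha (t := x) hx
      simp only [id]
      rw [h5, Complex.ofReal_cpow (by linarith)]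
      push_cast
      rfl
    exact ht.frequently hev.frequently
  have heq := hf.eqOn_of_preconnected_of_frequently_eq hg hpre
    (show (0 : ℂ) ∈ {z : ℂ | z.re < 1} by simp) hfreq
  have hz : (-((τ : ℂ) * e)) ∈ {z : ℂ | z.re < 1} := by
    simp only [mem_ofPred_eq, Complex.neg_re, Complex.mul_re, Complex.ofReal_re, Complex.ofReal_im, he]
    nlinarith
  have h6 := heq hz
  simp only [sub_neg_eq_add] at h6
  rw [← h6]
  unfold complexMGF
  congr 1
  ext g
  congr 1
  simp only [id]
  ring

theorem LAP_one {a : ℝ} (ha : 0 < a) {e : ℂ} (he : e.re = 1 / 2) :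
    ∃ (P : Measure ℂ) (K : ℝ), IsProbabilityMeasure P ∧ 0 < K ∧ (∀ᵐ Z ∂P, 0 < Z.re ∧ |Z.im| ≤ K * Z.re) ∧
      ∀ τ : ℝ, 0 ≤ τ → (1 + (τ : ℂ) * e) ^ (-(a : ℂ)) = ∫ Z, Complex.exp (-(τ : ℂ) * Z) ∂P := by
  have hf : Measurable (fun g : ℝ => (g : ℂ) * e) := Complex.measurable_ofReal.mul_const e
  haveI := isProbabilityMeasure_gammaMeasure ha one_pos
  refine ⟨(gammaMeasure a 1).map (fun g : ℝ => (g : ℂ) * e), 2 * |e.im| + 1,
    Measure.isProbabilityMeasure_map hf.aemeasurable, by positivity, ?_, ?_⟩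
  · have hms : MeasurableSet {Z : ℂ | 0 < Z.re ∧ |Z.im| ≤ (2 * |e.im| + 1) * Z.re} := by
      apply MeasurableSet.inter
      · exact measurableSet_lt measurable_const Complex.measurable_re
      · exact measurableSet_le (Complex.measurable_im.norm) (Complex.measurable_re.const_mul _)
    rw [ae_map_iff hf.aemeasurable hms]
    have hm : Measurable (gammaPDF a 1) := (measurable_gammaPDFReal a 1).ennreal_ofReal
    unfold gammaMeasure
    rw [ae_withDensity_iff hm]
    have h0 : ∀ᵐ x ∂(volume : Measure ℝ), x ≠ 0 := by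
      simp [ae_iff]
    filter_upwards [h0] with x hx h
    have hx0 : 0 < x := by
      rcases lt_or_gt_of_ne hx with h4 | h4
      · exact absurd (gammaPDF_of_neg h4) h
      · exact h4
    have e1 : ((x : ℂ) * e).re = x / 2 := by
      simp [he]
      ring
    have e2 : ((x : ℂ) * e).im = x * e.im := by
      simp
    rw [e1, e2, abs_mul, abs_of_pos hx0]
    refine ⟨by positivity, ?_⟩
    have := abs_nonneg e.im
    nlinarith
  · intro τ hτ
    rw [integral_map hf.aemeasurable (by
      apply Continuous.aestronglyMeasurable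
      fun_prop)]
    exact (LAP_int ha he hτ).symm

theorem t_LAP : S_LAP := by
  intro n A a e hA
  induction hA using Finset.Nonempty.cons_induction with
  | singleton j =>
    intro ha he
    obtain ⟨P, K, h1, h2, h3, h4⟩ := LAP_one (ha j (Finset.mem_singleton_self j)) (he j (Finset.mem_singleton_self j))
    refine ⟨P, K, h1, h2, h3, fun τ hτ => ?_⟩
    rw [Finset.prod_singleton]
    exact h4 τ hτ
  | cons j s hj hs ih =>
    intro ha he
    obtain ⟨P1, K1, p1, k1, q1, r1⟩ := ih (fun i hi => ha i (Finset.mem_cons_of_mem hi))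
      (fun i hi => he i (Finset.mem_cons_of_mem hi))
    obtain ⟨P2, K2, p2, k2, q2, r2⟩ := LAP_one (ha j (Finset.mem_cons_self j s)) (he j (Finset.mem_cons_self j s))
    have hf : Measurable (fun z : ℂ × ℂ => z.1 + z.2) := by fun_prop
    refine ⟨(P2.prod P1).map (fun z : ℂ × ℂ => z.1 + z.2), max K1 K2,
      Measure.isProbabilityMeasure_map hf.aemeasurable, lt_max_of_lt_left k1, ?_, ?_⟩
    · have hms : MeasurableSet {Z : ℂ | 0 < Z.re ∧ |Z.im| ≤ (max K1 K2) * Z.re} := by
        apply MeasurableSet.inter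
        · exact measurableSet_lt measurable_const Complex.measurable_re
        · exact measurableSet_le (Complex.measurable_im.norm) (Complex.measurable_re.const_mul _)
      rw [ae_map_iff hf.aemeasurable hms]
      have a1 : ∀ᵐ z ∂(P2.prod P1), 0 < z.1.re ∧ |z.1.im| ≤ K2 * z.1.re :=
        Measure.quasiMeasurePreserving_fst.ae q2
      have a2 : ∀ᵐ z ∂(P2.prod P1), 0 < z.2.re ∧ |z.2.im| ≤ K1 * z.2.re :=
        Measure.quasiMeasurePreserving_snd.ae q1
      filter_upwards [a1, a2] with z b1 b2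
      refine ⟨by simpa using add_pos b1.1 b2.1, ?_⟩
      have c1 : K2 * z.1.re ≤ max K1 K2 * z.1.re := mul_le_mul_of_nonneg_right (le_max_right _ _) b1.1.le
      have c2 : K1 * z.2.re ≤ max K1 K2 * z.2.re := mul_le_mul_of_nonneg_right (le_max_left _ _) b2.1.le
      rw [Complex.add_im, Complex.add_re, mul_add]
      exact (abs_add_le _ _).trans (add_le_add (b1.2.trans c1) (b2.2.trans c2))
    · intro τ hτ
      rw [Finset.prod_cons, r2 τ hτ, r1 τ hτ, integral_map hf.aemeasurable (by
        apply Continuous.aestronglyMeasurable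
        fun_prop), ← integral_prod_mul]
      congr 1
      ext z
      rw [← Complex.exp_add, mul_add]

end Pool.Agent.H212.SG
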