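import Pool.Agent.H212.SG.Stm

set_option autoImplicit false

open Complex Set Filter Topology MeasureTheory
open scoped ComplexConjugate

namespace Pool.Agent.H212.SG
open Pool.Agent.H212.SN

theorem LTA2_G1 {α b u : ℝ} (h0 : 0 < α) (h1 : α < 1) (hb : 0 < b) (hb1 : b ≤ 1) (hu0 : 0 < u)
    (hu1 : u < 1) :
    ‖((1 - u : ℝ) : ℂ) ^ (((1 - α : ℝ) : ℂ) + (b : ℂ) * I)‖ ≤ 1 ∧
    ‖((1 - u : ℝ) : ℂ) ^ (((1 - α : ℝ) : ℂ) + (b : ℂ) * I) - 1‖ ≤ 8 * u := by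
  have hv : 0 < 1 - u := by linarith
  have hre : (((1 - α : ℝ) : ℂ) + (b : ℂ) * I).re = 1 - α := by simp
  have hn : ‖((1 - u : ℝ) : ℂ) ^ (((1 - α : ℝ) : ℂ) + (b : ℂ) * I)‖ ≤ 1 := by
    rw [Complex.norm_cpow_eq_rpow_re_of_pos hv, hre]
    exact Real.rpow_le_one hv.le (by linarith) (by linarith)
  refine ⟨hn, ?_⟩
  rcases le_total u (1 / 4) with h | h
  · have hlog : |Real.log (1 - u)| ≤ 4 / 3 * u := by
      have l1 : Real.log (1 - u) ≤ 0 := Real.log_nonpos hv.le (by linarith)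
      have l2 : 1 - (1 - u)⁻¹ ≤ Real.log (1 - u) := Real.one_sub_inv_le_log_of_pos hv
      rw [abs_of_nonpos l1]
      have l3 : (1 - u)⁻¹ ≤ 1 + 4 / 3 * u := by
        rw [inv_eq_one_div, div_le_iff₀ hv]
        nlinarith
      linarith
    have hexp : ((1 - u : ℝ) : ℂ) ^ (((1 - α : ℝ) : ℂ) + (b : ℂ) * I) =
        Complex.exp (((Real.log (1 - u) : ℝ) : ℂ) * (((1 - α : ℝ) : ℂ) + (b : ℂ) * I)) := by
      rw [Complex.cpow_def_of_ne_zero (by exact_mod_cast hv.ne'), Complex.ofReal_log hv.le]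
    have hz : ‖((Real.log (1 - u) : ℝ) : ℂ) * (((1 - α : ℝ) : ℂ) + (b : ℂ) * I)‖ ≤ 8 / 3 * u := by
      rw [norm_mul, Complex.norm_real, Real.norm_eq_abs]
      have h2 : ‖((1 - α : ℝ) : ℂ) + (b : ℂ) * I‖ ≤ 2 := by
        refine (norm_add_le _ _).trans ?_
        rw [norm_mul, Complex.norm_I, Complex.norm_real, Complex.norm_real, Real.norm_eq_abs,
          Real.norm_eq_abs, abs_of_pos hb, abs_of_pos (show 0 < 1 - α by linarith)]
        linarith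
      have h3 := mul_le_mul hlog h2 (norm_nonneg _) (by positivity)
      linarith
    rw [hexp]
    have h4 := Complex.norm_exp_sub_one_le (hz.trans (show 8 / 3 * u ≤ 1 by linarith))
    linarith
  · have := norm_sub_le (((1 - u : ℝ) : ℂ) ^ (((1 - α : ℝ) : ℂ) + (b : ℂ) * I)) 1
    rw [norm_one] at this
    linarith

theorem LTA2_bound (hK : S_K2) {α b : ℝ} {g : ℂ → ℂ} {r0 L κ : ℝ} (h0 : 0 < α) (h1 : α < 1)
    (hb : 0 < b) (hb1 : b ≤ 1) (hg : Good g r0 L) (hκ : 0 < κ) {t : ℝ} (ht : 0 < t)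
    (htr : 2 * t < r0) {ξ : ℂ} (hξ : ‖ξ‖ ≤ 2) (hξκ : κ ≤ ξ.re) {u : ℝ} (hu0 : 0 < u)
    (hu1 : u < 1) :
    ‖(u : ℂ) ^ (((α - 1 : ℝ) : ℂ) - (b : ℂ) * I) * ((u : ℂ) + (t : ℂ) * ξ) ^ (-(α : ℂ))‖ ≤
      (t * κ) ^ (-α) * u ^ (α - 1) ∧
    ‖((1 - u : ℝ) : ℂ) ^ (((1 - α : ℝ) : ℂ) + (b : ℂ) * I) *
      (u : ℂ) ^ (((α - 1 : ℝ) : ℂ) - (b : ℂ) * I) *
      ((u : ℂ) + (t : ℂ) * ξ) ^ (-(α : ℂ)) * g (((1 - u : ℝ) : ℂ) / (1 + (t : ℂ) * ξ))‖ ≤
      L * ((t * κ) ^ (-α) * u ^ (α - 1)) ∧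
    ‖(u : ℂ) ^ (-1 - (b : ℂ) * I) * (((1 - u : ℝ) : ℂ) ^ (((1 - α : ℝ) : ℂ) + (b : ℂ) * I) *
      g ((1 - u : ℝ) : ℂ) - g 1)‖ ≤ 9 * L ∧
    ‖((1 - u : ℝ) : ℂ) ^ (((1 - α : ℝ) : ℂ) + (b : ℂ) * I) *
      (u : ℂ) ^ (((α - 1 : ℝ) : ℂ) - (b : ℂ) * I) *
      ((u : ℂ) + (t : ℂ) * ξ) ^ (-(α : ℂ)) * g (((1 - u : ℝ) : ℂ) / (1 + (t : ℂ) * ξ)) -
      g 1 * ((u : ℂ) ^ (((α - 1 : ℝ) : ℂ) - (b : ℂ) * I) *
        ((u : ℂ) + (t : ℂ) * ξ) ^ (-(α : ℂ))) -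
      (u : ℂ) ^ (-1 - (b : ℂ) * I) * (((1 - u : ℝ) : ℂ) ^ (((1 - α : ℝ) : ℂ) + (b : ℂ) * I) *
      g ((1 - u : ℝ) : ℂ) - g 1)‖ ≤
      2 * L * t * (t * κ) ^ (-α) * u ^ (α - 1) + 18 * L * √t * u ^ (-(1 / 2) : ℝ) := by
  obtain ⟨hr0, hr1, hL, hG⟩ := hg
  have hv : 0 < 1 - u := by linarith
  have huc : (u : ℂ) ≠ 0 := by exact_mod_cast hu0.ne'
  obtain ⟨η, hη⟩ : ∃ η : ℂ, η = (t : ℂ) * ξ := ⟨_, rfl⟩
  have hηn : ‖η‖ ≤ 2 * t := by
    rw [hη, norm_mul, Complex.norm_real, Real.norm_of_nonneg ht.le]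
    nlinarith
  have hηre : t * κ ≤ η.re := by
    rw [hη, Complex.re_ofReal_mul]
    nlinarith
  rw [← hη]
  obtain ⟨hgs, hgη⟩ := hG (1 - u) hv.le (by linarith)
  obtain ⟨-, hg2, hg3⟩ := hgη η (by linarith)
  have hg1 : ‖g 1‖ ≤ L := by
    have h := ((hG 1 zero_le_one le_rfl).2 0 (by rw [norm_zero]; exact hr0)).2.1
    simpa using h
  obtain ⟨G1, hG1⟩ : ∃ G1 : ℂ, G1 = ((1 - u : ℝ) : ℂ) ^ (((1 - α : ℝ) : ℂ) + (b : ℂ) * I) :=
    ⟨_, rfl⟩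
  obtain ⟨A, hA⟩ : ∃ A : ℂ, A = (u : ℂ) ^ (((α - 1 : ℝ) : ℂ) - (b : ℂ) * I) := ⟨_, rfl⟩
  obtain ⟨K, hKd⟩ : ∃ K : ℂ, K = ((u : ℂ) + η) ^ (-(α : ℂ)) := ⟨_, rfl⟩
  obtain ⟨U, hU⟩ : ∃ U : ℂ, U = (u : ℂ) ^ (-1 - (b : ℂ) * I) := ⟨_, rfl⟩
  obtain ⟨gη, hgηd⟩ : ∃ x : ℂ, x = g (((1 - u : ℝ) : ℂ) / (1 + η)) := ⟨_, rfl⟩
  obtain ⟨gs, hgsd⟩ : ∃ x : ℂ, x = g ((1 - u : ℝ) : ℂ) := ⟨_, rfl⟩
  have hGG := LTA2_G1 h0 h1 hb hb1 hu0 hu1
  rw [← hG1] at hGG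
  obtain ⟨hG1n, hG1s⟩ := hGG
  rw [← hG1, ← hA, ← hKd, ← hU, ← hgηd, ← hgsd]
  rw [← hgηd] at hg2 hg3
  rw [← hgsd] at hg3 hgs
  have hAn : ‖A‖ = u ^ (α - 1) := by
    rw [hA, Complex.norm_cpow_eq_rpow_re_of_pos hu0]
    simp
  have hUn : ‖U‖ = u⁻¹ := by
    rw [hU, Complex.norm_cpow_eq_rpow_re_of_pos hu0]
    have : (-1 - (b : ℂ) * I).re = -1 := by simp
    rw [this, Real.rpow_neg_one]
  have htκ : 0 < t * κ := mul_pos ht hκ
  have hure : t * κ ≤ ‖(u : ℂ) + η‖ := by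
    refine le_trans ?_ (Complex.re_le_norm _)
    rw [Complex.add_re, Complex.ofReal_re]
    linarith
  have hKn : ‖K‖ ≤ (t * κ) ^ (-α) := by
    rw [hKd]
    have : (-(α : ℂ)) = ((-α : ℝ) : ℂ) := by push_cast; ring
    rw [this, Complex.norm_cpow_real]
    exact Real.rpow_le_rpow_of_nonpos htκ hure (by linarith)
  have hP : 0 ≤ (t * κ) ^ (-α) := Real.rpow_nonneg htκ.le _
  have hQ : 0 ≤ u ^ (α - 1) := Real.rpow_nonneg hu0.le _
  have hAK : ‖A * K‖ ≤ (t * κ) ^ (-α) * u ^ (α - 1) := by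
    rw [norm_mul, hAn, mul_comm]
    exact mul_le_mul_of_nonneg_right hKn hQ
  have hh : ‖G1 * gs - g 1‖ ≤ 9 * L * u := by
    have e : G1 * gs - g 1 = G1 * (gs - g 1) + (G1 - 1) * g 1 := by ring
    rw [e]
    refine (norm_add_le _ _).trans ?_
    rw [norm_mul, norm_mul]
    have a1 : ‖G1‖ * ‖gs - g 1‖ ≤ 1 * (L * (1 - (1 - u))) :=
      mul_le_mul hG1n hgs (norm_nonneg _) zero_le_one
    have a2 : ‖G1 - 1‖ * ‖g 1‖ ≤ 8 * u * L := mul_le_mul hG1s hg1 (norm_nonneg _) (by positivity)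
    linarith
  refine ⟨hAK, ?_, ?_, ?_⟩
  · have e : G1 * A * K * gη = (G1 * gη) * (A * K) := by ring
    rw [e, norm_mul]
    refine mul_le_mul ?_ hAK (norm_nonneg _) hL.le
    rw [norm_mul]
    calc ‖G1‖ * ‖gη‖ ≤ 1 * L := mul_le_mul hG1n hg2 (norm_nonneg _) zero_le_one
      _ = L := one_mul L
  · rw [norm_mul, hUn]
    calc u⁻¹ * ‖G1 * gs - g 1‖ ≤ u⁻¹ * (9 * L * u) :=
          mul_le_mul_of_nonneg_left hh (by positivity)
      _ = 9 * L := by field_simp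
  · obtain ⟨w, hw⟩ : ∃ w : ℂ, w = ((1 / u : ℝ) : ℂ) * η := ⟨_, rfl⟩
    have hwre : 0 ≤ w.re := by
      rw [hw, Complex.re_ofReal_mul]
      have : 0 ≤ 1 / u := by positivity
      nlinarith
    have hwn : ‖w‖ ≤ 2 * (t / u) := by
      rw [hw, norm_mul, Complex.norm_real, Real.norm_of_nonneg (by positivity)]
      calc 1 / u * ‖η‖ ≤ 1 / u * (2 * t) := mul_le_mul_of_nonneg_left hηn (by positivity)
        _ = 2 * (t / u) := by ring
    obtain ⟨k1, k2⟩ := hK α w h0 h1 hwre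
    have k3 : ‖(1 + w) ^ (-(α : ℂ)) - 1‖ ≤ 2 := by
      have := norm_sub_le ((1 + w) ^ (-(α : ℂ))) 1
      rw [norm_one] at this
      linarith
    have e1 : (u : ℂ) + η = (u : ℂ) * (1 + w) := by
      rw [hw]
      push_cast
      field_simp
    have hw1 : 1 + w ≠ 0 := by
      intro h
      have := congrArg Complex.re h
      rw [Complex.add_re, Complex.one_re, Complex.zero_re] at this
      linarith
    have e2 : K = (u : ℂ) ^ (-(α : ℂ)) * (1 + w) ^ (-(α : ℂ)) := by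
      rw [hKd, e1, Complex.cpow_def_of_ne_zero (mul_ne_zero huc hw1),
        Complex.cpow_def_of_ne_zero huc, Complex.cpow_def_of_ne_zero hw1,
        Complex.log_ofReal_mul hu0 hw1, ← Complex.exp_add, Complex.ofReal_log hu0.le, add_mul]
    have e3 : A * (u : ℂ) ^ (-(α : ℂ)) = U := by
      rw [hA, hU, ← Complex.cpow_add _ _ huc]
      congr 1
      push_cast
      ring
    have e4 : G1 * A * K * gη - g 1 * (A * K) - U * (G1 * gs - g 1) =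
        G1 * (A * K) * (gη - gs) + U * (G1 * gs - g 1) * ((1 + w) ^ (-(α : ℂ)) - 1) := by
      have : A * K = U * (1 + w) ^ (-(α : ℂ)) := by
        rw [e2, ← e3]
        ring
      linear_combination (G1 * gs - g 1) * this
    rw [e4]
    obtain ⟨X, hX⟩ : ∃ X : ℝ, X = √t * u ^ (-(1 / 2) : ℝ) := ⟨_, rfl⟩
    have hr0' : 0 ≤ X := by
      rw [hX]
      exact mul_nonneg (Real.sqrt_nonneg _) (Real.rpow_nonneg hu0.le _)
    have hr2 : X ^ 2 = t / u := by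
      rw [hX, mul_pow, Real.sq_sqrt ht.le, ← Real.rpow_natCast, ← Real.rpow_mul hu0.le]
      have : (-(1 / 2) : ℝ) * ((2 : ℕ) : ℝ) = -1 := by norm_num
      rw [this, Real.rpow_neg_one]
      rfl
    have hmin : ‖(1 + w) ^ (-(α : ℂ)) - 1‖ ≤ 2 * X := by
      rcases le_total X 1 with h | h
      · nlinarith
      · linarith
    refine (norm_add_le _ _).trans (add_le_add ?_ ?_)
    · rw [norm_mul, norm_mul]
      have a1 : ‖G1‖ * ‖A * K‖ ≤ 1 * ((t * κ) ^ (-α) * u ^ (α - 1)) :=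
        mul_le_mul hG1n hAK (norm_nonneg _) zero_le_one
      have a2 : ‖gη - gs‖ ≤ L * (2 * t) := hg3.trans (mul_le_mul_of_nonneg_left hηn hL.le)
      calc ‖G1‖ * ‖A * K‖ * ‖gη - gs‖ ≤ 1 * ((t * κ) ^ (-α) * u ^ (α - 1)) * (L * (2 * t)) :=
            mul_le_mul a1 a2 (norm_nonneg _) (by positivity)
        _ = _ := by ring
    · rw [norm_mul, norm_mul, hUn]
      have a1 : u⁻¹ * ‖G1 * gs - g 1‖ ≤ 9 * L := by
        calc u⁻¹ * ‖G1 * gs - g 1‖ ≤ u⁻¹ * (9 * L * u) :=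
              mul_le_mul_of_nonneg_left hh (by positivity)
          _ = 9 * L := by field_simp
      calc u⁻¹ * ‖G1 * gs - g 1‖ * ‖(1 + w) ^ (-(α : ℂ)) - 1‖ ≤ 9 * L * (2 * X) :=
            mul_le_mul a1 hmin (norm_nonneg _) (by positivity)
        _ = _ := by
          rw [hX]
          ring

theorem LTA2_cont {g : ℂ → ℂ} {r0 L : ℝ} (hg : Good g r0 L) {η : ℂ} (hη : ‖η‖ < r0) :
    AEStronglyMeasurable (fun u : ℝ => g (((1 - u : ℝ) : ℂ) / (1 + η)))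
      (volume.restrict (Ioc (0 : ℝ) 1)) := by
  refine ContinuousOn.aestronglyMeasurable ?_ measurableSet_Ioc
  intro u hu
  have h1 := ((hg.2.2.2 (1 - u) (by linarith [hu.2]) (by linarith [hu.1])).2 η hη).1
  have h2 : ContinuousAt (fun u : ℝ => ((1 - u : ℝ) : ℂ) / (1 + η)) u := by
    apply Continuous.continuousAt
    exact (Complex.continuous_ofReal.comp (continuous_const.sub continuous_id)).div_const _
  exact (ContinuousAt.comp (f := fun u : ℝ => ((1 - u : ℝ) : ℂ) / (1 + η)) h1.continuousAt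
    h2).continuousWithinAt

theorem t_LTA2 (hK2 : S_K2) : S_LTA2 := by
  intro α b g r0 L κ h0 h1 hb hb1 hg hκ ε hε
  have hL : 0 < L := hg.2.2.1
  have hr0 : 0 < r0 := hg.1
  have hJ1i : IntervalIntegrable (fun u : ℝ => u ^ (α - 1)) volume 0 1 :=
    intervalIntegral.intervalIntegrable_rpow' (by linarith)
  have hJ2i : IntervalIntegrable (fun u : ℝ => u ^ (-(1 / 2) : ℝ)) volume 0 1 :=
    intervalIntegral.intervalIntegrable_rpow' (by norm_num)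
  obtain ⟨J1, hJ1⟩ : ∃ J : ℝ, J = ∫ u in (0 : ℝ)..1, u ^ (α - 1) := ⟨_, rfl⟩
  obtain ⟨J2, hJ2⟩ : ∃ J : ℝ, J = ∫ u in (0 : ℝ)..1, u ^ (-(1 / 2) : ℝ) := ⟨_, rfl⟩
  obtain ⟨φ, hφ⟩ : ∃ φ : ℝ → ℝ, φ = fun t => 2 * L * κ ^ (-α) * J1 * t ^ (1 - α) +
    18 * L * J2 * √t := ⟨_, rfl⟩
  have hφc : ContinuousAt φ 0 := by
    rw [hφ]
    refine ContinuousAt.add ?_ ?_
    · exact continuousAt_const.mul (Real.continuousAt_rpow_const 0 (1 - α) (Or.inr (by linarith)))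
    · exact continuousAt_const.mul Real.continuous_sqrt.continuousAt
  have hφ0 : φ 0 = 0 := by
    rw [hφ]
    simp only [Real.sqrt_zero, mul_zero, add_zero]
    rw [Real.zero_rpow (by linarith), mul_zero]
  obtain ⟨δ, hδ, hδ2⟩ := Metric.continuousAt_iff.1 hφc ε hε
  refine ⟨min δ (r0 / 2), lt_min hδ (by linarith), ?_⟩
  intro t ht htt ξ hξ hξκ
  have htδ : t < δ := htt.trans_le (min_le_left _ _)
  have htr : 2 * t < r0 := by
    have := htt.trans_le (min_le_right _ _)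
    linarith
  have hφt : φ t ≤ ε := by
    have h := hδ2 (show dist t 0 < δ by rw [Real.dist_eq, sub_zero, abs_of_pos ht]; exact htδ)
    rw [hφ0, Real.dist_eq, sub_zero] at h
    exact (le_abs_self _).trans h.le
  have hηn : ‖(t : ℂ) * ξ‖ < r0 := by
    rw [norm_mul, Complex.norm_real, Real.norm_of_nonneg ht.le]
    nlinarith
  have hne : ∀ᵐ u : ℝ, u ≠ 1 := by
    have := (Set.countable_singleton (1 : ℝ)).ae_notMem volume
    filter_upwards [this] with u hu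
    exact hu
  have hcond : ∀ u : ℝ, u ≠ 1 → u ∈ Set.Ioc (0 : ℝ) 1 → 0 < u ∧ u < 1 := fun u h2 h3 =>
    ⟨h3.1, lt_of_le_of_ne h3.2 h2⟩
  have hmG : AEStronglyMeasurable (fun u : ℝ => ((1 - u : ℝ) : ℂ) ^
      (((1 - α : ℝ) : ℂ) + (b : ℂ) * I)) (volume.restrict (Ioc (0 : ℝ) 1)) :=
    (Measurable.pow_const (Complex.measurable_ofReal.comp (measurable_const.sub measurable_id))
      _).aestronglyMeasurable
  have hmA : AEStronglyMeasurable (fun u : ℝ => (u : ℂ) ^ (((α - 1 : ℝ) : ℂ) - (b : ℂ) * I))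
      (volume.restrict (Ioc (0 : ℝ) 1)) :=
    (Complex.measurable_ofReal.pow_const _).aestronglyMeasurable
  have hmK : AEStronglyMeasurable (fun u : ℝ => ((u : ℂ) + (t : ℂ) * ξ) ^ (-(α : ℂ)))
      (volume.restrict (Ioc (0 : ℝ) 1)) :=
    ((Complex.measurable_ofReal.add measurable_const).pow_const _).aestronglyMeasurable
  have hmU : AEStronglyMeasurable (fun u : ℝ => (u : ℂ) ^ (-1 - (b : ℂ) * I))
      (volume.restrict (Ioc (0 : ℝ) 1)) :=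
    (Complex.measurable_ofReal.pow_const _).aestronglyMeasurable
  have hmg := LTA2_cont hg hηn
  have hmg0 : AEStronglyMeasurable (fun u : ℝ => g ((1 - u : ℝ) : ℂ))
      (volume.restrict (Ioc (0 : ℝ) 1)) := by
    have := LTA2_cont hg (η := 0) (by rw [norm_zero]; exact hr0)
    simpa using this
  have hi1 : IntervalIntegrable (fun u : ℝ => (u : ℂ) ^ (((α - 1 : ℝ) : ℂ) - (b : ℂ) * I) *
      ((u : ℂ) + (t : ℂ) * ξ) ^ (-(α : ℂ))) volume 0 1 := by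
    refine (hJ1i.const_mul ((t * κ) ^ (-α))).mono_fun' ?_ ?_
    · rw [Set.uIoc_of_le zero_le_one]
      exact hmA.mul hmK
    · rw [Set.uIoc_of_le zero_le_one]
      refine (ae_restrict_iff' measurableSet_Ioc).2 ?_
      filter_upwards [hne] with u h2 h3
      obtain ⟨h4, h5⟩ := hcond u h2 h3
      exact (LTA2_bound hK2 h0 h1 hb hb1 hg hκ ht htr hξ hξκ h4 h5).1
  have hi2 : IntervalIntegrable (fun u : ℝ => ((1 - u : ℝ) : ℂ) ^
      (((1 - α : ℝ) : ℂ) + (b : ℂ) * I) * (u : ℂ) ^ (((α - 1 : ℝ) : ℂ) - (b : ℂ) * I) *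
      ((u : ℂ) + (t : ℂ) * ξ) ^ (-(α : ℂ)) * g (((1 - u : ℝ) : ℂ) / (1 + (t : ℂ) * ξ)))
      volume 0 1 := by
    refine ((hJ1i.const_mul ((t * κ) ^ (-α))).const_mul L).mono_fun' ?_ ?_
    · rw [Set.uIoc_of_le zero_le_one]
      exact ((hmG.mul hmA).mul hmK).mul hmg
    · rw [Set.uIoc_of_le zero_le_one]
      refine (ae_restrict_iff' measurableSet_Ioc).2 ?_
      filter_upwards [hne] with u h2 h3
      obtain ⟨h4, h5⟩ := hcond u h2 h3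
      exact (LTA2_bound hK2 h0 h1 hb hb1 hg hκ ht htr hξ hξκ h4 h5).2.1
  have hi3 : IntervalIntegrable (fun u : ℝ => (u : ℂ) ^ (-1 - (b : ℂ) * I) *
      (((1 - u : ℝ) : ℂ) ^ (((1 - α : ℝ) : ℂ) + (b : ℂ) * I) * g ((1 - u : ℝ) : ℂ) - g 1))
      volume 0 1 := by
    refine (intervalIntegrable_const (c := 9 * L)).mono_fun' ?_ ?_
    · rw [Set.uIoc_of_le zero_le_one]
      exact hmU.mul ((hmG.mul hmg0).sub aestronglyMeasurable_const)
    · rw [Set.uIoc_of_le zero_le_one]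
      refine (ae_restrict_iff' measurableSet_Ioc).2 ?_
      filter_upwards [hne] with u h2 h3
      obtain ⟨h4, h5⟩ := hcond u h2 h3
      exact (LTA2_bound hK2 h0 h1 hb hb1 hg hκ ht htr hξ hξκ h4 h5).2.2.1
  unfold La Mh
  rw [← intervalIntegral.integral_const_mul, ← intervalIntegral.integral_sub hi2
    (hi1.const_mul (g 1)), ← intervalIntegral.integral_sub (hi2.sub (hi1.const_mul (g 1))) hi3]
  have hbd := intervalIntegral.norm_integral_le_of_norm_le (a := 0) (b := 1) (μ := volume)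
    (f := fun u : ℝ => ((1 - u : ℝ) : ℂ) ^ (((1 - α : ℝ) : ℂ) + (b : ℂ) * I) *
      (u : ℂ) ^ (((α - 1 : ℝ) : ℂ) - (b : ℂ) * I) *
      ((u : ℂ) + (t : ℂ) * ξ) ^ (-(α : ℂ)) * g (((1 - u : ℝ) : ℂ) / (1 + (t : ℂ) * ξ)) -
      g 1 * ((u : ℂ) ^ (((α - 1 : ℝ) : ℂ) - (b : ℂ) * I) *
        ((u : ℂ) + (t : ℂ) * ξ) ^ (-(α : ℂ))) -
      (u : ℂ) ^ (-1 - (b : ℂ) * I) * (((1 - u : ℝ) : ℂ) ^ (((1 - α : ℝ) : ℂ) + (b : ℂ) * I) *
      g ((1 - u : ℝ) : ℂ) - g 1))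
    (g := fun u => 2 * L * t * (t * κ) ^ (-α) * u ^ (α - 1) + 18 * L * √t * u ^ (-(1 / 2) : ℝ))
    zero_le_one (by
      filter_upwards [hne] with u h2 h3
      obtain ⟨h4, h5⟩ := hcond u h2 h3
      exact (LTA2_bound hK2 h0 h1 hb hb1 hg hκ ht htr hξ hξκ h4 h5).2.2.2)
    ((hJ1i.const_mul _).add (hJ2i.const_mul _))
  refine hbd.trans ?_
  rw [intervalIntegral.integral_add (hJ1i.const_mul _) (hJ2i.const_mul _),
    intervalIntegral.integral_const_mul, intervalIntegral.integral_const_mul, ← hJ1, ← hJ2]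
  have hpow : t * (t * κ) ^ (-α) = κ ^ (-α) * t ^ (1 - α) := by
    rw [Real.mul_rpow ht.le hκ.le]
    have h5 : t ^ (1 - α) = t * t ^ (-α) := by
      rw [sub_eq_add_neg, Real.rpow_add ht, Real.rpow_one]
    rw [h5]
    ring
  have hfin : 2 * L * t * (t * κ) ^ (-α) * J1 + 18 * L * √t * J2 = φ t := by
    rw [hφ]
    show _ = 2 * L * κ ^ (-α) * J1 * t ^ (1 - α) + 18 * L * J2 * √t
    linear_combination 2 * L * J1 * hpow
  rw [hfin]
  exact hφt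

end Pool.Agent.H212.SG
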