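import Mathlib
import Pool.Agent.H212.SG.Stm

open Complex Set Filter Topology MeasureTheory
open scoped ComplexConjugate

namespace Pool.Agent.H212.SG
open Pool.Agent.H212.SN

noncomputable def NI_F (α : ℝ) (ξ : ℂ) (v : ℝ) : ℂ :=
  (v : ℂ) ^ ((α - 1 : ℝ) : ℂ) * ((v : ℂ) + ξ) ^ (-(α : ℂ))

noncomputable def NI_F' (α : ℝ) (ξ : ℂ) (v : ℝ) : ℂ :=
  (v : ℂ) ^ ((α - 1 : ℝ) : ℂ) * ((-(α : ℂ)) * ((v : ℂ) + ξ) ^ (-(α : ℂ) - 1))

lemma NI_slit {ξ : ℂ} (h : 0 < ξ.re) {v : ℝ} (hv : 0 ≤ v) : (v : ℂ) + ξ ∈ Complex.slitPlane := by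
  left
  simp
  linarith

lemma NI_mul {v : ℝ} (hv : 0 < v) {z : ℂ} (hz : z ≠ 0) (e : ℂ) : ((v : ℂ) * z) ^ e = (v : ℂ) ^ e * z ^ e := by
  have hvc : (v : ℂ) ≠ 0 := by exact_mod_cast hv.ne'
  rw [Complex.cpow_def_of_ne_zero (mul_ne_zero hvc hz), Complex.cpow_def_of_ne_zero hvc, Complex.cpow_def_of_ne_zero hz,
    Complex.log_ofReal_mul hv hz, Complex.ofReal_log hv.le, add_mul, Complex.exp_add]

lemma NI_ne {v : ℝ} (hv : 0 < v) {ξ : ℂ} (h : 0 < ξ.re) : 1 + ξ / (v : ℂ) ≠ 0 := by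
  intro h0
  have h1 : (1 + ξ / (v : ℂ)).re = 0 := by rw [h0]; rfl
  rw [Complex.add_re, Complex.div_ofReal_re, Complex.one_re] at h1
  have : 0 < ξ.re / v := by positivity
  linarith

lemma NI_contv (α : ℝ) : ContinuousOn (fun v : ℝ => (v : ℂ) ^ ((α - 1 : ℝ) : ℂ)) (Ioi 0) := by
  intro v hv
  exact (Complex.continuousAt_ofReal_cpow_const v _ (Or.inr (ne_of_gt hv))).continuousWithinAt

lemma NI_contx (e : ℂ) {ξ : ℂ} (h : 0 < ξ.re) : ContinuousOn (fun v : ℝ => ((v : ℂ) + ξ) ^ e) (Ici 0) := by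
  intro v hv
  have h1 : ContinuousAt (fun v : ℝ => (v : ℂ) + ξ) v := by fun_prop
  exact (h1.cpow continuousAt_const (NI_slit h hv)).continuousWithinAt

lemma NI_contF (α : ℝ) {ξ : ℂ} (h : 0 < ξ.re) : ContinuousOn (NI_F α ξ) (Ioi 0) :=
  (NI_contv α).mul ((NI_contx _ h).mono Ioi_subset_Ici_self)

lemma NI_contF' (α : ℝ) {ξ : ℂ} (h : 0 < ξ.re) : ContinuousOn (NI_F' α ξ) (Ioi 0) :=
  (NI_contv α).mul (continuousOn_const.mul ((NI_contx _ h).mono Ioi_subset_Ici_self))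

lemma NI_bint (α κ : ℝ) (hα : 0 < α) (hκ : 0 < κ) :
    IntegrableOn (fun v : ℝ => v ^ (α - 1) * (α * (v + κ) ^ (-α - 1))) (Ioi 0) := by
  have hg : ∀ v ∈ Ioi (0 : ℝ), HasDerivAt (fun v : ℝ => v ^ α * (v + κ) ^ (-α) / κ)
      (v ^ (α - 1) * (α * (v + κ) ^ (-α - 1))) v := by
    intro v hv
    have hv' : (0 : ℝ) < v := hv
    have h1 : HasDerivAt (fun v : ℝ => v ^ α) (α * v ^ (α - 1)) v :=
      Real.hasDerivAt_rpow_const (Or.inl hv'.ne')
    have h2 : HasDerivAt (fun v : ℝ => (v + κ) ^ (-α)) ((-α) * (v + κ) ^ (-α - 1)) v := by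
      have h3 : HasDerivAt (fun v : ℝ => v + κ) 1 v := (hasDerivAt_id v).add_const κ
      have := h3.rpow_const (p := -α) (Or.inl (by positivity))
      convert this using 1
      ring
    refine HasDerivAt.congr_deriv ((h1.mul h2).div_const κ) ?_
    have h4 : (v + κ) ^ (-α) = (v + κ) ^ (-α - 1) * (v + κ) := by
      rw [← Real.rpow_add_one (by positivity)]; congr 1; ring
    have h5 : v ^ α = v ^ (α - 1) * v := by
      rw [← Real.rpow_add_one (by positivity)]; congr 1; ring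
    rw [h4, h5]
    field_simp
    ring
  refine integrableOn_Ioi_deriv_of_nonneg (g := fun v : ℝ => v ^ α * (v + κ) ^ (-α) / κ) (l := 1 / κ) ?_ hg ?_ ?_
  · apply ContinuousAt.continuousWithinAt
    apply ContinuousAt.div_const
    apply ContinuousAt.mul
    · exact Real.continuousAt_rpow_const _ _ (Or.inr hα.le)
    · exact ContinuousAt.rpow_const (by fun_prop) (Or.inl (by simpa using hκ.ne'))
  · intro v hv
    have hv' : (0 : ℝ) < v := hv
    positivity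
  · have h1 : Tendsto (fun v : ℝ => (1 + κ / v) ^ (-α) / κ) atTop (𝓝 ((1 + 0) ^ (-α) / κ)) := by
      apply Tendsto.div_const
      apply Tendsto.rpow_const
      · exact tendsto_const_nhds.add (tendsto_const_nhds.div_atTop tendsto_id)
      · left; norm_num
    rw [add_zero, Real.one_rpow] at h1
    refine h1.congr' ?_
    filter_upwards [eventually_gt_atTop 0] with v hv
    have h2 : v + κ = v * (1 + κ / v) := by field_simp
    rw [h2, Real.mul_rpow hv.le (by positivity), ← mul_assoc, ← Real.rpow_add hv]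
    simp

lemma NI_deriv (α : ℝ) (hα : 0 < α) (ξ0 : ℂ) (hξ : 0 < ξ0.re) (S : Set ℝ) (hS : MeasurableSet S)
    (hSs : S ⊆ Ioi 0) (c : ℝ → ℂ) (hc : ContinuousOn c (Ioi 0))
    (hint : IntegrableOn (fun v : ℝ => NI_F α ξ0 v - c v) S) :
    HasDerivAt (fun ξ : ℂ => ∫ v in S, (NI_F α ξ v - c v)) (∫ v in S, NI_F' α ξ0 v) ξ0 := by
  have hnhds : {ξ : ℂ | ξ0.re / 2 < ξ.re} ∈ 𝓝 ξ0 := by
    apply (isOpen_lt continuous_const Complex.continuous_re).mem_nhds
    show ξ0.re / 2 < ξ0.re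
    linarith
  have hmeas : ∀ f : ℝ → ℂ, ContinuousOn f (Ioi 0) → AEStronglyMeasurable f (volume.restrict S) :=
    fun f hf => (hf.mono hSs).aestronglyMeasurable hS
  refine (hasDerivAt_integral_of_dominated_loc_of_deriv_le (μ := volume.restrict S)
    (F := fun ξ v => NI_F α ξ v - c v) (F' := fun ξ v => NI_F' α ξ v)
    (bound := fun v : ℝ => v ^ (α - 1) * (α * (v + ξ0.re / 2) ^ (-α - 1))) hnhds ?_ hint ?_ ?_ ?_ ?_).2
  · filter_upwards [hnhds] with ξ hξ'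
    have : 0 < ξ.re := by
      have : ξ0.re / 2 < ξ.re := hξ'
      linarith
    exact hmeas _ ((NI_contF α this).sub hc)
  · exact hmeas _ (NI_contF' α hξ)
  · filter_upwards [ae_restrict_mem hS] with v hv ξ hξ'
    have hv' : (0 : ℝ) < v := hSs hv
    have hξ'' : ξ0.re / 2 < ξ.re := hξ'
    have hx : 0 < ξ.re := by linarith
    unfold NI_F'
    have e1 : (-(α : ℂ) - 1) = ((-α - 1 : ℝ) : ℂ) := by push_cast; ring
    rw [norm_mul, norm_mul, norm_neg, e1, Complex.norm_cpow_real, Complex.norm_cpow_real, Complex.norm_real,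
      Complex.norm_real, Real.norm_of_nonneg hv'.le, Real.norm_of_nonneg hα.le]
    have h3 : v + ξ0.re / 2 ≤ ‖(v : ℂ) + ξ‖ := by
      refine le_trans ?_ (Complex.re_le_norm _)
      simp
      linarith
    have h4 : ‖(v : ℂ) + ξ‖ ^ (-α - 1) ≤ (v + ξ0.re / 2) ^ (-α - 1) :=
      Real.rpow_le_rpow_of_nonpos (by positivity) h3 (by linarith)
    gcongr
  · exact (NI_bint α (ξ0.re / 2) hα (by linarith)).mono_set hSs
  · filter_upwards [ae_restrict_mem hS] with v hv ξ hξ'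
    have hv' : (0 : ℝ) < v := hSs hv
    have hξ'' : ξ0.re / 2 < ξ.re := hξ'
    have hx : 0 < ξ.re := by linarith
    have h1 : HasDerivAt (fun ξ : ℂ => (v : ℂ) + ξ) 1 ξ := (hasDerivAt_id ξ).const_add _
    have h2 := (h1.cpow_const (c := -(α : ℂ)) (NI_slit hx hv'.le)).const_mul ((v : ℂ) ^ ((α - 1 : ℝ) : ℂ))
    have h3 := h2.sub_const (c v)
    rw [mul_one] at h3
    exact h3

lemma NI_F'int (α : ℝ) (hα : 0 < α) (ξ : ℂ) (hξ : 0 < ξ.re) : IntegrableOn (NI_F' α ξ) (Ioi 0) := by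
  refine (NI_bint α ξ.re hα hξ).mono' ((NI_contF' α hξ).aestronglyMeasurable measurableSet_Ioi) ?_
  filter_upwards [ae_restrict_mem measurableSet_Ioi] with v hv
  have hv' : (0 : ℝ) < v := hv
  unfold NI_F'
  have e1 : (-(α : ℂ) - 1) = ((-α - 1 : ℝ) : ℂ) := by push_cast; ring
  rw [norm_mul, norm_mul, norm_neg, e1, Complex.norm_cpow_real, Complex.norm_cpow_real, Complex.norm_real,
    Complex.norm_real, Real.norm_of_nonneg hv'.le, Real.norm_of_nonneg hα.le]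
  have h3 : v + ξ.re ≤ ‖(v : ℂ) + ξ‖ := by
    refine le_trans ?_ (Complex.re_le_norm _)
    simp
  have h4 : ‖(v : ℂ) + ξ‖ ^ (-α - 1) ≤ (v + ξ.re) ^ (-α - 1) :=
    Real.rpow_le_rpow_of_nonpos (by positivity) h3 (by linarith)
  gcongr

lemma NI_F'val (α : ℝ) (hα : 0 < α) (ξ : ℂ) (hξ : 0 < ξ.re) : ∫ v in Ioi (0 : ℝ), NI_F' α ξ v = -1 / ξ := by
  have hξ0 : ξ ≠ 0 := by rintro rfl; simp at hξ
  have hαc : (α : ℂ) ≠ 0 := by exact_mod_cast hα.ne'
  have key := integral_Ioi_of_hasDerivAt_of_tendsto (a := 0)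
    (f := fun v : ℝ => -((v : ℂ) ^ (α : ℂ) * ((v : ℂ) + ξ) ^ (-(α : ℂ)) / ξ)) (f' := NI_F' α ξ) (m := -(1 / ξ))
    ?_ ?_ (NI_F'int α hα ξ hξ) ?_
  · rw [key]
    simp [hαc]
    ring
  · apply ContinuousAt.continuousWithinAt
    apply ContinuousAt.neg
    apply ContinuousAt.div_const
    apply ContinuousAt.mul
    · exact Complex.continuousAt_ofReal_cpow_const 0 _ (Or.inl (by simpa using hα))
    · exact ContinuousAt.cpow (by fun_prop) continuousAt_const (NI_slit hξ le_rfl)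
  · intro v hv
    have hv' : (0 : ℝ) < v := hv
    have hvc : (v : ℂ) ≠ 0 := by exact_mod_cast hv'.ne'
    have h1 : HasDerivAt (fun v : ℝ => (v : ℂ) ^ (α : ℂ)) ((α : ℂ) * (v : ℂ) ^ ((α : ℂ) - 1)) v := by
      have h0 : HasDerivAt (fun z : ℂ => z ^ (α : ℂ)) ((α : ℂ) * (v : ℂ) ^ ((α : ℂ) - 1) * 1) (v : ℂ) :=
        (hasDerivAt_id (v : ℂ)).cpow_const (Or.inl (by simpa using hv'))
      rw [mul_one] at h0
      exact h0.comp_ofReal
    have h2 : HasDerivAt (fun v : ℝ => ((v : ℂ) + ξ) ^ (-(α : ℂ))) ((-(α : ℂ)) * ((v : ℂ) + ξ) ^ (-(α : ℂ) - 1)) v := by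
      have h0 : HasDerivAt (fun z : ℂ => (z + ξ) ^ (-(α : ℂ))) ((-(α : ℂ)) * ((v : ℂ) + ξ) ^ (-(α : ℂ) - 1) * 1) (v : ℂ) :=
        ((hasDerivAt_id (v : ℂ)).add_const ξ).cpow_const (NI_slit hξ hv'.le)
      rw [mul_one] at h0
      exact h0.comp_ofReal
    have h3 := ((h1.mul h2).div_const ξ).neg
    refine HasDerivAt.congr_deriv h3 ?_
    unfold NI_F'
    have hs : (v : ℂ) + ξ ≠ 0 := Complex.slitPlane_ne_zero (NI_slit hξ hv'.le)
    have h4 : ((v : ℂ) + ξ) ^ (-(α : ℂ)) = ((v : ℂ) + ξ) ^ (-(α : ℂ) - 1) * ((v : ℂ) + ξ) := by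
      rw [Complex.cpow_sub _ _ hs, Complex.cpow_one]; field_simp
    have h5 : (v : ℂ) ^ (α : ℂ) = (v : ℂ) ^ ((α : ℂ) - 1) * (v : ℂ) := by
      rw [Complex.cpow_sub _ _ hvc, Complex.cpow_one]; field_simp
    rw [h4, h5]
    push_cast
    field_simp
    ring
  · have h1 : Tendsto (fun v : ℝ => -((1 + ξ / (v : ℂ)) ^ (-(α : ℂ)) / ξ)) atTop (𝓝 (-((1 + 0) ^ (-(α : ℂ)) / ξ))) := by
      apply Tendsto.neg
      apply Tendsto.div_const
      have h2 : Tendsto (fun v : ℝ => 1 + ξ / (v : ℂ)) atTop (𝓝 (1 + 0)) := by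
        apply tendsto_const_nhds.add
        have h3 : Tendsto (fun v : ℝ => ((v⁻¹ : ℝ) : ℂ)) atTop (𝓝 ((0 : ℝ) : ℂ)) :=
          (Complex.continuous_ofReal.tendsto 0).comp tendsto_inv_atTop_zero
        have h4 := h3.const_mul ξ
        simp only [Complex.ofReal_zero, mul_zero] at h4
        refine h4.congr ?_
        intro v
        rw [Complex.ofReal_inv, div_eq_mul_inv]
      exact ((continuousAt_id (x := (1 + 0 : ℂ))).cpow continuousAt_const (by simp)).tendsto.comp h2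
    rw [add_zero, Complex.one_cpow] at h1
    refine h1.congr' ?_
    filter_upwards [eventually_gt_atTop 0] with v hv
    have hvc : (v : ℂ) ≠ 0 := by exact_mod_cast hv.ne'
    have h2 : (v : ℂ) + ξ = (v : ℂ) * (1 + ξ / (v : ℂ)) := by field_simp
    rw [h2, NI_mul hv (NI_ne hv hξ), ← mul_assoc, ← Complex.cpow_add _ _ hvc]
    simp

lemma NI_K2 (α : ℝ) (z : ℂ) (hα : 0 < α) (hα1 : α < 1) (hz : 0 ≤ z.re) : ‖(1 + z) ^ (-(α : ℂ)) - 1‖ ≤ ‖z‖ := by
  have hconv : Convex ℝ {z : ℂ | 0 ≤ z.re} := convex_halfSpace_re_ge 0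
  have h := hconv.norm_image_sub_le_of_norm_hasDerivWithin_le (𝕜 := ℂ) (f := fun z : ℂ => (1 + z) ^ (-(α : ℂ)))
    (f' := fun z : ℂ => (-(α : ℂ)) * (1 + z) ^ (-(α : ℂ) - 1)) (C := 1) (x := 0) (y := z) ?_ ?_ (by simp) hz
  · simpa using h
  · intro w hw
    have hw' : 0 ≤ w.re := hw
    have h1 : HasDerivAt (fun z : ℂ => 1 + z) 1 w := (hasDerivAt_id w).const_add _
    have h2 := h1.cpow_const (c := -(α : ℂ)) (Or.inl (by simp; linarith))
    rw [mul_one] at h2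
    exact h2.hasDerivWithinAt
  · intro w hw
    have hw' : 0 ≤ w.re := hw
    have e1 : (-(α : ℂ) - 1) = ((-α - 1 : ℝ) : ℂ) := by push_cast; ring
    rw [norm_mul, norm_neg, e1, Complex.norm_cpow_real, Complex.norm_real, Real.norm_of_nonneg hα.le]
    have h3 : 1 ≤ ‖1 + w‖ := by
      refine le_trans ?_ (Complex.re_le_norm _)
      simp
      linarith
    have h4 : ‖1 + w‖ ^ (-α - 1) ≤ 1 := Real.rpow_le_one_of_one_le_of_nonpos h3 (by linarith)
    have h5 : 0 ≤ ‖1 + w‖ ^ (-α - 1) := by positivity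
    nlinarith

lemma NI_int1 (α : ℝ) (hα : 0 < α) (ξ : ℂ) (hξ : 0 < ξ.re) : IntegrableOn (NI_F α ξ) (Ioc 0 1) := by
  have h1 : IntegrableOn (fun v : ℝ => v ^ (α - 1)) (Ioc 0 1) := by
    have := intervalIntegral.intervalIntegrable_rpow' (a := 0) (b := 1) (r := α - 1) (by linarith)
    rwa [intervalIntegrable_iff_integrableOn_Ioc_of_le zero_le_one] at this
  refine (h1.mul_const (ξ.re ^ (-α))).mono' (((NI_contF α hξ).mono Ioc_subset_Ioi_self).aestronglyMeasurable measurableSet_Ioc) ?_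
  filter_upwards [ae_restrict_mem measurableSet_Ioc] with v hv
  have hv' : (0 : ℝ) < v := hv.1
  unfold NI_F
  have e1 : (-(α : ℂ)) = ((-α : ℝ) : ℂ) := by push_cast; ring
  rw [norm_mul, e1, Complex.norm_cpow_real, Complex.norm_cpow_real, Complex.norm_real, Real.norm_of_nonneg hv'.le]
  have h3 : ξ.re ≤ ‖(v : ℂ) + ξ‖ := by
    refine le_trans ?_ (Complex.re_le_norm _)
    simp
    linarith
  have h4 : ‖(v : ℂ) + ξ‖ ^ (-α) ≤ ξ.re ^ (-α) :=
    Real.rpow_le_rpow_of_nonpos hξ h3 (by linarith)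
  gcongr

lemma NI_int2 (α : ℝ) (hα : 0 < α) (hα1 : α < 1) (ξ : ℂ) (hξ : 0 < ξ.re) :
    IntegrableOn (fun v : ℝ => NI_F α ξ v - (v : ℂ) ^ (-1 : ℂ)) (Ioi 1) := by
  have h1 : IntegrableOn (fun v : ℝ => v ^ (-2 : ℝ)) (Ioi 1) := integrableOn_Ioi_rpow_of_lt (by norm_num) one_pos
  have hc : ContinuousOn (fun v : ℝ => NI_F α ξ v - (v : ℂ) ^ (-1 : ℂ)) (Ioi 1) := by
    apply ContinuousOn.sub
    · exact (NI_contF α hξ).mono (Ioi_subset_Ioi zero_le_one)
    · intro v hv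
      have hv' : (1 : ℝ) < v := hv
      exact (Complex.continuousAt_ofReal_cpow_const v _ (Or.inr (by positivity))).continuousWithinAt
  refine (h1.mul_const (‖ξ‖)).mono' (hc.aestronglyMeasurable measurableSet_Ioi) ?_
  filter_upwards [ae_restrict_mem measurableSet_Ioi] with v hv
  have hv' : (1 : ℝ) < v := hv
  have hv0 : (0 : ℝ) < v := by linarith
  have hvc : (v : ℂ) ≠ 0 := by exact_mod_cast hv0.ne'
  have h2 : (v : ℂ) + ξ = (v : ℂ) * (1 + ξ / (v : ℂ)) := by field_simp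
  have h3 : NI_F α ξ v - (v : ℂ) ^ (-1 : ℂ) = (v : ℂ)⁻¹ * ((1 + ξ / (v : ℂ)) ^ (-(α : ℂ)) - 1) := by
    unfold NI_F
    rw [h2, NI_mul hv0 (NI_ne hv0 hξ), ← mul_assoc, ← Complex.cpow_add _ _ hvc]
    have e2 : ((α - 1 : ℝ) : ℂ) + -(α : ℂ) = -1 := by push_cast; ring
    rw [e2, Complex.cpow_neg_one]
    ring
  rw [h3, norm_mul, norm_inv, Complex.norm_real, Real.norm_of_nonneg hv0.le]
  have h4 := NI_K2 α (ξ / (v : ℂ)) hα hα1 (by
    rw [Complex.div_ofReal_re]; positivity)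
  rw [norm_div, Complex.norm_real, Real.norm_of_nonneg hv0.le] at h4
  have h5 : v ^ (-2 : ℝ) = v⁻¹ * v⁻¹ := by
    rw [← Real.rpow_neg_one, ← Real.rpow_add hv0]; norm_num
  rw [h5, mul_assoc]
  have : v⁻¹ * ‖ξ‖ = ‖ξ‖ / v := by ring
  rw [this]
  gcongr

lemma NI_eq (α : ℝ) (ξ : ℂ) : Nh α 0 ξ = (∫ v in Ioc (0 : ℝ) 1, (NI_F α ξ v - 0)) +
    ∫ v in Ioi (1 : ℝ), (NI_F α ξ v - (v : ℂ) ^ (-1 : ℂ)) := by
  unfold Nh NI_F
  rw [intervalIntegral.integral_of_le zero_le_one]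
  simp only [Complex.ofReal_zero, zero_mul, sub_zero]

lemma NI_hd (α : ℝ) (hα : 0 < α) (hα1 : α < 1) (ξ : ℂ) (hξ : 0 < ξ.re) : HasDerivAt (Nh α 0) (-1 / ξ) ξ := by
  have e : Nh α 0 = fun ξ => (∫ v in Ioc (0 : ℝ) 1, (NI_F α ξ v - 0)) +
    ∫ v in Ioi (1 : ℝ), (NI_F α ξ v - (v : ℂ) ^ (-1 : ℂ)) := funext (NI_eq α)
  have h1 := NI_deriv α hα ξ hξ (Ioc 0 1) measurableSet_Ioc Ioc_subset_Ioi_self (fun _ => 0) continuousOn_const
    (by simpa using NI_int1 α hα ξ hξ)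
  have h2 := NI_deriv α hα ξ hξ (Ioi 1) measurableSet_Ioi (Ioi_subset_Ioi zero_le_one) (fun v => (v : ℂ) ^ (-1 : ℂ))
    (fun v hv => (Complex.continuousAt_ofReal_cpow_const v _ (Or.inr (ne_of_gt hv))).continuousWithinAt)
    (NI_int2 α hα hα1 ξ hξ)
  rw [e]
  refine HasDerivAt.congr_deriv (h1.add h2) ?_
  rw [← NI_F'val α hα ξ hξ, ← setIntegral_union (by
    rw [Set.disjoint_left]; intro x hx hx'; exact absurd hx.2 (not_le.mpr hx')) measurableSet_Ioi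
    ((NI_F'int α hα ξ hξ).mono_set Ioc_subset_Ioi_self) ((NI_F'int α hα ξ hξ).mono_set (Ioi_subset_Ioi zero_le_one)),
    Ioc_union_Ioi_eq_Ioi zero_le_one]

theorem t_NI : S_NI := by
  intro α hα hα1
  constructor
  · rw [NI_eq]
    have h1 : ∫ v in Ioc (0 : ℝ) 1, (NI_F α 1 v - 0) = ((∫ v in Ioc (0 : ℝ) 1, (v ^ (α - 1) * (v + 1) ^ (-α)) : ℝ) : ℂ) := by
      rw [← integral_complex_ofReal]
      refine setIntegral_congr_fun measurableSet_Ioc ?_
      intro v hv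
      have hv' : (0 : ℝ) < v := hv.1
      simp only [NI_F, sub_zero]
      rw [Complex.ofReal_mul, Complex.ofReal_cpow hv'.le, Complex.ofReal_cpow (by positivity)]
      push_cast
      rfl
    have h2 : ∫ v in Ioi (1 : ℝ), (NI_F α 1 v - (v : ℂ) ^ (-1 : ℂ)) =
        ((∫ v in Ioi (1 : ℝ), (v ^ (α - 1) * (v + 1) ^ (-α) - v ^ (-1 : ℝ)) : ℝ) : ℂ) := by
      rw [← integral_complex_ofReal]
      refine setIntegral_congr_fun measurableSet_Ioi ?_
      intro v hv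
      have hv1 : (1 : ℝ) < v := hv
      have hv' : (0 : ℝ) < v := by linarith
      simp only [NI_F]
      have e : ((v ^ (α - 1) * (v + 1) ^ (-α) - v ^ (-1 : ℝ) : ℝ) : ℂ) =
          (v : ℂ) ^ ((α - 1 : ℝ) : ℂ) * ((v + 1 : ℝ) : ℂ) ^ ((-α : ℝ) : ℂ) - (v : ℂ) ^ ((-1 : ℝ) : ℂ) := by
        rw [Complex.ofReal_sub, Complex.ofReal_mul, Complex.ofReal_cpow hv'.le, Complex.ofReal_cpow (by positivity),
          Complex.ofReal_cpow hv'.le]
      rw [e]
      push_cast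
      rfl
    rw [h1, h2, ← Complex.ofReal_add]
    exact Complex.ofReal_im _
  · intro ξ hξ
    have hopen : IsOpen {z : ℂ | 0 < z.re} := isOpen_lt continuous_const Complex.continuous_re
    have hpre : IsPreconnected {z : ℂ | 0 < z.re} := (convex_halfSpace_re_gt 0).isPreconnected
    have hd : ∀ z : ℂ, 0 < z.re → HasDerivAt (fun z => Nh α 0 z + Complex.log z) 0 z := by
      intro z hz
      have h := (NI_hd α hα hα1 z hz).add (Complex.hasDerivAt_log (Or.inl hz))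
      refine HasDerivAt.congr_deriv h ?_
      ring
    have hk := hopen.is_const_of_deriv_eq_zero hpre
      (fun z hz => (hd z hz).differentiableAt.differentiableWithinAt) (fun z hz => (hd z hz).deriv) hξ
      (show (1 : ℂ) ∈ {z : ℂ | 0 < z.re} by simp)
    simp only [Complex.log_one, add_zero] at hk
    rw [← hk]
    ring

end Pool.Agent.H212.SG
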