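import Pool.Agent.H212.SG.Stm

open Complex Set Filter Topology MeasureTheory
open scoped ComplexConjugate

namespace Pool.Agent.H212.SG
open Pool.Agent.H212.SN

theorem STAR2_re_gt (w : ℂ) (hw : ‖w‖ < 1) : -(1 / 2) < (w / (1 - w)).re := by
  have h1 : w.re * w.re + w.im * w.im < 1 := by
    rw [← Complex.normSq_apply, ← Complex.sq_norm]
    nlinarith [norm_nonneg w]
  have h2 : w ≠ 1 := by
    rintro rfl
    simp at hw
  have h3 : 0 < Complex.normSq (1 - w) := Complex.normSq_pos.2 (sub_ne_zero.2 h2.symm)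
  rw [Complex.div_re, ← add_div, lt_div_iff₀ h3, Complex.normSq_apply]
  simp only [Complex.sub_re, Complex.one_re, Complex.sub_im, Complex.one_im]
  nlinarith

theorem STAR2_pos (x z : ℂ) (hx : ‖x‖ = 1) (hz : ‖z‖ < 1) : 0 < (1 - x * z).re := by
  have h1 : ‖x * z‖ < 1 := by
    rw [norm_mul, hx, one_mul]
    exact hz
  have h2 := Complex.abs_re_le_norm (x * z)
  have h3 := le_abs_self (x * z).re
  rw [Complex.sub_re, Complex.one_re]
  linarith

theorem STAR2_ne (x z : ℂ) (hx : ‖x‖ = 1) (hz : ‖z‖ < 1) : 1 - x * z ≠ 0 := by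
  intro h
  have h1 := STAR2_pos x z hx hz
  rw [h] at h1
  simp at h1

theorem STAR2_lin (x z : ℂ) : HasDerivAt (fun z : ℂ => 1 - x * z) (-x) z := by
  have h := ((hasDerivAt_id z).const_mul x).const_sub 1
  rw [mul_one] at h
  exact h

theorem STAR2_one (a : ℝ) (x z : ℂ) (hx : ‖x‖ = 1) (hz : ‖z‖ < 1) :
    HasDerivAt (fun z : ℂ => (1 - x * z) ^ (-(a : ℂ)))
      ((1 - x * z) ^ (-(a : ℂ)) * ((a : ℂ) * (x / (1 - x * z)))) z := by
  have hP0 := STAR2_ne x z hx hz
  have h1 := (STAR2_lin x z).cpow_const (c := -(a : ℂ))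
    (Complex.mem_slitPlane_iff.2 (Or.inl (STAR2_pos x z hx hz)))
  refine h1.congr_deriv ?_
  rw [Complex.cpow_sub _ _ hP0, Complex.cpow_one]
  field_simp

theorem STAR2_prod (n : ℕ) (α : Fin n → ℝ) (x : Fin n → ℂ) (hx : ∀ j, ‖x j‖ = 1) (z : ℂ)
    (hz : ‖z‖ < 1) (A : Finset (Fin n)) :
    HasDerivAt (fun z : ℂ => ∏ j ∈ A, (1 - x j * z) ^ (-(α j : ℂ)))
      ((∏ j ∈ A, (1 - x j * z) ^ (-(α j : ℂ))) *
        ∑ j ∈ A, (α j : ℂ) * (x j / (1 - x j * z))) z := by
  classical
  induction A using Finset.induction_on with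
  | empty =>
    simp only [Finset.prod_empty, Finset.sum_empty, mul_zero]
    exact hasDerivAt_const z 1
  | insert i A hi ih =>
    have h := (STAR2_one (α i) (x i) z (hx i) hz).mul ih
    have h2 : HasDerivAt (fun z : ℂ => (1 - x i * z) ^ (-(α i : ℂ)) *
        ∏ j ∈ A, (1 - x j * z) ^ (-(α j : ℂ))) _ z := h
    have e : (fun z : ℂ => ∏ j ∈ insert i A, (1 - x j * z) ^ (-(α j : ℂ))) =
        (fun z : ℂ => (1 - x i * z) ^ (-(α i : ℂ)) *
        ∏ j ∈ A, (1 - x j * z) ^ (-(α j : ℂ))) := by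
      funext w
      rw [Finset.prod_insert hi]
    rw [e]
    refine h2.congr_deriv ?_
    rw [Finset.prod_insert hi, Finset.sum_insert hi]
    ring

theorem STAR2_der (n : ℕ) (α : Fin n → ℝ) (x : Fin n → ℂ) (hx : ∀ j, ‖x j‖ = 1) (z : ℂ)
    (hz : ‖z‖ < 1) :
    HasDerivAt (Fg n α x) ((∏ j, (1 - x j * z) ^ (-(α j : ℂ))) *
      (1 + ∑ j, (α j : ℂ) * (x j * z / (1 - x j * z)))) z := by
  have h := (hasDerivAt_id z).mul (STAR2_prod n α x hx z hz Finset.univ)
  have h2 : HasDerivAt (Fg n α x) _ z := h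
  refine h2.congr_deriv ?_
  have e : ∑ j, (α j : ℂ) * (x j * z / (1 - x j * z)) =
      z * ∑ j, (α j : ℂ) * (x j / (1 - x j * z)) := by
    rw [Finset.mul_sum]
    refine Finset.sum_congr rfl fun j _ => ?_
    ring
  rw [e]
  simp only [id]
  ring

theorem t_STAR2 : S_STAR2 := by
  intro n α x hα hs hx
  refine ⟨?_, ?_, ?_, ?_⟩
  · intro z hz
    have hz' : ‖z‖ < 1 := by simpa using hz
    exact (STAR2_der n α x hx z hz').differentiableAt.differentiableWithinAt
  · unfold Fg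
    simp
  · rw [(STAR2_der n α x hx 0 (by simp)).deriv]
    simp
  · intro z hz0 hz
    have hP : ∏ j, (1 - x j * z) ^ (-(α j : ℂ)) ≠ 0 := by
      rw [Finset.prod_ne_zero_iff]
      intro j _ h
      rw [Complex.cpow_eq_zero_iff] at h
      exact STAR2_ne (x j) z (hx j) hz h.1
    have hF : Fg n α x z ≠ 0 := by
      unfold Fg
      exact mul_ne_zero hz0 hP
    refine ⟨hF, ?_⟩
    have h1 : z * deriv (Fg n α x) z / Fg n α x z =
        1 + ∑ j, (α j : ℂ) * (x j * z / (1 - x j * z)) := by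
      rw [(STAR2_der n α x hx z hz).deriv, div_eq_iff hF]
      unfold Fg
      ring
    rw [h1, Complex.add_re, Complex.re_sum, Complex.one_re]
    have hne : (Finset.univ : Finset (Fin n)).Nonempty := by
      rw [Finset.nonempty_iff_ne_empty]
      intro h
      rw [h] at hs
      simp at hs
    have hlt : ∑ j, α j * -(1 / 2) < ∑ j, ((α j : ℂ) * (x j * z / (1 - x j * z))).re := by
      refine Finset.sum_lt_sum_of_nonempty hne fun j _ => ?_
      rw [Complex.re_ofReal_mul]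
      have hw : ‖x j * z‖ < 1 := by
        rw [norm_mul, hx j, one_mul]
        exact hz
      exact mul_lt_mul_of_pos_left (STAR2_re_gt (x j * z) hw) (hα j)
    rw [← Finset.sum_mul, hs] at hlt
    linarith

end Pool.Agent.H212.SG
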