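import Pool.Agent.H212.SN.T_MM
import Pool.Agent.H212.SN.T_UNIV
import Pool.Agent.H212.SG.T_K2
import Pool.Agent.H212.SG.T_LTA2
import Pool.Agent.H212.SG.T_LTB2
import Pool.Agent.H212.SG.T_BM2
import Pool.Agent.H212.SG.T_BN2
import Pool.Agent.H212.SG.T_NI
import Pool.Agent.H212.SG.T_AL
import Pool.Agent.H212.SG.T_CORE2
import Pool.Agent.H212.SG.T_GOOD
import Pool.Agent.H212.SG.T_LAP
import Pool.Agent.H212.SG.T_IMP
import Pool.Agent.H212.SG.T_IMR
import Pool.Agent.H212.SG.T_HAD2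
import Pool.Agent.H212.SG.T_FIN2
import Pool.Agent.H212.SG.T_STAR2

open Complex Set Filter Topology
open scoped ComplexConjugate

namespace Pool.Agent.H212.SG
open Pool.Agent.H212.SN

theorem fin2 : S_FIN2 := by
  have hIMR : S_IMR := t_IMR t_LAP t_IMP t_GOOD
  have hCORE2 : S_CORE2 := t_CORE2 (t_LTA2 t_K2) (t_LTB2 t_K2) t_BM2 (t_BN2 t_K2) t_NI t_AL t_MM
  exact t_FIN2 t_GOOD hIMR hCORE2 (t_HAD2 t_UNIV) t_UNIV

end Pool.Agent.H212.SG
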