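import Pool.Agent.H212.SG.Stm

set_option autoImplicit false

open Complex Set Filter Topology MeasureTheory
open scoped ComplexConjugate

namespace Pool.Agent.H212.SG
open Pool.Agent.H212.SN

theorem HAD2_taylor (f : ℂ → ℂ) (hf : DifferentiableOn ℂ f (Metric.ball 0 1)) (w : ℂ)
    (hw : ‖w‖ < 1) : HasSum (fun n : ℕ => cf f n * w ^ n) (f w) := by
  have hw' : w ∈ Metric.ball (0 : ℂ) 1 := by
    rw [Metric.mem_ball, dist_zero_right]
    exact hw
  have h2 := Complex.hasSum_taylorSeries_on_ball hf hw'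
  refine h2.congr_fun ?_ |> fun h => h
  intro n
  show iteratedDeriv n f 0 / (n.factorial : ℂ) * w ^ n =
    ((n.factorial : ℕ) : ℂ)⁻¹ • (w - 0) ^ n • iteratedDeriv n f 0
  rw [sub_zero, smul_eq_mul, smul_eq_mul]
  ring

noncomputable def HAD2_a (H : ℂ → ℂ) : ℕ → ℂ
  | 0 => 0
  | n + 1 => cf H n

theorem HAD2_cfmul (H : ℂ → ℂ) (hH : DifferentiableOn ℂ H (Metric.ball 0 1)) (n : ℕ) :
    cf (fun w => w * H w) n = HAD2_a H n := by
  have hd : DifferentiableOn ℂ (fun w => w * H w) (Metric.ball 0 1) := differentiableOn_id.mul hH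
  have han : AnalyticAt ℂ (fun w => w * H w) 0 := hd.analyticAt (Metric.ball_mem_nhds 0 one_pos)
  have hp1 := han.hasFPowerSeriesAt
  have hp2 : HasFPowerSeriesAt (fun w => w * H w)
      (FormalMultilinearSeries.ofScalars ℂ (HAD2_a H)) 0 := by
    rw [hasFPowerSeriesAt_iff]
    filter_upwards [Metric.ball_mem_nhds (0 : ℂ) one_pos] with z hz
    rw [mem_ball_zero_iff] at hz
    have h1 := (HAD2_taylor H hH z hz).mul_left z
    have e2 : (fun n : ℕ => z * (cf H n * z ^ n)) = fun n : ℕ => z ^ (n + 1) * HAD2_a H (n + 1) := by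
      funext n
      show z * (cf H n * z ^ n) = z ^ (n + 1) * cf H n
      ring
    rw [e2] at h1
    have h2 := (hasSum_nat_add_iff (f := fun n : ℕ => z ^ n * HAD2_a H n) 1).1 h1
    rw [Finset.sum_range_one] at h2
    have e4 : z ^ 0 * HAD2_a H 0 = 0 := by
      show z ^ 0 * (0 : ℂ) = 0
      rw [mul_zero]
    rw [e4, add_zero] at h2
    rw [zero_add]
    simpa only [FormalMultilinearSeries.coeff_ofScalars, smul_eq_mul] using h2
  have heq := hp1.eq_formalMultilinearSeries hp2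
  have h := congrArg (fun p => FormalMultilinearSeries.coeff p n) heq
  simp only [FormalMultilinearSeries.coeff_ofScalars] at h
  exact h

theorem HAD2_slit {x z : ℂ} (hx : ‖x‖ = 1) (hz : ‖z‖ < 1) : 1 - conj x * z ∈ slitPlane := by
  left
  have h1 : (conj x * z).re ≤ ‖conj x * z‖ := Complex.re_le_norm _
  have h2 : ‖conj x * z‖ < 1 := by
    rw [norm_mul, Complex.norm_conj, hx, one_mul]
    exact hz
  rw [Complex.sub_re, Complex.one_re]
  linarith

theorem HAD2_iter (a x : ℂ) (hx : ‖x‖ = 1) (g : ℂ → ℂ)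
    (hg : ∀ ζ ∈ Metric.ball (0 : ℂ) 1, g ζ = (1 - conj x * ζ) ^ (-a)) (n : ℕ) :
    ∀ ζ ∈ Metric.ball (0 : ℂ) 1, iteratedDeriv n g ζ =
      (∏ k ∈ Finset.range n, (a + k)) * conj x ^ n * (1 - conj x * ζ) ^ (-a - n) := by
  induction n with
  | zero =>
    intro ζ hζ
    rw [iteratedDeriv_zero, hg ζ hζ]
    simp
  | succ n ih =>
    intro ζ hζ
    rw [iteratedDeriv_succ]
    have h1 : iteratedDeriv n g =ᶠ[𝓝 ζ] fun ζ =>
        (∏ k ∈ Finset.range n, (a + k)) * conj x ^ n * (1 - conj x * ζ) ^ (-a - n) := by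
      filter_upwards [Metric.isOpen_ball.mem_nhds hζ] with y hy
      exact ih y hy
    rw [h1.deriv_eq]
    have hz : ‖ζ‖ < 1 := by rwa [mem_ball_zero_iff] at hζ
    have h2 : HasDerivAt (fun ζ : ℂ => 1 - conj x * ζ) (-conj x) ζ := by
      have := ((hasDerivAt_id ζ).const_mul (conj x)).const_sub 1
      simpa using this
    have h3 := (h2.cpow_const (c := -a - n) (HAD2_slit hx hz)).const_mul
      ((∏ k ∈ Finset.range n, (a + k)) * conj x ^ n)
    rw [h3.deriv, Finset.prod_range_succ]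
    have h4 : -a - (n : ℂ) - 1 = -a - ((n + 1 : ℕ) : ℂ) := by push_cast; ring
    rw [h4]
    ring

theorem HAD2_beta (a : ℂ) (ha : 0 < a.re) (ha2 : 0 < (2 - a).re) (n : ℕ) :
    Complex.betaIntegral (a + n) (2 - a) * ((n + 1).factorial : ℂ) =
      (∏ k ∈ Finset.range n, (a + k)) * Complex.betaIntegral a (2 - a) := by
  induction n with
  | zero => simp
  | succ n ih =>
    have hn : 0 < (a + n).re := by
      rw [Complex.add_re, Complex.natCast_re]; positivity
    have hn1 : 0 < (a + n + 1).re := by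
      rw [Complex.add_re, Complex.one_re]; linarith
    have e1 := Complex.Gamma_mul_Gamma_eq_betaIntegral hn ha2
    have e2 := Complex.Gamma_mul_Gamma_eq_betaIntegral hn1 ha2
    have hne : a + n ≠ 0 := by
      intro h0; rw [h0] at hn; simp at hn
    have e3 : Complex.Gamma (a + n + 1) = (a + n) * Complex.Gamma (a + n) :=
      Complex.Gamma_add_one _ hne
    have e4 : a + n + (2 - a) = (n : ℂ) + 2 := by ring
    have e5 : a + n + 1 + (2 - a) = ((n : ℂ) + 2) + 1 := by ring
    have hn2 : (n : ℂ) + 2 ≠ 0 := by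
      have : ((n + 2 : ℕ) : ℂ) ≠ 0 := Nat.cast_ne_zero.2 (by omega)
      simpa using this
    have e6 : Complex.Gamma (((n : ℂ) + 2) + 1) = ((n : ℂ) + 2) * Complex.Gamma ((n : ℂ) + 2) :=
      Complex.Gamma_add_one _ hn2
    have hG : Complex.Gamma ((n : ℂ) + 2) ≠ 0 := by
      apply Complex.Gamma_ne_zero_of_re_pos
      rw [Complex.add_re, Complex.natCast_re]
      norm_num
      positivity
    rw [e4] at e1
    rw [e5, e6, e3] at e2
    have e7 : ((n : ℂ) + 2) * Complex.betaIntegral (a + n + 1) (2 - a) =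
        (a + n) * Complex.betaIntegral (a + n) (2 - a) := by
      apply mul_left_cancel₀ hG
      linear_combination (a + n) * e1 - e2
    have e8 : a + ((n + 1 : ℕ) : ℂ) = a + n + 1 := by push_cast; ring
    rw [e8, Finset.prod_range_succ, Nat.factorial_succ]
    push_cast
    linear_combination ((n + 1).factorial : ℂ) * e7 + (a + n) * ih

theorem t_HAD2 (hUNIV : S_UNIV) : S_HAD2 := by
  intro α b x hα0 hα1 hb hb2 hx
  obtain ⟨-, hder⟩ := hUNIV α b x hα0 hα1 hb hb2 hx
  set a : ℂ := 2 - (α : ℂ) + (b : ℂ) * I with ha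
  have hare : a.re = 2 - α := by simp [ha]
  have ha0 : 0 < a.re := by rw [hare]; linarith
  have ha2 : 0 < (2 - a).re := by
    rw [Complex.sub_re, hare]; simp; linarith
  have hpb : pb α b = -a := by rw [ha]; unfold pb; ring
  set B₀ : ℂ := Complex.betaIntegral a (2 - a) with hB₀
  have hB : B₀ ≠ 0 := by
    intro h0
    have h1 := Complex.Gamma_mul_Gamma_eq_betaIntegral ha0 ha2
    rw [← hB₀, h0, mul_zero] at h1
    rcases mul_eq_zero.1 h1 with h2 | h2
    · exact Complex.Gamma_ne_zero_of_re_pos ha0 h2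
    · exact Complex.Gamma_ne_zero_of_re_pos ha2 h2
  -- the coefficients of `fb`
  have hcf : ∀ n : ℕ, cf (fb α b x) (n + 1) =
      conj x ^ n * (Complex.betaIntegral (a + n) (2 - a) / B₀) := by
    intro n
    have h1 := HAD2_iter a x hx (deriv (fb α b x)) (fun ζ hζ => by rw [hder ζ hζ, hpb]) n 0
      (Metric.mem_ball_self one_pos)
    have h2 := HAD2_beta a ha0 ha2 n
    unfold cf
    rw [iteratedDeriv_succ', h1]
    have h3 : (((n + 1).factorial : ℕ) : ℂ) ≠ 0 := Nat.cast_ne_zero.2 (Nat.factorial_ne_zero _)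
    rw [mul_zero, sub_zero, Complex.one_cpow, mul_one, div_eq_iff h3]
    rw [← hB₀] at h2
    field_simp
    linear_combination -(conj x ^ n) * h2
  refine ⟨1 / B₀, one_div_ne_zero hB, fun H hH z hz => ?_⟩
  set W : ℝ → ℂ := fun v => (v : ℂ) ^ (((1 - α : ℝ) : ℂ) + (b : ℂ) * I) *
        ((1 - v : ℝ) : ℂ) ^ (((α - 1 : ℝ) : ℂ) - (b : ℂ) * I) with hW
  have hWe : ∀ v : ℝ, W v = (v : ℂ) ^ (a - 1) * (1 - (v : ℂ)) ^ (2 - a - 1) := by
    intro v
    have e1 : ((1 - α : ℝ) : ℂ) + (b : ℂ) * I = a - 1 := by rw [ha]; push_cast; ring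
    have e2 : ((α - 1 : ℝ) : ℂ) - (b : ℂ) * I = 2 - a - 1 := by rw [ha]; push_cast; ring
    have e3 : ((1 - v : ℝ) : ℂ) = 1 - (v : ℂ) := by push_cast; ring
    simp only [hW, e1, e2, e3]
  have hint : IntervalIntegrable W volume 0 1 := by
    have := Complex.betaIntegral_convergent ha0 ha2
    refine this.congr ?_
    intro v _
    exact (hWe v).symm
  have hI : Set.uIoc (0 : ℝ) 1 = Set.Ioc 0 1 := Set.uIoc_of_le zero_le_one
  have hmz : ∀ v ∈ Set.uIoc (0 : ℝ) 1, ‖(v : ℂ) * (conj x * z)‖ ≤ ‖z‖ := by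
    intro v hv
    rw [hI] at hv
    rw [norm_mul, norm_mul, Complex.norm_conj, hx, one_mul, Complex.norm_real,
      Real.norm_of_nonneg hv.1.le]
    have := norm_nonneg z
    have := hv.2
    nlinarith
  have habs : Summable (fun n : ℕ => ‖cf H n‖ * ‖z‖ ^ n) := by
    have h1 : ‖((‖z‖ : ℝ) : ℂ)‖ < 1 := by
      rw [Complex.norm_real, norm_norm]
      exact hz
    have h2 := (HAD2_taylor H hH _ h1).summable.norm
    refine h2.congr fun n => ?_
    rw [norm_mul, norm_pow, Complex.norm_real, norm_norm]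
  have key : HasSum (fun n : ℕ => ∫ v in (0 : ℝ)..1,
      W v * (cf H n * ((v : ℂ) * (conj x * z)) ^ n))
      (∫ v in (0 : ℝ)..1, W v * H ((v : ℂ) * (conj x * z))) := by
    refine intervalIntegral.hasSum_integral_of_dominated_convergence
      (fun n v => ‖W v‖ * (‖cf H n‖ * ‖z‖ ^ n)) ?_ ?_ ?_ ?_ ?_
    · intro n
      rw [hI]
      refine hint.1.aestronglyMeasurable.mul ?_
      exact Continuous.aestronglyMeasurable (by fun_prop)
    · intro n
      refine Filter.Eventually.of_forall fun t ht => ?_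
      have h1 := hmz t ht
      show ‖W t * (cf H n * ((t : ℂ) * (conj x * z)) ^ n)‖ ≤ ‖W t‖ * (‖cf H n‖ * ‖z‖ ^ n)
      rw [norm_mul (W t)]
      refine mul_le_mul_of_nonneg_left ?_ (norm_nonneg _)
      rw [norm_mul (cf H n), norm_pow]
      exact mul_le_mul_of_nonneg_left (pow_le_pow_left₀ (norm_nonneg _) h1 n) (norm_nonneg _)
    · refine Filter.Eventually.of_forall fun t _ => ?_
      exact habs.mul_left _
    · have e : (fun t : ℝ => ∑' n : ℕ, ‖W t‖ * (‖cf H n‖ * ‖z‖ ^ n)) =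
          fun t => ‖W t‖ * ∑' n : ℕ, ‖cf H n‖ * ‖z‖ ^ n := by
        funext t
        exact tsum_mul_left
      rw [e]
      exact hint.norm.mul_const _
    · refine Filter.Eventually.of_forall fun t ht => ?_
      exact (HAD2_taylor H hH _ ((hmz t ht).trans_lt hz)).mul_left _
  have key2 : HasSum (fun n : ℕ => cf (fun w => w * H w) (n + 1) * cf (fb α b x) (n + 1) *
      z ^ (n + 1)) (1 / B₀ * z * ∫ v in (0 : ℝ)..1, W v * H ((v : ℂ) * (conj x * z))) := by
    have h1 := key.mul_left (1 / B₀ * z)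
    refine h1.congr_fun ?_ |> fun h => h
    intro n
    have h2 : (∫ v in (0 : ℝ)..1, W v * (cf H n * ((v : ℂ) * (conj x * z)) ^ n)) =
        (cf H n * (conj x * z) ^ n) * Complex.betaIntegral (a + n) (2 - a) := by
      unfold Complex.betaIntegral
      rw [← intervalIntegral.integral_const_mul]
      refine intervalIntegral.integral_congr_ae (Filter.Eventually.of_forall fun v hv => ?_)
      rw [hI] at hv
      have hv0 : (v : ℂ) ≠ 0 := Complex.ofReal_ne_zero.2 hv.1.ne'
      have e1 : (v : ℂ) ^ (a + n - 1) = (v : ℂ) ^ (a - 1) * (v : ℂ) ^ n := by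
        rw [← Complex.cpow_natCast, ← Complex.cpow_add _ _ hv0]
        congr 1; ring
      rw [hWe, e1, mul_pow]
      ring
    show cf (fun w => w * H w) (n + 1) * cf (fb α b x) (n + 1) * z ^ (n + 1) = 1 / B₀ * z * _
    rw [h2, HAD2_cfmul H hH, hcf]
    show cf H n * _ * _ = _
    rw [mul_pow]
    ring
  have key3 : HasSum (fun n : ℕ => cf (fun w => w * H w) n * cf (fb α b x) n * z ^ n)
      (1 / B₀ * z * ∫ v in (0 : ℝ)..1, W v * H ((v : ℂ) * (conj x * z))) := by
    have h0 : cf (fun w => w * H w) 0 = 0 := HAD2_cfmul H hH 0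
    have h1 := (hasSum_nat_add_iff
      (f := fun n : ℕ => cf (fun w => w * H w) n * cf (fb α b x) n * z ^ n) 1).1 key2
    rw [Finset.sum_range_one, h0, zero_mul, zero_mul, add_zero] at h1
    exact h1
  exact ⟨key3.summable, key3.tsum_eq⟩

end Pool.Agent.H212.SG
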